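import Mathlib
import Pool.Agent.Work.MP_0532f7_lc.TD.Defs

/-!
Disjoint pairs, unambiguous sets and total search problems relative to an oracle.
-/

namespace Pool.Agent.Work.MP_0532f7_lc

/-- All members of `L` are of the form `1 ^ n`. -/
def Tally (L : Set (List Bool)) : Prop := ∀ w ∈ L, ∃ n, w = List.replicate n true

/-- The pair `(E, F)` is reducible to the pair `(C, D)` relative to the oracle `X`: some map that is
computable in polynomial time relative to `X` maps `E` into `C` and `F` into `D`. -/
def PairRed (X : List Bool → Bool) (E F C D : Set (List Bool)) : Prop :=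
  ∃ h, PolyTimeRel X h ∧ (∀ w ∈ E, h w ∈ C) ∧ ∀ w ∈ F, h w ∈ D

/-- `L` is many-one reducible to `U` in polynomial time relative to the oracle `X`. -/
def SetRed (X : List Bool → Bool) (L U : Set (List Bool)) : Prop :=
  ∃ h, PolyTimeRel X h ∧ ∀ w, w ∈ L ↔ h w ∈ U

/-- `L` is in UP relative to the oracle `X`: it is defined by a polynomial-time relation with at
most one witness for every word. -/
def UPRel (X : List Bool → Bool) (L : Set (List Bool)) : Prop :=
  ∃ V : List Bool → List Bool, PolyTimeRel X V ∧ ∃ p : Polynomial ℕ,
    (∀ z y y' : List Bool, y.length ≤ p.eval z.length → y'.length ≤ p.eval z.length →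
      V (pr z y) = [true] → V (pr z y') = [true] → y = y') ∧
    ∀ z, z ∈ L ↔ ∃ y : List Bool, y.length ≤ p.eval z.length ∧ V (pr z y) = [true]

/-- `S` is a total NP search problem relative to the oracle `X` (a problem in TFNP): `S z` is the
set of the solutions of the instance `z`. -/
def TFNPRel (X : List Bool → Bool) (S : List Bool → Set (List Bool)) : Prop :=
  (∃ V : List Bool → List Bool, PolyTimeRel X V ∧ ∀ z y, y ∈ S z ↔ V (pr z y) = [true]) ∧
  (∃ p : Polynomial ℕ, ∀ z, ∀ y ∈ S z, y.length ≤ p.eval z.length) ∧
  ∀ z, (S z).Nonempty

/-- The search problem `S` is reducible to the search problem `T` relative to the oracle `X`: `h`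
translates instances and `g` translates the solutions back. -/
def SearchRed (X : List Bool → Bool) (S T : List Bool → Set (List Bool)) : Prop :=
  ∃ h g : List Bool → List Bool, PolyTimeRel X h ∧ PolyTimeRel X g ∧
    ∀ z, ∀ y ∈ T (h z), g (pr z y) ∈ S z

/-- `f` is a p-optimal proof system for the set `L` relative to the oracle `X`: proofs in every
other proof system are translated in polynomial time (even without oracle). -/
def POptimalForRel (X : List Bool → Bool) (L : Set (List Bool)) (f : List Bool → List Bool) :
    Prop :=
  (PolyTimeRel X f ∧ Set.range f = L) ∧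
    ∀ g, PolyTimeRel X g → Set.range g = L → ∃ h, PolyTime h ∧ ∀ w, f (h w) = g w

end Pool.Agent.Work.MP_0532f7_lc
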