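import Mathlib
import Pool.Agent.Work.MP_0532f7_lc.OMain
import Pool.Agent.Work.MP_0532f7_lc.PP.Defs

/-!
Pudlak's programme relative to a random oracle: blocks, events, machines (definitions).
-/

namespace Pool.Agent.Work.MP_0532f7_lc.PP

open MeasureTheory

/-! ### blocks -/

/-- the addresses `x 1^r 0` with `|x| = n` and `a ≤ r < b` -/
noncomputable def adr (n a b : ℕ) : Finset (List Bool) :=
  (ombWords n ×ˢ Finset.Ico a b).image (fun p => p.1 ++ (un p.2 ++ [false]))

theorem mem_adr {n a b : ℕ} {y : List Bool} :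
    y ∈ adr n a b ↔ ∃ (x : List Bool) (r : ℕ), x.length = n ∧ a ≤ r ∧ r < b ∧
      y = x ++ (un r ++ [false]) := by
  unfold adr
  rw [Finset.mem_image]
  constructor
  · rintro ⟨⟨x, r⟩, h, rfl⟩
    rw [Finset.mem_product, Finset.mem_Ico] at h
    exact ⟨x, r, omb_mem_words.mp h.1, h.2.1, h.2.2, rfl⟩
  · rintro ⟨x, r, hx, h1, h2, rfl⟩
    exact ⟨(x, r), Finset.mem_product.mpr ⟨omb_mem_words.mpr hx, Finset.mem_Ico.mpr ⟨h1, h2⟩⟩, rfl⟩

/-- some block of length `M` with an address in the range is zero -/
def Zs (n M a b : ℕ) : Set (List Bool → Bool) :=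
  {R | ∃ y ∈ adr n a b, ∀ w ∈ blkW M y, R w = false}

/-- length of the blocks (`s = true`: NP case, `s = false`: coNP case) -/
def bM (s : Bool) (n N : ℕ) : ℕ := if s then n + (num N).length + 1 else n

/-- number of the blocks with the same `x` in each half -/
def bl (s : Bool) (N : ℕ) : ℕ := if s then 1 else (num N).length / 2 + 1

/-- range of the half `c` -/
def lo (s : Bool) (N : ℕ) (c : Bool) : ℕ := if c then bl s N else 0

/-- range of the half `c` -/
def hi (s : Bool) (N : ℕ) (c : Bool) : ℕ := if c then 2 * bl s N else bl s N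

/-- the event of the half `c`: there is a zero block (NP case), there is no zero block (coNP
case) -/
def EH (s : Bool) (n N : ℕ) (c : Bool) : Set (List Bool → Bool) :=
  if s then Zs n (bM s n N) (lo s N c) (hi s N c) else (Zs n (bM s n N) (lo s N c) (hi s N c))ᶜ

/-- both events -/
def E2 (s : Bool) (n N : ℕ) : Set (List Bool → Bool) := EH s n N false ∩ EH s n N true

/-- the probability of `EH s n N c` -/
noncomputable def bt (s : Bool) (n N : ℕ) : ℝ :=
  if s then 1 - (1 - (1 / 2) ^ bM s n N) ^ (2 ^ n * bl s N)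
  else (1 - (1 / 2) ^ bM s n N) ^ (2 ^ n * bl s N)

/-- `W` depends only on the words of length at most `L` -/
def Short (L : ℕ) (W : Set (List Bool → Bool)) : Prop :=
  ∀ R R' : List Bool → Bool, Agr L R R' → R ∈ W → R' ∈ W

/-- no event `V j` with `i0 ≤ j < i` -/
def NoV (V : ℕ → Set (List Bool → Bool)) (i0 i : ℕ) : Set (List Bool → Bool) :=
  {R | ∀ j, i0 ≤ j → j < i → R ∉ V j}

/-- `Col` has conditional probability at least one half in the cylinder `σ` if both events
happen -/
def Cond (s : Bool) (σ : List Bool) (n N : ℕ) (Col : Set (List Bool → Bool)) : Prop :=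
  randomOracle.real (ocyl σ ∩ E2 s n N) ≤ 2 * randomOracle.real (ocyl σ ∩ E2 s n N ∩ Col)

/-! ### machines -/

/-- an oracle machine -/
structure Mach where
  Q : List Bool → List Bool
  C : List Bool → List Bool
  O : List Bool → List Bool

/-- the parts are computable in polynomial time -/
def Mach.ok (P : Mach) : Prop := FP P.Q ∧ FP P.C ∧ FP P.O

/-- the value computed relative to the join of `A` and `R` -/
def Mach.run (P : Mach) (A R : List Bool → Bool) (v : List Bool) : List Bool :=
  ora P.Q P.C P.O (ojoin A R) v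

/-- the words whose membership in `R` may be asked in the computation on `v` -/
def Mach.qs (P : Mach) (A R : List Bool → Bool) (v : List Bool) : Finset (List Bool) :=
  (Finset.range (P.C v).length).image (fun k => (P.Q (pr v (answers P.Q (ojoin A R) v k))).tail)

/-- at level `m` the computations on words of length at most `2 ^ m` are short -/
def Good2 (P : Mach) (m : ℕ) : Prop :=
  ∀ v : List Bool, v.length ≤ 2 ^ m → 4 ^ m * (P.C v).length ≤ 2 ^ (m * m) ∧
    ∀ a : List Bool, a.length ≤ (P.C v).length → (P.Q (pr v a)).length ≤ 2 ^ (m * m)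

/-- some word `v` of length at most `2 ^ m` that codes a pair with first component `h (1 ^ m)` is
accepted by `P` -/
def Uac (h P : Mach) (A : List Bool → Bool) (m : ℕ) : Set (List Bool → Bool) :=
  {R | ∃ v : List Bool, v.length ≤ 2 ^ m ∧ fs v = h.run A R (un m) ∧ P.run A R v = [true]}

/-! ### the three cases -/

/-- NP pairs: collision -/
def ColN (P : Bool → Mach) (A : List Bool → Bool) (m : ℕ) : Set (List Bool → Bool) :=
  {R | ∃ v v' : List Bool, v.length ≤ 2 ^ m ∧ v'.length ≤ 2 ^ m ∧ fs v = fs v' ∧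
    (P false).run A R v = [true] ∧ (P true).run A R v' = [true]}

/-- NP pairs: the reduction `h` fails at level `m` -/
def FailN (h : Mach) (P : Bool → Mach) (A : List Bool → Bool) (m N : ℕ) :
    Set (List Bool → Bool) :=
  {R | ∃ c : Bool, R ∈ EH true (m * m) N c ∧ R ∉ Uac h (P c) A m}

/-- coNP pairs: collision (`k z` bounds the length of the witnesses) -/
def ColC (P : Bool → Mach) (k : List Bool → List Bool) (A : List Bool → Bool) (m : ℕ) :
    Set (List Bool → Bool) :=
  {R | ∃ z : List Bool, 2 * z.length + 2 + (k z).length ≤ 2 ^ m ∧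
    ∀ (c : Bool) (v : List Bool), v.length ≤ 2 ^ m → fs v = z → (P c).run A R v ≠ [true]}

/-- coNP pairs: the reduction `h` fails at level `m` -/
def FailC (h : Mach) (P : Bool → Mach) (A : List Bool → Bool) (m N : ℕ) :
    Set (List Bool → Bool) :=
  {R | ∃ c : Bool, R ∈ EH false (m * m) N c ∧ R ∈ Uac h (P c) A m}

/-- UP: collision -/
def ColU (P : Mach) (A : List Bool → Bool) (m : ℕ) : Set (List Bool → Bool) :=
  {R | ∃ v v' : List Bool, v.length ≤ 2 ^ m ∧ v'.length ≤ 2 ^ m ∧ fs v = fs v' ∧ v ≠ v' ∧
    P.run A R v = [true] ∧ P.run A R v' = [true]}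

/-- UP: the reduction `h` fails at level `m` -/
def FailU (h P : Mach) (A : List Bool → Bool) (m N : ℕ) : Set (List Bool → Bool) :=
  {R | ((∃ c : Bool, R ∈ EH true (m * m) N c) ∧ R ∉ Uac h P A m) ∨
    ((∀ c : Bool, R ∉ EH true (m * m) N c) ∧ R ∈ Uac h P A m)}

end Pool.Agent.Work.MP_0532f7_lc.PP
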