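import Mathlib
import Pool.Agent.Work.MP_0532f7_lc.PP.Base

/-!
Addresses: their number, the blocks are disjoint, lengths. (S-M)

An address is y = x 1^r 0 with |x| = n; a word of its block is w = x 1^r 0 1^j, j < M, so |w| = n + r + 1 + j. From w one recovers
x = w.take n, and r = number of ones before the first 0 of w.drop n. So two different addresses (with the same n) have disjoint
blocks, whatever the lengths M, M' of the blocks are (adr_disj3; List.append_inj for the first n letters, then induction on r: un r ++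
(false :: u) = un r' ++ (false :: u') implies r = r' and u = u'). card_adr: the map (x, r) to x 1^r 0 is injective on the product;
card_ombWords, Nat.card_Ico.
-/

namespace Pool.Agent.Work.MP_0532f7_lc.PP

open MeasureTheory

private theorem run_inj : ∀ {r r' : ℕ} {u u' : List Bool},
    un r ++ (false :: u) = un r' ++ (false :: u') → r = r' ∧ u = u'
  | 0, 0, u, u', h => by
      refine ⟨rfl, ?_⟩
      simpa using h
  | 0, r' + 1, u, u', h => by
      rw [un_succ] at h
      simp at h
  | r + 1, 0, u, u', h => by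
      rw [un_succ] at h
      simp at h
  | r + 1, r' + 1, u, u', h => by
      rw [un_succ, un_succ, List.cons_append, List.cons_append] at h
      have h1 := run_inj (List.cons.inj h).2
      exact ⟨by rw [h1.1], h1.2⟩

theorem card_adr (n a b : ℕ) : (adr n a b).card = 2 ^ n * (b - a) := by
  unfold adr
  rw [Finset.card_image_of_injOn, Finset.card_product, card_ombWords, Nat.card_Ico]
  rintro ⟨x, r⟩ h ⟨x', r'⟩ h' he
  rw [Finset.mem_coe, Finset.mem_product] at h h'
  have hx := omb_mem_words.mp h.1
  have hx' := omb_mem_words.mp h'.1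
  have h1 := List.append_inj he (hx.trans hx'.symm)
  have h2 := run_inj h1.2
  exact Prod.ext h1.1 h2.1

theorem adr_disj3 {n a b c d M M' : ℕ} {y y' : List Bool} (hy : y ∈ adr n a b)
    (hy' : y' ∈ adr n c d) (h : y ≠ y') : Disjoint (blkW M y) (blkW M' y') := by
  rw [Finset.disjoint_left]
  intro w hw hw'
  obtain ⟨x, r, hx, -, -, rfl⟩ := mem_adr.mp hy
  obtain ⟨x', r', hx', -, -, rfl⟩ := mem_adr.mp hy'
  obtain ⟨j, -, rfl⟩ := mem_blkW.mp hw
  obtain ⟨j', -, h2⟩ := mem_blkW.mp hw'
  simp only [List.append_assoc, List.singleton_append] at h2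
  have h3 := List.append_inj h2 (hx'.trans hx.symm)
  have h4 := run_inj h3.2
  exact h (by rw [h3.1, h4.1])

theorem adr_disj {n a b M : ℕ} {y y' : List Bool} (hy : y ∈ adr n a b)
    (hy' : y' ∈ adr n a b) (h : y ≠ y') : Disjoint (blkW M y) (blkW M y') :=
  adr_disj3 hy hy' h

theorem adr_disj2 {n a b c d M M' : ℕ} (h : b ≤ c ∨ d ≤ a) {y y' : List Bool}
    (hy : y ∈ adr n a b) (hy' : y' ∈ adr n c d) : Disjoint (blkW M y) (blkW M' y') := by
  refine adr_disj3 hy hy' ?_
  rintro rfl
  obtain ⟨x, r, hx, h1, h2, h3⟩ := mem_adr.mp hy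
  obtain ⟨x', r', hx', h4, h5, h6⟩ := mem_adr.mp hy'
  have h7 := (run_inj (List.append_inj (h3.symm.trans h6) (hx.trans hx'.symm)).2).1
  omega

theorem adr_length {n a b M : ℕ} {y w : List Bool} (hy : y ∈ adr n a b) (hw : w ∈ blkW M y) :
    n < w.length ∧ w.length < n + b + M := by
  obtain ⟨x, r, hx, h1, h2, rfl⟩ := mem_adr.mp hy
  obtain ⟨j, hj, rfl⟩ := mem_blkW.mp hw
  simp only [List.length_append, List.length_replicate, un_length, List.length_cons,
    List.length_nil, hx]
  omega

theorem adr_len {n a b : ℕ} {y : List Bool} (hy : y ∈ adr n a b) :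
    n < y.length ∧ y.length ≤ n + b := by
  obtain ⟨x, r, hx, h1, h2, rfl⟩ := mem_adr.mp hy
  simp only [List.length_append, un_length, List.length_cons, List.length_nil, hx]
  omega

end Pool.Agent.Work.MP_0532f7_lc.PP
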