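import Mathlib
import Pool.Agent.Work.MP_0532f7_lc.PP.Adr

/-!
Events determined by short words; zeroing a block. (S-M)

zeroOn (blkW M y) R differs from R only on the block of y, whose words are longer than n (adr_length); so it agrees with R up to
length L when L is at most n (zero_agr), and membership in a set Short L does not change (Short.zero_iff, both directions from zero_agr and Agr.symm).
Zs_zero: for y in another range the block of y is disjoint from all the blocks of the range (adr_disj2), so zeroOn changes no value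
on these blocks. EH_zero: the ranges of the two halves are [0, l) and [l, 2 l); cases on c and s. short_Zs: the words of the blocks
have length less than n + b + M. short_EH2: M is at most m*m + m + 1 and hi is at most m + 2 when N is at most m (num_length), and
m*m + (m+2) + (m*m+m+1) is at most 2^(m*m) for m at least 3. Short.meas is meas_of_agr.
-/

namespace Pool.Agent.Work.MP_0532f7_lc.PP

open MeasureTheory

theorem Short.mono {L L' : ℕ} {W : Set (List Bool → Bool)} (h : Short L W) (hL : L ≤ L') :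
    Short L' W :=
  fun R R' hA hR => h R R' (hA.mono hL) hR

theorem Short.compl {L : ℕ} {W : Set (List Bool → Bool)} (h : Short L W) : Short L Wᶜ :=
  fun R R' hA hR hR' => hR (h R' R hA.symm hR')

theorem Short.inter {L : ℕ} {W W' : Set (List Bool → Bool)} (h : Short L W) (h' : Short L W') :
    Short L (W ∩ W') :=
  fun R R' hA hR => ⟨h R R' hA hR.1, h' R R' hA hR.2⟩

theorem Short.union {L : ℕ} {W W' : Set (List Bool → Bool)} (h : Short L W) (h' : Short L W') :
    Short L (W ∪ W') := by
  rintro R R' hA (hR | hR)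
  · exact Or.inl (h R R' hA hR)
  · exact Or.inr (h' R R' hA hR)

theorem short_univ (L : ℕ) : Short L Set.univ := fun _ _ _ _ => Set.mem_univ _

theorem Short.biUnion {ι : Type} (F : Finset ι) {L : ℕ} {W : ι → Set (List Bool → Bool)}
    (h : ∀ f ∈ F, Short L (W f)) : Short L (⋃ f ∈ F, W f) := by
  intro R R' hA hR
  rw [Set.mem_iUnion₂] at hR ⊢
  obtain ⟨f, hf, hR⟩ := hR
  exact ⟨f, hf, h f hf R R' hA hR⟩

theorem Short.meas {L : ℕ} {W : Set (List Bool → Bool)} (h : Short L W) : MeasurableSet W :=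
  meas_of_agr L W h

theorem short_ocyl {L : ℕ} (σ : List Bool) (h : σ.length ≤ L) : Short L (ocyl σ) :=
  fun R R' hA hR => ocyl_local σ R R' L h hA hR

theorem short_NoV {L : ℕ} {V : ℕ → Set (List Bool → Bool)} (i0 i : ℕ)
    (h : ∀ j, i0 ≤ j → j < i → Short L (V j)) : Short L (NoV V i0 i) :=
  fun R R' hA hR j h1 h2 h3 => hR j h1 h2 (h j h1 h2 R' R hA.symm h3)

theorem zero_agr {n a b M L : ℕ} {y : List Bool} (hy : y ∈ adr n a b) (hL : L ≤ n)
    (R : List Bool → Bool) : Agr L R (zeroOn (blkW M y) R) :=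
  zeroOn_agr M y L (lt_of_le_of_lt hL (adr_len hy).1) R

theorem Short.zero_iff {L : ℕ} {W : Set (List Bool → Bool)} (h : Short L W) {n a b M : ℕ}
    {y : List Bool} (hy : y ∈ adr n a b) (hL : L ≤ n) (R : List Bool → Bool) :
    zeroOn (blkW M y) R ∈ W ↔ R ∈ W :=
  ⟨h _ _ (zero_agr hy hL R).symm, h _ _ (zero_agr hy hL R)⟩

theorem Zs_zero {n a b c d M M' : ℕ} (h : b ≤ c ∨ d ≤ a) {y : List Bool} (hy : y ∈ adr n c d)
    (R : List Bool → Bool) : zeroOn (blkW M' y) R ∈ Zs n M a b ↔ R ∈ Zs n M a b := by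
  have key : ∀ y' ∈ adr n a b, ∀ w ∈ blkW M y', zeroOn (blkW M' y) R w = R w := by
    intro y' hy' w hw
    unfold zeroOn
    rw [if_neg]
    exact Finset.disjoint_left.mp (adr_disj2 h hy' hy) hw
  constructor
  · rintro ⟨y', h1, h2⟩
    exact ⟨y', h1, fun w hw => (key y' h1 w hw).symm.trans (h2 w hw)⟩
  · rintro ⟨y', h1, h2⟩
    exact ⟨y', h1, fun w hw => (key y' h1 w hw).trans (h2 w hw)⟩

theorem short_Zs (n M a b : ℕ) : Short (n + b + M) (Zs n M a b) := by
  rintro R R' hA ⟨y, h1, h2⟩
  refine ⟨y, h1, fun w hw => ?_⟩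
  rw [← hA w (adr_length h1 hw).2.le]
  exact h2 w hw

theorem EH_zero (s : Bool) (n N M : ℕ) (c : Bool) {y : List Bool}
    (hy : y ∈ adr n (lo s N c) (hi s N c)) (R : List Bool → Bool) :
    zeroOn (blkW M y) R ∈ EH s n N (!c) ↔ R ∈ EH s n N (!c) := by
  have h : hi s N (!c) ≤ lo s N c ∨ hi s N c ≤ lo s N (!c) := by
    cases c
    · right
      simp [hi, lo]
    · left
      simp [hi, lo]
  have h1 := Zs_zero (M := bM s n N) (M' := M) h hy R
  unfold EH
  cases s
  · rw [if_neg (by decide), Set.mem_compl_iff, Set.mem_compl_iff, h1]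
  · rw [if_pos rfl, h1]

theorem short_EH (s : Bool) (n N : ℕ) (c : Bool) :
    Short (n + hi s N c + bM s n N) (EH s n N c) := by
  have h1 := short_Zs n (bM s n N) (lo s N c) (hi s N c)
  unfold EH
  cases s
  · rw [if_neg (by decide)]
    exact h1.compl
  · rw [if_pos rfl]
    exact h1

private theorem adrz_pow : ∀ k : ℕ, 9 ≤ k → 4 * k + 3 ≤ 2 ^ k := by
  intro k hk
  induction k, hk using Nat.le_induction with
  | base => norm_num
  | succ k hk ih =>
    rw [pow_succ]
    omega

theorem short_EH2 (s : Bool) {m N : ℕ} (hm : 3 ≤ m) (hN : N ≤ m) (c : Bool) :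
    Short (2 ^ (m * m)) (EH s (m * m) N c) := by
  refine (short_EH s (m * m) N c).mono ?_
  have h1 := (num_length N).trans hN
  have h2 : m ≤ m * m := by nlinarith
  have h3 : 9 ≤ m * m := by nlinarith
  have h4 := adrz_pow (m * m) h3
  have h5 : bM s (m * m) N ≤ m * m + m + 1 := by
    unfold bM
    split_ifs <;> omega
  have h6 : hi s N c ≤ m + 2 := by
    unfold hi bl
    split_ifs <;> omega
  omega

theorem short_E2 (s : Bool) {m N : ℕ} (hm : 3 ≤ m) (hN : N ≤ m) :
    Short (2 ^ (m * m)) (E2 s (m * m) N) :=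
  (short_EH2 s hm hN false).inter (short_EH2 s hm hN true)

end Pool.Agent.Work.MP_0532f7_lc.PP
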