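import Mathlib
import Pool.Agent.Work.MP_0532f7_lc.OMeasA

/-!
Independence of the zero blocks from events that are not changed by zeroing a block. (S-M)

Induction on X, for all W at once (or for the fixed W): NZ_X = no block of X is zero, P(W,NZ_X) = (1-2^-M)^|X| P(W). Step X + x:
P(W,NZ_(X+x)) = P(W,NZ_X) - P(W,NZ_X,block x zero), and by plant (OMeasA) the last term is 2^-M P({R : zeroOn (B x) R in W inter NZ_X}) =
2^-M P(W,NZ_X), because zeroOn (B x) R is in W iff R is, and in NZ_X iff R is (disjoint blocks; cf. hUinv in om_block_aux of OMeasA).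
inv_ge is the complement: P(W) = P(W,NZ) + P(W,not NZ). (om_zero_meas for the measurability.)
-/

namespace Pool.Agent.Work.MP_0532f7_lc.PP

open MeasureTheory

private theorem zero_meas {α : Type} (X : Finset α) (B : α → Finset (List Bool)) :
    MeasurableSet {R : List Bool → Bool | ∃ x ∈ X, ∀ y ∈ B x, R y = false} := by
  have h : {R : List Bool → Bool | ∃ x ∈ X, ∀ y ∈ B x, R y = false} =
      ⋃ z ∈ X, {R | ∀ y ∈ B z, R y = false} := by
    ext R; simp
  rw [h]
  exact Finset.measurableSet_biUnion _ (fun z _ => om_zero_meas _)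

private theorem zero_inv {α : Type} (X : Finset α) (B : α → Finset (List Bool))
    (S : Finset (List Bool)) (hd : ∀ x ∈ X, Disjoint S (B x)) (R : List Bool → Bool) :
    zeroOn S R ∈ {R : List Bool → Bool | ∃ x ∈ X, ∀ y ∈ B x, R y = false} ↔
      R ∈ {R : List Bool → Bool | ∃ x ∈ X, ∀ y ∈ B x, R y = false} := by
  simp only [Set.mem_ofPred_eq]
  constructor
  · rintro ⟨z, hz, h⟩
    refine ⟨z, hz, fun y hy => ?_⟩
    have h1 := h y hy
    have hny : y ∉ S := fun h2 => Finset.disjoint_left.mp (hd z hz) h2 hy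
    unfold zeroOn at h1
    rwa [if_neg hny] at h1
  · rintro ⟨z, hz, h⟩
    refine ⟨z, hz, fun y hy => ?_⟩
    unfold zeroOn
    split_ifs
    · rfl
    · exact h y hy

theorem inv_nz {α : Type} [DecidableEq α] (X : Finset α) (B : α → Finset (List Bool)) (M : ℕ)
    (hm : ∀ x ∈ X, (B x).card = M)
    (hd : ∀ x ∈ X, ∀ x' ∈ X, x ≠ x' → Disjoint (B x) (B x'))
    (W : Set (List Bool → Bool)) (hW : MeasurableSet W)
    (hi : ∀ x ∈ X, ∀ R, zeroOn (B x) R ∈ W ↔ R ∈ W) :
    randomOracle.real (W ∩ {R | ∃ x ∈ X, ∀ y ∈ B x, R y = false}ᶜ) =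
      (1 - (1 / 2) ^ M) ^ X.card * randomOracle.real W := by
  induction X using Finset.induction_on with
  | empty => simp
  | insert x X hx ih =>
    have ih' := ih (fun z hz => hm z (Finset.mem_insert_of_mem hz))
      (fun z hz z' hz' => hd z (Finset.mem_insert_of_mem hz) z' (Finset.mem_insert_of_mem hz'))
      (fun z hz => hi z (Finset.mem_insert_of_mem hz))
    have hxm := hm x (Finset.mem_insert_self _ _)
    have hUm := zero_meas X B
    have hUinv := zero_inv X B (B x) (fun z hz => hd x (Finset.mem_insert_self _ _) z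
      (Finset.mem_insert_of_mem hz) (fun e => hx (e ▸ hz)))
    have hsplit : W ∩ {R | ∃ z ∈ insert x X, ∀ y ∈ B z, R y = false}ᶜ =
        (W ∩ {R | ∃ z ∈ X, ∀ y ∈ B z, R y = false}ᶜ) \ {R | ∀ y ∈ B x, R y = false} := by
      ext R
      simp only [Set.mem_inter_iff, Set.mem_compl_iff, Set.mem_ofPred_eq,
        Finset.mem_insert, exists_eq_or_imp, Set.mem_sdiff]
      exact ⟨fun h => ⟨⟨h.1, fun h' => h.2 (Or.inr h')⟩, fun h' => h.2 (Or.inl h')⟩,
        fun h => ⟨h.1.1, fun h' => h'.elim h.2 h.1.2⟩⟩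
    have h1 := measureReal_inter_add_sdiff (μ := randomOracle)
      (s := W ∩ {R | ∃ z ∈ X, ∀ y ∈ B z, R y = false}ᶜ) (om_zero_meas (B x))
    have h2 := plant (B x) (W ∩ {R | ∃ z ∈ X, ∀ y ∈ B z, R y = false}ᶜ) (hW.inter hUm.compl)
    have h3 : {R | zeroOn (B x) R ∈ W ∩ {R | ∃ z ∈ X, ∀ y ∈ B z, R y = false}ᶜ} =
        W ∩ {R | ∃ z ∈ X, ∀ y ∈ B z, R y = false}ᶜ := by
      ext R
      rw [Set.mem_ofPred_eq, Set.mem_inter_iff, Set.mem_compl_iff, hUinv R,
        hi x (Finset.mem_insert_self _ _) R, Set.mem_inter_iff, Set.mem_compl_iff]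
    rw [h3, hxm, ih'] at h2
    rw [ih', h2] at h1
    rw [hsplit, Finset.card_insert_of_notMem hx, pow_succ]
    linarith

theorem inv_z {α : Type} [DecidableEq α] (X : Finset α) (B : α → Finset (List Bool)) (M : ℕ)
    (hm : ∀ x ∈ X, (B x).card = M)
    (hd : ∀ x ∈ X, ∀ x' ∈ X, x ≠ x' → Disjoint (B x) (B x'))
    (W : Set (List Bool → Bool)) (hW : MeasurableSet W)
    (hi : ∀ x ∈ X, ∀ R, zeroOn (B x) R ∈ W ↔ R ∈ W) :
    randomOracle.real (W ∩ {R | ∃ x ∈ X, ∀ y ∈ B x, R y = false}) =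
      (1 - (1 - (1 / 2) ^ M) ^ X.card) * randomOracle.real W := by
  have h1 := measureReal_inter_add_sdiff (μ := randomOracle) (s := W) (zero_meas X B)
  have h2 := inv_nz X B M hm hd W hW hi
  rw [← Set.sdiff_eq] at h2
  rw [h2] at h1
  linarith

end Pool.Agent.Work.MP_0532f7_lc.PP
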