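import Mathlib
import Pool.Agent.Work.MP_0532f7_lc.PP.AdrZ
import Pool.Agent.Work.MP_0532f7_lc.PP.Inv

/-!
The probability of the events, and their independence from the short events and from each other. (S-M)

ind0: inv_nz / inv_z with X = adr n (lo s N c) (hi s N c), B = blkW (bM s n N), card_blkW, adr_disj, and
card_adr: 2^n * (hi - lo) = 2^n * bl s N for both halves (unfold lo hi; cases on c). Zs is by definition the event of inv_z with this X.
Cases on s: bt. ind1: a short event is not changed by zeroing a block (Short.zero_iff). ind2: first ind0 for the half true and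
W inter EH false (EH_zero with c = true: !true = false), then ind1; E2 = EH false inter EH true.
-/

namespace Pool.Agent.Work.MP_0532f7_lc.PP

open MeasureTheory

theorem ind0 (s : Bool) (n N : ℕ) (c : Bool) {W : Set (List Bool → Bool)} (hW : MeasurableSet W)
    (h : ∀ y ∈ adr n (lo s N c) (hi s N c), ∀ R, zeroOn (blkW (bM s n N) y) R ∈ W ↔ R ∈ W) :
    randomOracle.real (W ∩ EH s n N c) = bt s n N * randomOracle.real W := by
  have hd : ∀ x ∈ adr n (lo s N c) (hi s N c), ∀ x' ∈ adr n (lo s N c) (hi s N c), x ≠ x' →
      Disjoint (blkW (bM s n N) x) (blkW (bM s n N) x') := fun x hx x' hx' hne =>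
    adr_disj hx hx' hne
  have hc : (adr n (lo s N c) (hi s N c)).card = 2 ^ n * bl s N := by
    rw [card_adr]
    congr 1
    cases c
    · simp [lo, hi]
    · simp only [lo, hi, if_true]
      omega
  cases s
  · have h1 := inv_nz (adr n (lo false N c) (hi false N c)) (blkW (bM false n N)) (bM false n N)
      (fun x _ => card_blkW _ x) hd W hW h
    rw [hc] at h1
    exact h1
  · have h1 := inv_z (adr n (lo true N c) (hi true N c)) (blkW (bM true n N)) (bM true n N)
      (fun x _ => card_blkW _ x) hd W hW h
    rw [hc] at h1
    exact h1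

theorem ind1 (s : Bool) {n L : ℕ} (N : ℕ) (c : Bool) (hL : L ≤ n) {W : Set (List Bool → Bool)}
    (hW : Short L W) : randomOracle.real (W ∩ EH s n N c) = bt s n N * randomOracle.real W := by
  exact ind0 s n N c hW.meas fun y hy R => hW.zero_iff hy hL R

theorem ind2 (s : Bool) {n L : ℕ} (N : ℕ) (hL : L ≤ n) {W : Set (List Bool → Bool)}
    (hW : Short L W) : randomOracle.real (W ∩ E2 s n N) = bt s n N ^ 2 * randomOracle.real W := by
  have h1 : W ∩ E2 s n N = (W ∩ EH s n N false) ∩ EH s n N true := by
    unfold E2
    rw [Set.inter_assoc]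
  have h2 : MeasurableSet (W ∩ EH s n N false) := hW.meas.inter (short_EH s n N false).meas
  rw [h1, ind0 s n N true h2, ind1 s N false hL hW]
  · ring
  · intro y hy R
    have h3 := EH_zero s n N (bM s n N) true hy R
    rw [Set.mem_inter_iff, Set.mem_inter_iff, hW.zero_iff hy hL R]
    exact and_congr Iff.rfl h3

end Pool.Agent.Work.MP_0532f7_lc.PP
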