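import Mathlib
import Pool.Agent.Work.MP_0532f7_lc.PP.Base
import Pool.Agent.Work.MP_0532f7_lc.OMain3
import Pool.Agent.Work.MP_0532f7_lc.SlClo

/-!
Machines and relative polynomial time; there are countably many machines. (S)

mach_rel, exists_mach: by definition (PolyTimeRel, Mach.run, ora; PolyTime.fp, FP.polyTime). run_length: PolyTimeRel.length does not give a
polynomial that is uniform in R, so repeat its proof: PC, PO from FP.length, |run| <= PO (2|v|+1+PC(|v|)) (pr_length, answers_length). countable_mach: countable_polyTime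
(OCnt.lean), polyTime_iff_fp, the set of the triples is countable (Set.Countable.prod) and Mach embeds into the triples. countable_fp: same.
-/

namespace Pool.Agent.Work.MP_0532f7_lc.PP

open MeasureTheory

theorem mach_rel {P : Mach} (hP : P.ok) (A R : List Bool → Bool) :
    PolyTimeRel (ojoin A R) (P.run A R) :=
  ⟨P.Q, P.C, P.O, hP.1.polyTime, hP.2.1.polyTime, hP.2.2.polyTime, fun _ => rfl⟩

theorem exists_mach {A R : List Bool → Bool} {f : List Bool → List Bool}
    (hf : PolyTimeRel (ojoin A R) f) : ∃ P : Mach, P.ok ∧ ∀ v, P.run A R v = f v := by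
  obtain ⟨Q, C, O, hQ, hC, hO, h⟩ := hf
  exact ⟨⟨Q, C, O⟩, ⟨hQ.fp, hC.fp, hO.fp⟩, fun v => (h v).symm⟩

theorem run_length {P : Mach} (hP : P.ok) : ∃ p : Polynomial ℕ, ∀ (A R : List Bool → Bool)
    (v : List Bool), (P.run A R v).length ≤ p.eval v.length := by
  obtain ⟨PC, hPC⟩ := hP.2.1.length
  obtain ⟨PO, hPO⟩ := hP.2.2.length
  refine ⟨PO.comp (2 * Polynomial.X + 1 + PC), fun A R v => ?_⟩
  show (P.O (pr v (answers P.Q (ojoin A R) v (P.C v).length))).length ≤ _
  refine (hPO _).trans ?_
  simp only [Polynomial.eval_add, Polynomial.eval_mul, Polynomial.eval_ofNat, Polynomial.eval_one,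
    Polynomial.eval_X, Polynomial.eval_comp]
  apply pmono
  rw [pr_length, answers_length]
  have := hPC v
  omega

private theorem machc_fp : {k : List Bool → List Bool | FP k}.Countable := by
  have h : {k : List Bool → List Bool | FP k} = {f : List Bool → List Bool | PolyTime f} := by
    ext k
    exact polyTime_iff_fp.symm
  rw [h]
  exact countable_polyTime

theorem countable_mach : Countable {P : Mach // P.ok} := by
  have h1 : Countable {k : List Bool → List Bool // FP k} := machc_fp.to_subtype
  let g : {P : Mach // P.ok} → {k : List Bool → List Bool // FP k} ×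
      {k : List Bool → List Bool // FP k} × {k : List Bool → List Bool // FP k} :=
    fun P => (⟨P.1.Q, P.2.1⟩, ⟨P.1.C, P.2.2.1⟩, ⟨P.1.O, P.2.2.2⟩)
  have hg : Function.Injective g := by
    rintro ⟨⟨Q, C, O⟩, h⟩ ⟨⟨Q', C', O'⟩, h'⟩ he
    simp only [g, Prod.mk.injEq, Subtype.mk.injEq] at he
    obtain ⟨rfl, rfl, rfl⟩ := he
    rfl
  exact hg.countable

theorem countable_fp : {k : List Bool → List Bool | FP k}.Countable := machc_fp

end Pool.Agent.Work.MP_0532f7_lc.PP
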