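import Mathlib
import Pool.Agent.Work.MP_0532f7_lc.PP.Base
import Pool.Agent.Work.MP_0532f7_lc.OSearch

/-!
The exceptional sets of oracles, and the tally sets of the levels (definitions).
-/

namespace Pool.Agent.Work.MP_0532f7_lc.PP

open MeasureTheory

/-- the words `1^(ch i)` with `i1 ≤ i` and `S i` -/
def lev (i1 : ℕ) (S : ℕ → Prop) : Set (List Bool) := {w | ∃ i, i1 ≤ i ∧ w = un (ch i) ∧ S i}

/-- relative to the join of `A` and `R`, the machines define a disjoint NP pair to which all
disjoint NP pairs of tally sets are reducible -/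
def OptN (P : Bool → Mach) (k : List Bool → List Bool) (A : List Bool → Bool) :
    Set (List Bool → Bool) :=
  {R | (∀ v v' : List Bool, fs v = fs v' → (P false).run A R v = [true] →
      (P true).run A R v' = [true] → False) ∧
    ∀ E F : Set (List Bool), Tally (E ∪ F) → NPRel (ojoin A R) E → NPRel (ojoin A R) F →
      Disjoint E F → ∃ h : Mach, h.ok ∧
        (∀ w ∈ E, ∃ v : List Bool, fs v = h.run A R w ∧
          v.length ≤ 2 * (fs v).length + 1 + (k (fs v)).length ∧ (P false).run A R v = [true]) ∧
        ∀ w ∈ F, ∃ v : List Bool, fs v = h.run A R w ∧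
          v.length ≤ 2 * (fs v).length + 1 + (k (fs v)).length ∧ (P true).run A R v = [true]}

/-- relative to the join of `A` and `R`, the machines define (by refutations) a disjoint coNP pair
to which all disjoint coNP pairs of tally sets are reducible -/
def OptC (P : Bool → Mach) (k : List Bool → List Bool) (A : List Bool → Bool) :
    Set (List Bool → Bool) :=
  {R | (∀ z : List Bool, ∃ (c : Bool) (v : List Bool), fs v = z ∧
      v.length ≤ 2 * z.length + 1 + (k z).length ∧ (P c).run A R v = [true]) ∧
    ∀ E F : Set (List Bool), Tally (E ∪ F) → CoNPRel (ojoin A R) E → CoNPRel (ojoin A R) F →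
      Disjoint E F → ∃ h : Mach, h.ok ∧
        (∀ w ∈ E, ∀ v : List Bool, fs v = h.run A R w → (P false).run A R v ≠ [true]) ∧
        ∀ w ∈ F, ∀ v : List Bool, fs v = h.run A R w → (P true).run A R v ≠ [true]}

/-- relative to the join of `A` and `R`, the machine defines a set in UP to which all tally sets in
UP are reducible -/
def OptU (P : Mach) (k : List Bool → List Bool) (A : List Bool → Bool) :
    Set (List Bool → Bool) :=
  {R | (∀ v v' : List Bool, fs v = fs v' → P.run A R v = [true] → P.run A R v' = [true] →
      v = v') ∧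
    ∀ L : Set (List Bool), Tally L → UPRel (ojoin A R) L → ∃ h : Mach, h.ok ∧
        (∀ w ∈ L, ∃ v : List Bool, fs v = h.run A R w ∧
          v.length ≤ 2 * (fs v).length + 1 + (k (fs v)).length ∧ P.run A R v = [true]) ∧
        ∀ w, w ∉ L → ∀ v : List Bool, fs v = h.run A R w → P.run A R v ≠ [true]}

end Pool.Agent.Work.MP_0532f7_lc.PP
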