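import Mathlib
import Pool.Agent.Work.MP_0532f7_lc.PP.Adr

/-!
The test for addresses. (S)

y is in adr n a b iff y.drop n = un r ++ [false] with r = (y.drop (n+1)).length = |y| - (n+1), and a <= r < b. (If y.drop n ends with false it is
not empty, so n < |y| and |y.take n| = n, y = y.take n ++ (un r ++ [false]); conversely for y = x ++ (un r ++ [false]) with |x| = n:
y.drop n = un r ++ [false], (y.drop (n+1)).length = r.) The test: decide (y.drop n = un (y.drop (n+1)).length ++ [false]) && (un a).drop r empty && not (un b).drop r empty.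
FPb.eq, FP.drop, FP.unL, FPb.isNil, FPb.and, FPb.not. The argument is pr (pr (un n) (pr (un a) (un b))) y.
-/

namespace Pool.Agent.Work.MP_0532f7_lc.PP

open MeasureTheory

private theorem adt_lt {f g : List Bool → List Bool} (hf : FP f) (hg : FP g) :
    FPb (fun x => decide ((f x).length < (g x).length)) := by
  refine (FPb.isNil.comp (FP.drop hf hg)).not.congr (fun x => ?_)
  rw [Bool.eq_iff_iff, Bool.not_eq_true', decide_eq_true_eq, ← Bool.not_eq_true,
    List.isEmpty_iff, List.drop_eq_nil_iff, not_le]

private theorem adt_mem (n a b : ℕ) (y : List Bool) : y ∈ adr n a b ↔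
    y.drop n = un (y.drop n).tail.length ++ [false] ∧ a ≤ (y.drop n).tail.length ∧
      (y.drop n).tail.length < b := by
  rw [mem_adr]
  constructor
  · rintro ⟨x, r, hx, h1, h2, rfl⟩
    have h3 : (x ++ (un r ++ [false])).drop n = un r ++ [false] := List.drop_left' hx
    have h4 : (un r ++ [false]).tail.length = r := by
      rw [List.length_tail, List.length_append, un_length]
      rfl
    rw [h3, h4]
    exact ⟨rfl, h1, h2⟩
  · rintro ⟨h1, h2, h3⟩
    have h4 : n ≤ y.length := by
      by_contra h5
      rw [List.drop_eq_nil_of_le (by omega)] at h1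
      simp at h1
    refine ⟨y.take n, (y.drop n).tail.length, ?_, h2, h3, ?_⟩
    · rw [List.length_take]
      omega
    · rw [← h1, List.take_append_drop]

theorem exists_adt : ∃ t : List Bool → Bool, FPb t ∧ ∀ (n a b : ℕ) (y : List Bool),
    t (pr (pr (un n) (pr (un a) (un b))) y) = true ↔ y ∈ adr n a b := by
  have hD : FP (fun z => (sn z).drop (fs (fs z)).length) := FP.drop FP.fsI.fst FP.snI
  have hT : FP (fun z => ((sn z).drop (fs (fs z)).length).tail) := FP.tail.comp hD
  refine ⟨fun z => (decide ((sn z).drop (fs (fs z)).length =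
      un ((sn z).drop (fs (fs z)).length).tail.length ++ [false]) &&
      !decide (((sn z).drop (fs (fs z)).length).tail.length < (fs (sn (fs z))).length)) &&
      decide (((sn z).drop (fs (fs z)).length).tail.length < (sn (sn (fs z))).length),
    ((FPb.eq hD ((FP.unL hT).app (FP.const [false]))).and (adt_lt hT FP.fsI.snd.fst).not).and
      (adt_lt hT FP.fsI.snd.snd), fun n a b y => ?_⟩
  rw [adt_mem]
  simp only [fs_pr, sn_pr, un_length, Bool.and_eq_true, decide_eq_true_eq, Bool.not_eq_true',
    decide_eq_false_iff_not, not_lt, and_assoc]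

end Pool.Agent.Work.MP_0532f7_lc.PP
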