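import Mathlib
import Pool.Agent.Work.MP_0532f7_lc.PP.Base

/-!
The parameters in unary are computable in polynomial time. (S)

FP.halfU: m/2 is the least r <= m with m <= 2r+1: FP.lstI with the test ((fs z).drop (sn z ++ sn z ++ [true]).length).isEmpty on z = pr (un m) (un r)
(FPb.isNil, FP.drop), lst_spec. The others by unfolding (cases on s and c): FP.numI gives num (g x).length, FP.unL its length in
unary, un_append.
-/

namespace Pool.Agent.Work.MP_0532f7_lc.PP

open MeasureTheory

/-- test for `FP.halfU` -/
private def par_t (z : List Bool) : Bool :=
  ((fs z).drop (sn z ++ (sn z ++ [true])).length).isEmpty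

private theorem par_tfp : FPb par_t :=
  FPb.isNil.comp (FP.drop (FP.snI.app (FP.snI.app (FP.const [true]))) FP.fsI)

private theorem par_half (m : ℕ) : lst par_t (un m) m = m / 2 := by
  have hp : ∀ i, par_t (pr (un m) (un i)) = decide (m ≤ 2 * i + 1) := by
    intro i
    unfold par_t
    rw [fs_pr, sn_pr, List.length_append, List.length_append, un_length, List.length_singleton,
      Bool.eq_iff_iff, List.isEmpty_iff, List.drop_eq_nil_iff, un_length, decide_eq_true_iff]
    omega
  obtain ⟨h1, h2, h3⟩ := lst_spec par_t (un m) m
  rcases Nat.lt_trichotomy (lst par_t (un m) m) (m / 2) with h | h | h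
  · exfalso
    have h4 := h3 (by omega)
    rw [hp, decide_eq_true_iff] at h4
    omega
  · exact h
  · exfalso
    have h4 := h2 (m / 2) h
    rw [hp, decide_eq_false_iff_not] at h4
    omega

theorem FP.halfU {f : List Bool → List Bool} (hf : FP f) : FP (fun x => un ((f x).length / 2)) :=
  (FP.lstI par_tfp (FP.unL hf) hf).congr (fun x => by rw [par_half])

theorem FP.bMI (s : Bool) {f g : List Bool → List Bool} (hf : FP f) (hg : FP g) :
    FP (fun x => un (bM s (f x).length (g x).length)) := by
  cases s with
  | false => exact (FP.unL hf).congr (fun x => rfl)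
  | true =>
    refine ((FP.unL hf).app ((FP.unL (FP.numI hg)).app (FP.const [true]))).congr (fun x => ?_)
    show un _ ++ (un _ ++ un 1) = un ((f x).length + (num (g x).length).length + 1)
    rw [un_append, un_append, add_assoc]

theorem FP.blI (s : Bool) {g : List Bool → List Bool} (hg : FP g) :
    FP (fun x => un (bl s (g x).length)) := by
  cases s with
  | false =>
    refine ((FP.halfU (FP.numI hg)).app (FP.const [true])).congr (fun x => ?_)
    show un _ ++ un 1 = un ((num (g x).length).length / 2 + 1)
    rw [un_append]
  | true => exact (FP.const [true]).congr (fun x => rfl)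

theorem FP.loI (s c : Bool) {g : List Bool → List Bool} (hg : FP g) :
    FP (fun x => un (lo s (g x).length c)) := by
  cases c with
  | false => exact (FP.const []).congr (fun x => rfl)
  | true => exact (FP.blI s hg).congr (fun x => rfl)

theorem FP.hiI (s c : Bool) {g : List Bool → List Bool} (hg : FP g) :
    FP (fun x => un (hi s (g x).length c)) := by
  cases c with
  | false => exact (FP.blI s hg).congr (fun x => rfl)
  | true =>
    refine ((FP.blI s hg).app (FP.blI s hg)).congr (fun x => ?_)
    show un _ ++ un _ = un (2 * bl s (g x).length)
    rw [un_append, two_mul]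

end Pool.Agent.Work.MP_0532f7_lc.PP
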