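import Mathlib
import Pool.Agent.Work.MP_0532f7_lc.PP.Base
import Pool.Agent.Work.MP_0532f7_lc.OSearch

/-!
The recursion for the parameters, in polynomial time. (M)

Nrec: at level ch i the test d is applied with the table of A of length EE (ch i) and the budget 1^(EE (ch i)). To compute Nrec d A σ i from the table
tab A (ch i): iterate (FP.iterc) the step, with b = true :: w (w the argument, w = un (ch i)) and TA = the given table, on states z = pr (un m) (un N):
  if min (EE m) b.length = b.length then z (stay, as in chS) else pr (un (EE m)) (un N')   where N' = N if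
  d (pr (pr (pr (TA.take (EE m)) σ) (un (EE m))) (pr (un m) (un N))) and N' = N+1 otherwise, EE m computed as min (EE m) b.length (FP.capEE).
start pr (un 3) [], number of iterations b.length. Invariant, as in chS_iter: for |b| > 3 after k steps the state is
pr (un (ch j)) (un (Nrec d A σ j)) with j <= k, (j < k -> b.length <= ch (j+1)), ch j < b.length. (When the step is made, EE (ch j) < b.length, so
EE (ch j) <= |w| = |TA| and (tab A n).take (EE m) = tab A (EE m), omb_tab_take.) For |w| = ch i this gives j = i as in Gs_ch. Length bound: the first component has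
length <= b.length + 3, the second grows by at most one in a step (polynomial bound in |w|; the step function never makes the state longer than
2 (b.length + 3) + 1 + (number of steps)); the bound must hold for all inputs x and i <= (c x).length. The output is sn of the state.
Nrec_le: by induction. exists_lv: chn (true :: w): w = sn (chn (true :: w)) iff w is un (ch j) for some j (chn_spec, see Gs_cases and Gs_ch
in OSearch.lean; for |w| < 3 chn (true :: w) = pr [] (un 3)), and un (ch i1) not longer than w (ch_strictMono.le_iff_le).
-/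

namespace Pool.Agent.Work.MP_0532f7_lc.PP

open MeasureTheory

/-- the parameters -/
def Nrec (d : List Bool → Bool) (A : List Bool → Bool) (σ : List Bool) : ℕ → ℕ
  | 0 => 0
  | i + 1 =>
    if d (pr (pr (pr (tab A (EE (ch i))) σ) (un (EE (ch i))))
      (pr (un (ch i)) (un (Nrec d A σ i)))) then Nrec d A σ i
    else Nrec d A σ i + 1

theorem Nrec_le (d : List Bool → Bool) (A : List Bool → Bool) (σ : List Bool) (i : ℕ) :
    Nrec d A σ i ≤ i := by
  induction i with
  | zero => exact le_rfl
  | succ i ih =>
    rw [Nrec]
    split_ifs <;> omega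

/-- one step up in the sequence of levels, with the parameter; the first argument is
`pr b TA` -/
private def rS (d : List Bool → Bool) (σ P z : List Bool) : List Bool :=
  if decide (un (min (EE (fs z).length) (fs P).length) = un (fs P).length) then z
  else pr (un (min (EE (fs z).length) (fs P).length))
    (if d (pr (pr (pr ((sn P).take (un (min (EE (fs z).length) (fs P).length)).length) σ)
        (un (min (EE (fs z).length) (fs P).length))) (pr (fs z) (sn z))) then sn z
      else true :: sn z)

private theorem rSI {d : List Bool → Bool} (hd : FPb d) (σ : List Bool) :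
    FP (fun w => rS d σ (fs w) (sn w)) := by
  have hc : FP (fun w : List Bool => un (min (EE (fs (sn w)).length) (fs (fs w)).length)) :=
    FP.capEE FP.fsI.fst FP.snI.fst
  exact FP.ite (FPb.eq hc (FP.unL FP.fsI.fst)) FP.snI
    (FP.pair hc (FP.ite (hd.comp (FP.pair (FP.pair (FP.pair (FP.take hc FP.fsI.snd)
      (FP.const σ)) hc) (FP.pair FP.snI.fst FP.snI.snd))) FP.snI.snd
      ((FP.cons true).comp FP.snI.snd)))

private theorem rS_bound (d : List Bool → Bool) (σ P : List Bool) (k : ℕ) :
    ∃ m N, (rS d σ P)^[k] (pr (un 3) []) = pr (un m) (un N) ∧ m ≤ (fs P).length + 3 ∧ N ≤ k := by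
  induction k with
  | zero => exact ⟨3, 0, rfl, by omega, le_rfl⟩
  | succ k ih =>
    obtain ⟨m, N, h1, h2, h3⟩ := ih
    rw [Function.iterate_succ_apply', h1]
    unfold rS
    split_ifs
    · exact ⟨m, N, rfl, h2, by omega⟩
    · exact ⟨_, N, by rw [sn_pr], (min_le_right _ _).trans (by omega), by omega⟩
    · exact ⟨_, N + 1, by rw [sn_pr, un_succ], (min_le_right _ _).trans (by omega), by omega⟩

private theorem rS_iter (d : List Bool → Bool) (A : List Bool → Bool) (σ b : List Bool) (n : ℕ)
    (hn : b.length = n + 1) (hb : 3 < b.length) (k : ℕ) :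
    ∃ j, j ≤ k ∧ (rS d σ (pr b (tab A n)))^[k] (pr (un 3) []) =
      pr (un (ch j)) (un (Nrec d A σ j)) ∧
      (j < k → b.length ≤ ch (j + 1)) ∧ ch j < b.length := by
  induction k with
  | zero => exact ⟨0, le_rfl, rfl, fun h => by omega, hb⟩
  | succ k ih =>
    obtain ⟨j, h1, h2, h3, h4⟩ := ih
    rw [Function.iterate_succ_apply', h2]
    by_cases h5 : b.length ≤ EE (ch j)
    · refine ⟨j, by omega, ?_, fun _ => h5, h4⟩
      unfold rS
      rw [fs_pr, fs_pr, un_length, min_eq_right h5, if_pos (by simp)]
    · rcases Nat.lt_or_ge j k with h6 | h6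
      · exact absurd (h3 h6) h5
      · have h7 : j = k := by omega
        subst h7
        refine ⟨j + 1, le_rfl, ?_, fun h => by omega, by show EE (ch j) < _; omega⟩
        unfold rS
        rw [fs_pr, fs_pr, sn_pr, sn_pr, un_length, min_eq_left (by omega), if_neg (by
          rw [decide_eq_true_eq]
          intro h6
          have := un_inj h6
          omega), un_length, omb_tab_take A (by omega)]
        have e : ch (j + 1) = EE (ch j) := rfl
        rw [e, Nrec]
        split_ifs
        · rfl
        · rw [un_succ]

theorem exists_rec {d : List Bool → Bool} (hd : FPb d) (σ : List Bool) :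
    ∃ g : List Bool → List Bool, FP g ∧ ∀ (A : List Bool → Bool) (i : ℕ),
      g (pr (un (ch i)) (tab A (ch i))) = un (Nrec d A σ i) := by
  have hp : FP (fun x : List Bool => true :: fs x) := (FP.cons true).comp FP.fsI
  obtain ⟨Q, hQ⟩ := hp.length
  have h1 := FP.iterc (step := rS d σ) (p := fun x => pr (true :: fs x) (sn x))
    (c := fun x => true :: fs x) (g := fun _ => pr (un 3) []) (rSI hd σ)
    (FP.pair hp FP.snI) hp (FP.const _) (2 * (Q + 3) + 1 + Q) (fun x i hi => by
      obtain ⟨m, N, h1, h2, h3⟩ := rS_bound d σ (pr (true :: fs x) (sn x)) i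
      rw [h1, pr_length, un_length, un_length]
      rw [fs_pr] at h2
      have := hQ x
      simp only [Polynomial.eval_add, Polynomial.eval_mul, Polynomial.eval_one,
        Polynomial.eval_ofNat]
      omega)
  refine ⟨_, FP.snI.comp h1, fun A i => ?_⟩
  have h2 := ch_ge i
  obtain ⟨j, _, h3, h4, h5⟩ := rS_iter d A σ (true :: un (ch i)) (ch i)
    (by rw [List.length_cons, un_length]) (by rw [List.length_cons, un_length]; omega)
    (true :: un (ch i)).length
  simp only [fs_pr, sn_pr]
  rw [h3, sn_pr]
  rw [List.length_cons, un_length] at h4 h5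
  have h6 := ch_ge j
  have h7 := h4 (by omega)
  have hj : j = i := by
    have h8 : j ≤ i := ch_strictMono.le_iff_le.mp (by omega)
    have h9 : i < j + 1 := ch_strictMono.lt_iff_lt.mp (by omega)
    omega
  rw [hj]

theorem exists_lv (i1 : ℕ) : ∃ l : List Bool → Bool, FPb l ∧
    ∀ w : List Bool, l w = true ↔ ∃ i, i1 ≤ i ∧ w = un (ch i) := by
  refine ⟨fun w => decide (sn (chn (true :: w)) = w) && ((un (ch i1)).drop w.length).isEmpty,
    (FPb.eq (FP.chnI (FP.cons true)).snd FP.id).and (FPb.isNil.comp (FP.drop FP.id (FP.const _))),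
    fun w => ?_⟩
  rw [Bool.and_eq_true, decide_eq_true_eq, List.isEmpty_iff, List.drop_eq_nil_iff, un_length]
  constructor
  · rintro ⟨h1, h2⟩
    have h3 := ch_ge i1
    obtain ⟨j, h5, h6, h7⟩ := chn_spec (true :: w) (by rw [List.length_cons]; omega)
    rw [h5, sn_pr] at h1
    refine ⟨j, ?_, h1.symm⟩
    rw [← h1, un_length] at h2
    exact ch_strictMono.le_iff_le.mp h2
  · rintro ⟨i, h1, rfl⟩
    have h3 := ch_ge i
    obtain ⟨j, h5, h6, h7⟩ := chn_spec (true :: un (ch i))
      (by rw [List.length_cons, un_length]; omega)
    rw [List.length_cons, un_length] at h6 h7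
    have hj : j = i := by
      have h8 : j ≤ i := ch_strictMono.le_iff_le.mp (by omega)
      have h9 : i < j + 1 := ch_strictMono.lt_iff_lt.mp (by omega)
      omega
    subst hj
    rw [h5, sn_pr, un_length]
    exact ⟨rfl, ch_strictMono.monotone h1⟩

end Pool.Agent.Work.MP_0532f7_lc.PP
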