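import Mathlib
import Pool.Agent.Work.MP_0532f7_lc.PP.Par
import Pool.Agent.Work.MP_0532f7_lc.PP.AdrT
import Pool.Agent.Work.MP_0532f7_lc.PP.Rec
import Pool.Agent.Work.MP_0532f7_lc.SlClo

/-!
The polynomial-time relation: y is the address of a zero block of level w. (M)

V is post (PolyTimeRel.post) of a pair (PolyTimeRel.pair) of the input z = pr w y (PolyTimeRel.of_fp FP.id) with two tables (PolyTimeRel.table): the table of A
of length |w|: queries false :: num j, j < |fs z| (q (pr z (un j)) = false :: num j; the list is tab A |w| by definition of tab and ojoin); and the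
answers for the words y ++ un j, j < L, L = 3 |w| |w| + 3 (queries true :: (sn z ++ un j); L in unary by FP.mulU, FP.app or FP.clock). The final FP function: with l from
exists_lv i1: l w, and t from exists_adt: t (pr (pr (un (|w||w|)) (pr (un (a N)) (un (b N)))) y) where N = (g (pr w TA)).length, and the first
M = bM s (|w||w|) N answers are false: decide (ans.take M = zer (un M)) (FP.take, FP.zerI of SpMain.lean, FP.bMI); output [true] if all hold, [] otherwise.
Correctness: if l w then w = un (ch i) with i1 <= i (unique i by injectivity of ch), TA = tab A (ch i), g (..) = un (N i), N = N i, and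
M <= m*m + m + 1 <= L (m = ch i, num_length, N i <= i <= ch i), so the first M answers are R (y ++ un j), j < M, i.e. the values on blkW M y (mem_blkW). FP of
un (a (..).length) from ha.comp.
-/

namespace Pool.Agent.Work.MP_0532f7_lc.PP

open MeasureTheory

private theorem take_iff (R : List Bool → Bool) (y : List Bool) {M L : ℕ} (h : M ≤ L) :
    ((List.range L).map (fun j => R (y ++ un j))).take M = zer (un M) ↔
      ∀ u ∈ blkW M y, R u = false := by
  have h1 : ((List.range L).map (fun j => R (y ++ un j))).take M =
      (List.range M).map (fun j => R (y ++ un j)) := by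
    rw [← List.map_take, List.take_range, min_eq_left h]
  rw [h1]
  unfold zer
  rw [un_length, List.eq_replicate_iff]
  constructor
  · rintro ⟨-, h2⟩ u hu
    obtain ⟨j, hj, rfl⟩ := mem_blkW.mp hu
    exact h2 _ (List.mem_map.mpr ⟨j, List.mem_range.mpr hj, rfl⟩)
  · intro h2
    refine ⟨by simp, fun b hb => ?_⟩
    obtain ⟨j, hj, rfl⟩ := List.mem_map.mp hb
    exact h2 _ (mem_blkW.mpr ⟨j, List.mem_range.mp hj, rfl⟩)

private theorem bM_le (s : Bool) {m N : ℕ} (h : N ≤ m) : bM s (m * m) N ≤ 3 * (m * m) + 3 := by
  have h1 := num_length N
  have h2 : m ≤ m * m := Nat.le_mul_self m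
  unfold bM
  split_ifs <;> omega

theorem exists_wit (s : Bool) {g : List Bool → List Bool} (hg : FP g) {a b : ℕ → ℕ}
    (ha : FP (fun x => un (a x.length))) (hb : FP (fun x => un (b x.length)))
    (A R : List Bool → Bool) (N : ℕ → ℕ) (hN : ∀ i, N i ≤ i)
    (hgN : ∀ i, g (pr (un (ch i)) (tab A (ch i))) = un (N i)) (i1 : ℕ) :
    ∃ V : List Bool → List Bool, PolyTimeRel (ojoin A R) V ∧ ∀ w y : List Bool,
      V (pr w y) = [true] ↔ ∃ i, i1 ≤ i ∧ w = un (ch i) ∧
        y ∈ adr (ch i * ch i) (a (N i)) (b (N i)) ∧
        ∀ u ∈ blkW (bM s (ch i * ch i) (N i)) y, R u = false := by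
  obtain ⟨l, hl, hl'⟩ := exists_lv i1
  obtain ⟨t, ht, ht'⟩ := exists_adt
  set X := ojoin A R with hX
  -- the tables
  have h1 : PolyTimeRel X (fun z => tab A (fs z).length) := by
    have h := PolyTimeRel.table X (q := fun x => false :: num (sn x).length) (c := fs)
      ((FP.cons false).comp (FP.numI FP.snI)) FP.fsI
    have e : (fun z => (List.range (fs z).length).map
        (fun j => X ((fun x => false :: num (sn x).length) (pr z (un j))))) =
        fun z => tab A (fs z).length := by
      funext z
      unfold tab
      refine List.map_congr_left fun j _ => ?_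
      show X (false :: num (sn (pr z (un j))).length) = A (num j)
      rw [sn_pr, un_length, hX]
      rfl
    rwa [e] at h
  have hc2 : FP (fun z : List Bool => un ((fs z).length * (fs z).length) ++
      (un ((fs z).length * (fs z).length) ++ (un ((fs z).length * (fs z).length) ++
      [true, true, true]))) := by
    have h0 : FP (fun z : List Bool => un ((fs z).length * (fs z).length)) := FP.mulU FP.fsI FP.fsI
    exact FP.app h0 (FP.app h0 (FP.app h0 (FP.const _)))
  have h2 : PolyTimeRel X (fun z => (List.range (3 * ((fs z).length * (fs z).length) + 3)).map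
      (fun j => R (sn z ++ un j))) := by
    have h := PolyTimeRel.table X (q := fun x => true :: (sn (fs x) ++ sn x))
      ((FP.cons true).comp (FP.app (FP.snd FP.fsI) FP.snI)) hc2
    have e : (fun z => (List.range (un ((fs z).length * (fs z).length) ++
      (un ((fs z).length * (fs z).length) ++ (un ((fs z).length * (fs z).length) ++
      [true, true, true]))).length).map
        (fun j => X ((fun x => true :: (sn (fs x) ++ sn x)) (pr z (un j))))) =
        fun z => (List.range (3 * ((fs z).length * (fs z).length) + 3)).map
          (fun j => R (sn z ++ un j)) := by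
      funext z
      have hl : (un ((fs z).length * (fs z).length) ++
        (un ((fs z).length * (fs z).length) ++ (un ((fs z).length * (fs z).length) ++
        [true, true, true]))).length = 3 * ((fs z).length * (fs z).length) + 3 := by
        simp only [List.length_append, un_length, List.length_cons, List.length_nil]
        omega
      rw [hl]
      refine List.map_congr_left fun j _ => ?_
      show X (true :: (sn (fs (pr z (un j))) ++ sn (pr z (un j)))) = _
      rw [sn_pr, fs_pr, hX]
      rfl
    rwa [e] at h
  -- the test
  set W : List Bool → List Bool := fun u => fs (fs (fs u)) with hW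
  set Nf : List Bool → List Bool := fun u => g (pr (W u) (sn (fs u))) with hNf
  have fW : FP W := FP.fst (FP.fst FP.fsI)
  have fN : FP Nf := hg.comp (fW.pair (FP.snd FP.fsI))
  have fn : FP (fun u => un ((W u).length * (W u).length)) := FP.mulU fW fW
  have fM : FP (fun u => un (bM s (un ((W u).length * (W u).length)).length (Nf u).length)) :=
    FP.bMI s fn fN
  have fa : FP (fun u => un (a (Nf u).length)) := ha.comp fN
  have fb : FP (fun u => un (b (Nf u).length)) := hb.comp fN
  set test : List Bool → Bool := fun u => (l (W u) &&
    t (pr (pr (un ((W u).length * (W u).length)) (pr (un (a (Nf u).length)) (un (b (Nf u).length))))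
      (sn (fs (fs u))))) &&
    decide ((sn u).take (un (bM s (un ((W u).length * (W u).length)).length
      (Nf u).length)).length =
      zer (un (bM s (un ((W u).length * (W u).length)).length (Nf u).length))) with htest
  have ftest : FPb test := FPb.and (FPb.and (hl.comp fW)
    (ht.comp ((fn.pair (fa.pair fb)).pair (FP.snd (FP.fst FP.fsI)))))
    (FPb.eq (FP.take fM FP.snI) (FP.zerI fM))
  have fk : FP (fun u => if test u then [true] else []) :=
    FP.ite ftest (FP.const [true]) FP.nil
  refine ⟨_, PolyTimeRel.post (PolyTimeRel.pair (PolyTimeRel.pair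
    (PolyTimeRel.of_fp FP.id X) h1) h2) fk, fun w y => ?_⟩
  have hsplit : ∀ c : Bool, ((if c = true then [true] else ([] : List Bool)) = [true]) ↔ c = true := by
    intro c
    cases c <;> simp
  rw [hsplit]
  simp only [htest, hNf, hW, fs_pr, sn_pr, un_length, Bool.and_eq_true, decide_eq_true_eq, hl', ht']
  constructor
  · rintro ⟨⟨⟨i, hi, rfl⟩, h3⟩, h4⟩
    refine ⟨i, hi, rfl, ?_⟩
    simp only [un_length] at h3 h4
    rw [hgN, un_length] at h3 h4
    refine ⟨h3, (take_iff R y (bM_le s ?_)).mp h4⟩
    have h5 := ch_ge i
    have h6 := hN i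
    omega
  · rintro ⟨i, hi, rfl, h3, h4⟩
    simp only [un_length]
    rw [hgN, un_length]
    refine ⟨⟨⟨i, hi, rfl⟩, h3⟩, (take_iff R y (bM_le s ?_)).mpr h4⟩
    have h5 := ch_ge i
    have h6 := hN i
    omega

end Pool.Agent.Work.MP_0532f7_lc.PP
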