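import Mathlib
import Pool.Agent.Work.MP_0532f7_lc.PP.Ver
import Pool.Agent.Work.MP_0532f7_lc.PP.Opt
import Pool.Agent.Work.MP_0532f7_lc.PP.Adr

/-!
The tally sets of the levels are in NP, coNP, UP. (M)

V from exists_wit with a N = lo s N c, b N = hi s N c (FP.loI, FP.hiI with the identity) for np_lev, co_lev, and with a = 0, b = 2 (constants) for up_lev. Polynomial
p = X*X + 2*X + 4: an address y of level i has |y| <= (ch i)^2 + hi (adr_len), hi s N c <= |num N| + 2 <= i + 2 <= |w| + 2 (num_length).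
np_lev: s = true: EH = Zs. co_lev: s = false: EH = complement of Zs: the relation V' (pr w y) = [true] iff l w (exists_lv i1) and not V (pr w y) = [true]:
PolyTimeRel.ite with V, and the test l (PolyTimeRel.of_fp). For w not of the form un (ch i), i1 <= i, V' (pr w []) /= [true] (some y of length <= p exists: []).
up_lev: EH true n N false = Zs n M 0 1, EH true n N true = Zs n M 1 2, union = Zs n M 0 2; uniqueness of the witness: hypothesis hu (injectivity of ch for the i).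
tally_lev: un is List.replicate _ true. lev_disj: ch is injective (ch_strictMono).
-/

namespace Pool.Agent.Work.MP_0532f7_lc.PP

open MeasureTheory

private theorem ch_inj {i j : ℕ} (h : un (ch i) = un (ch j)) : i = j :=
  ch_strictMono.injective (un_inj h)

private theorem hi_le (s : Bool) {N i : ℕ} (hN : N ≤ i) (c : Bool) : hi s N c ≤ ch i + 2 := by
  have h1 := num_length N
  have h2 := ch_ge i
  cases s <;> cases c <;> simp only [hi, bl, if_true, if_false, Bool.false_eq_true] <;> omega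

private theorem len_le {i a b : ℕ} (hb : b ≤ ch i + 2)
    {y : List Bool} (hy : y ∈ adr (ch i * ch i) a b) :
    y.length ≤ (Polynomial.X * Polynomial.X + 2 * Polynomial.X + 4 : Polynomial ℕ).eval
      (un (ch i)).length := by
  have h1 := (adr_len hy).2
  rw [un_length]
  simp only [Polynomial.eval_add, Polynomial.eval_mul, Polynomial.eval_X, Polynomial.eval_ofNat]
  omega

theorem np_lev {g : List Bool → List Bool} (hg : FP g) (A R : List Bool → Bool) (N : ℕ → ℕ)
    (hN : ∀ i, N i ≤ i) (hgN : ∀ i, g (pr (un (ch i)) (tab A (ch i))) = un (N i))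
    (i1 : ℕ) (c : Bool) :
    NPRel (ojoin A R) (lev i1 (fun i => R ∈ EH true (ch i * ch i) (N i) c)) := by
  obtain ⟨V, hV, hV2⟩ := exists_wit true hg (a := fun N => lo true N c) (b := fun N => hi true N c)
    (FP.loI true c FP.id) (FP.hiI true c FP.id) A R N hN hgN i1
  refine ⟨V, hV, Polynomial.X * Polynomial.X + 2 * Polynomial.X + 4, fun z => ?_⟩
  constructor
  · rintro ⟨i, h1, rfl, h2⟩
    obtain ⟨y, hy, h3⟩ := h2
    exact ⟨y, len_le (hi_le true (hN i) c) hy, (hV2 _ _).mpr ⟨i, h1, rfl, hy, h3⟩⟩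
  · rintro ⟨y, -, h1⟩
    obtain ⟨i, h2, h3, h4, h5⟩ := (hV2 _ _).mp h1
    exact ⟨i, h2, h3, y, h4, h5⟩


theorem co_lev {g : List Bool → List Bool} (hg : FP g) (A R : List Bool → Bool) (N : ℕ → ℕ)
    (hN : ∀ i, N i ≤ i) (hgN : ∀ i, g (pr (un (ch i)) (tab A (ch i))) = un (N i))
    (i1 : ℕ) (c : Bool) :
    CoNPRel (ojoin A R) (lev i1 (fun i => R ∈ EH false (ch i * ch i) (N i) c)) := by
  obtain ⟨V, hV, hV2⟩ := exists_wit false hg (a := fun N => lo false N c)
    (b := fun N => hi false N c)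
    (FP.loI false c FP.id) (FP.hiI false c FP.id) A R N hN hgN i1
  obtain ⟨l, hl, hl2⟩ := exists_lv i1
  have hl3 : FP (fun z => [l (fs z)]) := FPb.comp hl FP.fsI
  refine ⟨_, PolyTimeRel.ite (PolyTimeRel.of_fp hl3 (ojoin A R))
    (PolyTimeRel.ite hV (PolyTimeRel.of_fp (FP.const []) _)
      (PolyTimeRel.of_fp (FP.const [true]) _)) (PolyTimeRel.of_fp (FP.const []) _),
    Polynomial.X * Polynomial.X + 2 * Polynomial.X + 4, fun z => ?_⟩
  constructor
  · rintro ⟨i, h1, rfl, h2⟩ y hy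
    have h3 : l (un (ch i)) = true := (hl2 _).mpr ⟨i, h1, rfl⟩
    have h4 : V (pr (un (ch i)) y) ≠ [true] := by
      intro h5
      obtain ⟨j, h6, h7, h8, h9⟩ := (hV2 _ _).mp h5
      have h10 := ch_inj h7
      subst h10
      exact h2 ⟨y, h8, h9⟩
    rw [fs_pr, h3, if_pos rfl, if_neg h4]
  · intro h
    have h1 : l z = true := by
      have h2 := h [] (by simp)
      rw [fs_pr] at h2
      by_contra h3
      rw [Bool.not_eq_true] at h3
      rw [h3, if_neg (by simp)] at h2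
      exact absurd h2 (by simp)
    obtain ⟨i, h2, rfl⟩ := (hl2 _).mp h1
    refine ⟨i, h2, rfl, ?_⟩
    rintro ⟨y, hy, h3⟩
    have h4 := h y (len_le (hi_le false (hN i) c) hy)
    rw [fs_pr, h1, if_pos rfl, if_pos ((hV2 _ _).mpr ⟨i, h2, rfl, hy, h3⟩)] at h4
    exact absurd h4 (by simp)


theorem up_lev {g : List Bool → List Bool} (hg : FP g) (A R : List Bool → Bool) (N : ℕ → ℕ)
    (hN : ∀ i, N i ≤ i) (hgN : ∀ i, g (pr (un (ch i)) (tab A (ch i))) = un (N i))
    (i1 : ℕ)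
    (hu : ∀ i, i1 ≤ i → ∀ y ∈ adr (ch i * ch i) 0 2, ∀ y' ∈ adr (ch i * ch i) 0 2,
      (∀ w ∈ blkW (bM true (ch i * ch i) (N i)) y, R w = false) →
      (∀ w ∈ blkW (bM true (ch i * ch i) (N i)) y', R w = false) → y = y') :
    UPRel (ojoin A R) (lev i1 (fun i => ∃ c, R ∈ EH true (ch i * ch i) (N i) c)) := by
  obtain ⟨V, hV, hV2⟩ := exists_wit true hg (a := fun _ => 0) (b := fun _ => 2)
    (FP.const (un 0)) (FP.const (un 2)) A R N hN hgN i1
  refine ⟨V, hV, Polynomial.X * Polynomial.X + 2 * Polynomial.X + 4, ?_, fun z => ?_⟩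
  · intro z y y' _ _ h1 h2
    obtain ⟨i, h3, h4, h5, h6⟩ := (hV2 _ _).mp h1
    obtain ⟨j, h7, h8, h9, h10⟩ := (hV2 _ _).mp h2
    have h11 := ch_inj (h4.symm.trans h8)
    subst h11
    exact hu i h3 y h5 y' h9 h6 h10
  · constructor
    · rintro ⟨i, h1, rfl, c, y, hy, h3⟩
      have hy2 : y ∈ adr (ch i * ch i) 0 2 := by
        obtain ⟨x, r, hx, h4, h5, h6⟩ := mem_adr.mp hy
        refine mem_adr.mpr ⟨x, r, hx, by omega, ?_, h6⟩
        cases c <;> simp only [hi, bl, if_true, if_false, Bool.false_eq_true] at h5 <;> omega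
      exact ⟨y, len_le (by omega) hy2, (hV2 _ _).mpr ⟨i, h1, rfl, hy2, h3⟩⟩
    · rintro ⟨y, -, h1⟩
      obtain ⟨i, h2, h3, h4, h5⟩ := (hV2 _ _).mp h1
      obtain ⟨x, r, hx, h6, h7, h8⟩ := mem_adr.mp h4
      refine ⟨i, h2, h3, decide (r = 1), y, mem_adr.mpr ⟨x, r, hx, ?_, ?_, h8⟩, h5⟩
      · by_cases hr : r = 1
        · simp [lo, bl, hr]
        · simp [lo, hr]
      · by_cases hr : r = 1
        · simp [hi, bl, hr]
        · have h9 : r = 0 := by omega
          simp [hi, bl, h9]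


theorem tally_lev (i1 : ℕ) (S : ℕ → Prop) : Tally (lev i1 S) := by
  rintro w ⟨i, -, rfl, -⟩
  exact ⟨ch i, rfl⟩


theorem mem_lev {i1 : ℕ} {S : ℕ → Prop} {i : ℕ} : un (ch i) ∈ lev i1 S ↔ i1 ≤ i ∧ S i := by
  constructor
  · rintro ⟨j, h1, h2, h3⟩
    have h4 := ch_inj h2
    subst h4
    exact ⟨h1, h3⟩
  · rintro ⟨h1, h2⟩
    exact ⟨i, h1, rfl, h2⟩


end Pool.Agent.Work.MP_0532f7_lc.PP
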