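import Mathlib
import Pool.Agent.Work.MP_0532f7_lc.PP.Sets
import Pool.Agent.Work.MP_0532f7_lc.PP.Ind
import Pool.Agent.Work.MP_0532f7_lc.PP.MachC

/-!
Completeness gives a reduction that works at almost all levels, coNP pairs. (S-M)

As CmpN with s = false: P(E2 false ..) = bt^2 summable, so a.e. R has an i1 with R notin E2 false at all levels i >= i1 (ae_eventually_notMem as in bc of OMain2.lean). For R in OptC:
E = lev i1 (EH false .. false), F = lev i1 (EH false .. true) are in coNP (co_lev), tally, disjoint. Get h. For i >= i1 with R in EH false .. c: un (ch i) in E or F, so no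
v with fs v = h.run A R (un (ch i)) is accepted by P c: R notin Uac h (P c) A (ch i). So R notin FailC.
-/

namespace Pool.Agent.Work.MP_0532f7_lc.PP

open MeasureTheory

theorem cmp_C {P : Bool → Mach} {k : List Bool → List Bool} (A : List Bool → Bool)
    {g : List Bool → List Bool} (hg : FP g) (N : ℕ → ℕ) (hN : ∀ i, N i ≤ i)
    (hgN : ∀ i, g (pr (un (ch i)) (tab A (ch i))) = un (N i))
    (hs : Summable (fun i => bt false (ch i * ch i) (N i) ^ 2)) :
    ∀ᵐ R ∂randomOracle, R ∈ OptC P k A → ∃ (h : {h : Mach // h.ok}) (i1 : ℕ), ∀ i, i1 ≤ i →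
      R ∉ FailC h.1 P A (ch i) (N i) := by
  have hae : ∀ᵐ R ∂randomOracle, ∀ᶠ i in Filter.atTop, R ∉ E2 false (ch i * ch i) (N i) := by
    apply ae_eventually_notMem
    have h1 : ∀ i, randomOracle (E2 false (ch i * ch i) (N i)) ≤
        ENNReal.ofReal (bt false (ch i * ch i) (N i) ^ 2) := by
      intro i
      rw [← ofReal_measureReal]
      apply ENNReal.ofReal_le_ofReal
      have h2 := ind2 false (N i) (Nat.zero_le (ch i * ch i)) (short_univ 0)
      rw [Set.univ_inter, probReal_univ, mul_one] at h2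
      exact h2.le
    refine ne_top_of_le_ne_top ?_ (ENNReal.tsum_le_tsum h1)
    exact hs.tsum_ofReal_ne_top
  filter_upwards [hae] with R hR hO
  obtain ⟨i1, hi1⟩ := Filter.eventually_atTop.1 hR
  obtain ⟨-, hO2⟩ := hO
  have ht : Tally (lev i1 (fun i => R ∈ EH false (ch i * ch i) (N i) false) ∪
      lev i1 (fun i => R ∈ EH false (ch i * ch i) (N i) true)) := by
    rintro w (hw | hw)
    · exact tally_lev _ _ w hw
    · exact tally_lev _ _ w hw
  have hd : Disjoint (lev i1 (fun i => R ∈ EH false (ch i * ch i) (N i) false))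
      (lev i1 (fun i => R ∈ EH false (ch i * ch i) (N i) true)) := by
    rw [Set.disjoint_left]
    rintro w ⟨i, hi, hw, h1⟩ ⟨j, hj, hw', h2⟩
    have h3 : ch i = ch j := by
      have h4 := congrArg List.length (hw.symm.trans hw')
      simpa [un] using h4
    have h5 : i = j := ch_strictMono.injective h3
    subst h5
    exact hi1 i hi ⟨h1, h2⟩
  obtain ⟨h, hok, hE, hF⟩ := hO2 _ _ ht (co_lev hg A R N hN hgN i1 false)
    (co_lev hg A R N hN hgN i1 true) hd
  refine ⟨⟨h, hok⟩, i1, fun i hi hFail => ?_⟩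
  obtain ⟨c, h1, v, hv, hfs, hr⟩ := hFail
  cases c
  · exact hE _ (mem_lev.2 ⟨hi, h1⟩) v hfs hr
  · exact hF _ (mem_lev.2 ⟨hi, h1⟩) v hfs hr

end Pool.Agent.Work.MP_0532f7_lc.PP
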