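import Mathlib
import Pool.Agent.Work.MP_0532f7_lc.PP.Base

/-!
Computations depend only on the queried words. (S-M)

run_congr: answers_congr (OSim.lean): by hypothesis the answers to the queries P.Q (pr v (answers ..)) k < |C v| agree: the query is [], false :: x
or true :: x (ojoin), and in the last case x = tail of the query is in qs (as in acc_local and plant_count of OMain.lean). So answers .. k are equal for all
k <= |C v| (answers_congr for every such k), hence the value and qs are the same. card_qs: Finset.card_image_le. qs_length: for k < |C v| the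
answers have length k (answers_length), Good2. good2_good: 4^m >= 8 for m >= 2: Good (Good is used in OMain.lean). exists_good2: as exists_good of OMain.lean,
with poly_pow_le replaced by: for a polynomial p, 4^m * p.eval (2^m) <= 2^(m*m) for large m (poly_le; j*(2^m+1)^j * 4^m <= 2^(j+(m+1)j+2m) <=
2^(m*m)).
-/

namespace Pool.Agent.Work.MP_0532f7_lc.PP

open MeasureTheory

private theorem ans_eq (P : Mach) (A R R' : List Bool → Bool) (v : List Bool)
    (h : ∀ w ∈ P.qs A R v, R w = R' w) (n : ℕ) (hn : n ≤ (P.C v).length) :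
    answers P.Q (ojoin A R') v n = answers P.Q (ojoin A R) v n := by
  refine answers_congr _ _ _ _ _ (fun k hk => ?_)
  have hmem : (P.Q (pr v (answers P.Q (ojoin A R) v k))).tail ∈ P.qs A R v :=
    Finset.mem_image.mpr ⟨k, Finset.mem_range.mpr (by omega), rfl⟩
  have h3 := h _ hmem
  generalize P.Q (pr v (answers P.Q (ojoin A R) v k)) = y at h3
  match y, h3 with
  | [], _ => rfl
  | false :: x, _ => rfl
  | true :: x, h3 => exact h3

private theorem poly_pow_le2 (p : Polynomial ℕ) :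
    ∃ m0, ∀ m, m0 ≤ m → 4 ^ m * p.eval (2 ^ m) ≤ 2 ^ (m * m) := by
  obtain ⟨j, hj⟩ := poly_le p
  refine ⟨2 * j + 4, fun m hm => ?_⟩
  have h1 := hj (2 ^ m)
  have h2 : j ≤ 2 ^ j := Nat.lt_two_pow_self.le
  have h3 : 2 ^ m + 1 ≤ 2 ^ (m + 1) := by
    have := Nat.one_le_two_pow (n := m)
    rw [pow_succ]; omega
  have h4 : j * (2 ^ m + 1) ^ j ≤ 2 ^ j * (2 ^ (m + 1)) ^ j := by gcongr
  have h5 : (2 : ℕ) ^ j * (2 ^ (m + 1)) ^ j = 2 ^ (j + (m + 1) * j) := by
    rw [← pow_mul, ← pow_add]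
  have h6 : 4 ^ m * 2 ^ (j + (m + 1) * j) = 2 ^ (2 * m + (j + (m + 1) * j)) := by
    rw [pow_add 2 (2 * m), pow_mul]; norm_num
  calc 4 ^ m * p.eval (2 ^ m) ≤ 4 ^ m * (j * (2 ^ m + 1) ^ j) := Nat.mul_le_mul_left _ h1
    _ ≤ 4 ^ m * (2 ^ (j + (m + 1) * j)) := by rw [← h5]; exact Nat.mul_le_mul_left _ h4
    _ = 2 ^ (2 * m + (j + (m + 1) * j)) := h6
    _ ≤ 2 ^ (m * m) := by
      apply Nat.pow_le_pow_right (by omega)
      nlinarith

theorem run_congr (P : Mach) (A R R' : List Bool → Bool) (v : List Bool)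
    (h : ∀ w ∈ P.qs A R v, R w = R' w) :
    P.run A R' v = P.run A R v ∧ P.qs A R' v = P.qs A R v := by
  refine ⟨?_, ?_⟩
  · unfold Mach.run ora
    rw [ans_eq P A R R' v h _ le_rfl]
  · unfold Mach.qs
    refine Finset.image_congr (fun k hk => ?_)
    have hk' : k < (P.C v).length := Finset.mem_range.mp hk
    show (P.Q (pr v (answers P.Q (ojoin A R') v k))).tail = _
    rw [ans_eq P A R R' v h k hk'.le]

theorem card_qs (P : Mach) (A R : List Bool → Bool) (v : List Bool) :
    (P.qs A R v).card ≤ (P.C v).length := by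
  unfold Mach.qs
  exact Finset.card_image_le.trans (by rw [Finset.card_range])

theorem qs_length {P : Mach} {m : ℕ} (hG : Good2 P m) (A R : List Bool → Bool) {v : List Bool}
    (hv : v.length ≤ 2 ^ m) : ∀ w ∈ P.qs A R v, w.length ≤ 2 ^ (m * m) := by
  intro w hw
  obtain ⟨k, hk, rfl⟩ := Finset.mem_image.mp hw
  have h1 := (hG v hv).2 (answers P.Q (ojoin A R) v k)
    (by rw [answers_length]; exact (Finset.mem_range.mp hk).le)
  rw [List.length_tail]
  omega

theorem good2_good {P : Mach} {m : ℕ} (hm : 2 ≤ m) (hG : Good2 P m) : Good P.Q P.C m := by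
  intro v hv
  refine ⟨?_, (hG v hv).2⟩
  have h1 := (hG v hv).1
  have h2 : 4 ^ 2 ≤ 4 ^ m := Nat.pow_le_pow_right (by norm_num) hm
  calc 8 * (P.C v).length ≤ 4 ^ m * (P.C v).length := Nat.mul_le_mul_right _ (by omega)
    _ ≤ 2 ^ (m * m) := h1

theorem exists_good2 {P : Mach} (hP : P.ok) : ∃ m0, ∀ m, m0 ≤ m → Good2 P m := by
  obtain ⟨hQ, hC, _⟩ := hP
  obtain ⟨PQ, hPQ⟩ := hQ.length
  obtain ⟨PC, hPC⟩ := hC.length
  obtain ⟨m0, hm0⟩ := poly_pow_le2 (PC + PQ.comp (2 * Polynomial.X + 1 + PC))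
  refine ⟨m0, fun m hm v hv => ?_⟩
  have h1 := hm0 m hm
  have h2 := (hPC v).trans (pmono PC hv)
  simp only [Polynomial.eval_add, Polynomial.eval_comp, Polynomial.eval_mul,
    Polynomial.eval_ofNat, Polynomial.eval_X, Polynomial.eval_one] at h1
  have h4 : 1 ≤ 4 ^ m := Nat.one_le_pow _ _ (by norm_num)
  refine ⟨?_, fun a ha => ?_⟩
  · refine le_trans (Nat.mul_le_mul_left _ ?_) h1
    omega
  · have h3 := (hPQ (pr v a)).trans (pmono PQ (b := 2 * 2 ^ m + 1 + PC.eval (2 ^ m))
      (by rw [pr_length]; omega))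
    refine (h3.trans ?_).trans h1
    refine le_trans ?_ (Nat.le_mul_of_pos_left _ h4)
    omega

end Pool.Agent.Work.MP_0532f7_lc.PP
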