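import Mathlib
import Pool.Agent.Work.MP_0532f7_lc.PP.Ora
import Pool.Agent.Work.MP_0532f7_lc.OSearch

/-!
Machines on tables. (S)

orun (OSim.lean) with the tables tab A n' and T is the run relative to A and look T, if all asked words are short: as orun_tab and lookJ_tab of OMain.lean, with
look T in place of R (lookJ (tab A n') T (true :: x) = look T x by definition; lookJ .. (false :: x) = look (tab A n') x = A x for val x < n', look_tab, |x| <=
2^(m*m), tl m <= n'). Good2 implies Good for m >= 2 (good2_good).
-/

namespace Pool.Agent.Work.MP_0532f7_lc.PP

open MeasureTheory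

theorem tabrun {P : Mach} {m : ℕ} (hm : 3 ≤ m) (hG : Good2 P m) (A : List Bool → Bool)
    (T : List Bool) {n' : ℕ} (hn : tl m ≤ n') {v : List Bool} (hv : v.length ≤ 2 ^ m) :
    orun P.Q P.C P.O (tab A n') T v = P.run A (look T) v := by
  have key : ∀ y : List Bool, y.length ≤ 2 ^ (m * m) →
      ojoin A (look T) y = lookJ (tab A n') T y := by
    intro y hy
    cases y with
    | nil => rfl
    | cons b x =>
      rw [List.length_cons] at hy
      cases b with
      | true => rfl
      | false =>
        show A x = look (tab A n') x
        have h1 := val_lt (b := x) (n := 2 ^ (m * m)) (by omega)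
        have h2 : val x < n' := by
          unfold tl at hn
          omega
        exact (look_tab A n' x h2).symm
  unfold orun Mach.run ora
  rw [answers_congr P.Q (ojoin A (look T)) (lookJ (tab A n') T) v (P.C v).length
    (fun k hk => ?_)]
  exact key _ ((hG v hv).2 _ (by rw [answers_length]; omega))

end Pool.Agent.Work.MP_0532f7_lc.PP
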