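import Mathlib
import Pool.Agent.Work.MP_0532f7_lc.PP.TabRun

/-!
The test for collisions on tables, coNP pairs. (M)

Argument z = pr (pr TA T) (pr k (un m)), k = un (EE m). The length tests |v| <= 2^m: (v.drop s.length).isEmpty with s = un (min (2^m) k.length)
(FP.pcI); 2^m <= k.length as 2^(2^m+1) <= EE m (see h2, h3 in p3_iff of OSearch.lean); all v with |v| <= 2^m are num j with j < k.length (val_lt). FP.orunI, FPb.exbI,
exb_iff, FPb.eq, FPb.and, FPb.not; similar to p1, exb_p1, p2 of OSearch.lean. The inner contexts are built with FP.pair from the outer context and v. By tabrun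
acceptance on the tables (orun .. = [true]) is acceptance relative to look T (tl m <= EE m).
ColC: exb over z' (num j, j < k.length; 2 |z'| <= 2^m) of [2 |z'| + 2 + |kz z'| <= 2^m and not exb over v of (|v| <= 2^m, fs v = z', (P false accepts
v or P true accepts v))].
-/

namespace Pool.Agent.Work.MP_0532f7_lc.PP

open MeasureTheory

/-- inner test; context `pr (pr TA T) (pr s w)` -/
private def ccq1 (M M' : Mach) (z : List Bool) : Bool :=
  (((sn z).drop (fs (sn (fs z))).length).isEmpty && decide (fs (sn z) = sn (sn (fs z)))) &&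
    (decide (orun M.Q M.C M.O (fs (fs (fs z))) (sn (fs (fs z))) (sn z) = [true]) ||
      decide (orun M'.Q M'.C M'.O (fs (fs (fs z))) (sn (fs (fs z))) (sn z) = [true]))

private theorem ccq1I {M M' : Mach} (hM : M.ok) (hM' : M'.ok) : FPb (ccq1 M M') :=
  ((FPb.isNil.comp (FP.drop FP.fsI.snd.fst FP.snI)).and (FPb.eq FP.snI.fst FP.fsI.snd.snd)).and
    ((FPb.eq (FP.orunI hM.1 hM.2.1 hM.2.2 FP.fsI.fst.fst FP.fsI.fst.snd FP.snI) (FP.const _)).or
      (FPb.eq (FP.orunI hM'.1 hM'.2.1 hM'.2.2 FP.fsI.fst.fst FP.fsI.fst.snd FP.snI) (FP.const _)))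

private theorem ccq1_iff (M M' : Mach) (TA T s w v : List Bool) :
    ccq1 M M' (pr (pr (pr TA T) (pr s w)) v) = true ↔
      (v.length ≤ s.length ∧ fs v = w) ∧ (orun M.Q M.C M.O TA T v = [true] ∨
        orun M'.Q M'.C M'.O TA T v = [true]) := by
  unfold ccq1
  simp only [fs_pr, sn_pr, Bool.and_eq_true, Bool.or_eq_true, List.isEmpty_iff, List.drop_eq_nil_iff,
    decide_eq_true_eq]

/-- outer test; context `pr (pr TA T) (pr s k)` -/
private def ccq2 (M M' : Mach) (kz : List Bool → List Bool) (z : List Bool) : Bool :=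
  (((sn z ++ (sn z ++ ([true, true] ++ kz (sn z)))).drop (fs (sn (fs z))).length).isEmpty) &&
    !(exb (ccq1 M M') (pr (fs (fs z)) (pr (fs (sn (fs z))) (sn z))) (sn (sn (fs z))).length)

private theorem ccq2I {M M' : Mach} {kz : List Bool → List Bool} (hM : M.ok) (hM' : M'.ok) (hk : FP kz) :
    FPb (ccq2 M M' kz) :=
  (FPb.isNil.comp (FP.drop FP.fsI.snd.fst (FP.app FP.snI (FP.app FP.snI (FP.app (FP.const _) (hk.comp FP.snI)))))).and
    (FPb.exbI (ccq1I hM hM') (FP.pair FP.fsI.fst (FP.pair FP.fsI.snd.fst FP.snI)) FP.fsI.snd.snd).not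

private theorem ccq2_iff (M M' : Mach) (kz : List Bool → List Bool) (TA T s k z : List Bool) :
    ccq2 M M' kz (pr (pr (pr TA T) (pr s k)) z) = true ↔
      2 * z.length + 2 + (kz z).length ≤ s.length ∧
        ¬ exb (ccq1 M M') (pr (pr TA T) (pr s z)) k.length = true := by
  unfold ccq2
  simp only [fs_pr, sn_pr, Bool.and_eq_true, List.isEmpty_iff, List.drop_eq_nil_iff,
    List.length_append, List.length_cons, List.length_nil, Bool.not_eq_true', Bool.not_eq_true]
  constructor
  · rintro ⟨h1, h2⟩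
    exact ⟨by omega, h2⟩
  · rintro ⟨h1, h2⟩
    exact ⟨by omega, h2⟩

/-- the test -/
private def ccq3 (M M' : Mach) (kz : List Bool → List Bool) (z : List Bool) : Bool :=
  exb (ccq2 M M' kz) (pr (fs z) (pr (un (min (2 ^ (sn (sn z)).length) (fs (sn z)).length))
    (fs (sn z)))) (fs (sn z)).length

private theorem ccq3I {M M' : Mach} {kz : List Bool → List Bool} (hM : M.ok) (hM' : M'.ok) (hk : FP kz) :
    FPb (ccq3 M M' kz) :=
  FPb.exbI (ccq2I hM hM' hk) (FP.pair FP.fsI (FP.pair (FP.pcI FP.snI.fst FP.snI.snd) FP.snI.fst))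
    FP.snI.fst

private theorem cc_le {m : ℕ} : 2 ^ (2 ^ m + 1) ≤ EE m := by
  apply Nat.pow_le_pow_right (by omega)
  have h3 : m ≤ 2 ^ (m * m) := by
    have : m ≤ m * m := Nat.le_mul_self m
    have : m * m < 2 ^ (m * m) := Nat.lt_two_pow_self
    omega
  have h4 : 2 ^ (m + 1) ≤ 2 ^ (2 ^ (m * m) + 1) := Nat.pow_le_pow_right (by omega) (by omega)
  have h5 : 1 ≤ 2 ^ m := Nat.one_le_two_pow
  rw [pow_succ] at h4
  omega

theorem exists_colC {P : Bool → Mach} (hP : ∀ c, (P c).ok) {kz : List Bool → List Bool}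
    (hk : FP kz) :
    ∃ col : List Bool → Bool, FPb col ∧ ∀ (A : List Bool → Bool) (m : ℕ), 3 ≤ m →
      (∀ c, Good2 (P c) m) → ∀ T : List Bool,
      (col (pr (pr (tab A (EE m)) T) (pr (un (EE m)) (un m))) = true ↔
        look T ∈ ColC P kz A m) := by
  refine ⟨ccq3 (P false) (P true) kz, ccq3I (hP false) (hP true) hk, fun A m hm hG T => ?_⟩
  have h2 : 2 ^ (2 ^ m + 1) ≤ EE m := cc_le
  have h3 : 2 ^ m ≤ EE m := by
    have : 2 ^ m ≤ 2 ^ (2 ^ m + 1) := by
      apply Nat.pow_le_pow_right (by omega)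
      have : m < 2 ^ m := Nat.lt_two_pow_self
      omega
    omega
  have htl : tl m ≤ EE m := by
    have h4 := tl_lt m
    have h5 : 2 ^ (2 ^ (m * m) + 1) < EE m := Nat.lt_two_pow_self
    omega
  have hval : ∀ v : List Bool, v.length ≤ 2 ^ m → val v < EE m := fun v hv => by
    have := val_lt hv
    omega
  have hrun : ∀ (c : Bool) (v : List Bool), v.length ≤ 2 ^ m →
      orun (P c).Q (P c).C (P c).O (tab A (EE m)) T v = (P c).run A (look T) v :=
    fun c v hv => tabrun hm (hG c) A T htl hv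
  unfold ccq3
  simp only [fs_pr, sn_pr, un_length]
  rw [min_eq_left h3, exb_iff]
  constructor
  · rintro ⟨i, -, hi⟩
    rw [ccq2_iff, un_length, un_length] at hi
    obtain ⟨hl, hno⟩ := hi
    refine ⟨num i, hl, fun c v hv hf hacc => hno ?_⟩
    rw [exb_iff]
    refine ⟨val v, hval v hv, ?_⟩
    rw [ccq1_iff, un_length, num_val]
    refine ⟨⟨hv, hf⟩, ?_⟩
    cases c
    · left
      rw [hrun false v hv]
      exact hacc
    · right
      rw [hrun true v hv]
      exact hacc
  · rintro ⟨z, hl, hz⟩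
    have hzl : z.length ≤ 2 ^ m := by omega
    refine ⟨val z, hval z hzl, ?_⟩
    rw [ccq2_iff, un_length, un_length, num_val]
    refine ⟨hl, fun hex => ?_⟩
    rw [exb_iff] at hex
    obtain ⟨j, -, hj⟩ := hex
    rw [ccq1_iff, un_length] at hj
    obtain ⟨⟨hv, hf⟩, hr⟩ := hj
    rcases hr with hr | hr
    · rw [hrun false _ hv] at hr
      exact hz false _ hv hf hr
    · rw [hrun true _ hv] at hr
      exact hz true _ hv hf hr

end Pool.Agent.Work.MP_0532f7_lc.PP
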