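import Mathlib
import Pool.Agent.Work.MP_0532f7_lc.PP.Base

/-!
Bounds for the probabilities bt. (M, elementary analysis)

L = |num N|. num_pow: val_num, val_le: val x + 2 <= 2^(|x|+1) gives N + 1 < 2^(L+1); lower bound 2^|x| <= val x + 1 by induction on x from the
definition of val (Enum.lean). Put x = 2^-M, K = 2^n * bl.
s = true: M = n+L+1, K = 2^n, K x = 2^-(L+1) =: y <= 1/2. Upper bound (Bernoulli, one_add_mul_le_pow) 1-(1-x)^K <= K x = y. Lower bound: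
(1-x)^K <= exp(-y) <= 1 - y/2 for 0 <= y <= 1, so bt >= y/2 = 2^-(L+2) >= 1/4/(N+1) as 2^L <= N+1. pow_le_bt: y <= 2 bt.
bt^2 <= y^2 = 4^-(L+1) <= (N+1)^-2 <= (N+1)^(-7/5).
s = false: M = n, K = 2^n * l, l = L/2+1. q = (1-2^-n)^(2^n) >= 1/4 (n >= 1: (1-x)^(2^(n-1)) >= 1/2 by Bernoulli, square), so bt >= (1/4)^l >=
(1/4) (1/2)^L >= 1/4/(N+1) (2 (L/2) <= L). Upper bound: 1-x <= exp(-x), so bt <= exp(-l) <= exp(-1) <= 1/2 (also when n = 0), and
bt^2 <= exp(-2 l) <= exp(-(L+1)) as L+1 <= 2 l; exp(5) >= 2^7, so exp(-(L+1)) <= (2^(L+1))^(-7/5) <= (N+1)^(-7/5) as N+1 <= 2^(L+1)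
(Real.rpow_le_rpow_of_nonpos / rpow_neg, Real.exp_one_gt_d9).
-/

namespace Pool.Agent.Work.MP_0532f7_lc.PP

open MeasureTheory

theorem num_pow (N : ℕ) : 2 ^ (num N).length ≤ N + 1 ∧ N + 1 < 2 ^ ((num N).length + 1) := by
  have h1 := val_ge (num N)
  have h2 := val_le (num N)
  rw [val_num] at h1 h2
  exact ⟨h1, by omega⟩

private theorem np1 (N : ℕ) : (2 : ℝ) ^ (num N).length ≤ (N : ℝ) + 1 := by
  exact_mod_cast (num_pow N).1

private theorem np2 (N : ℕ) : (N : ℝ) + 1 ≤ (2 : ℝ) ^ ((num N).length + 1) := by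
  exact_mod_cast (num_pow N).2.le

private theorem inv_ge (N : ℕ) : 1 / 4 / ((N : ℝ) + 1) ≤ (1 / 2 : ℝ) ^ ((num N).length + 2) := by
  have h1 := np1 N
  have h2 : (0 : ℝ) < 2 ^ (num N).length := by positivity
  have h3 : (1 / 2 : ℝ) ^ ((num N).length + 2) = 1 / 4 / 2 ^ (num N).length := by
    rw [pow_add, one_div_pow]
    ring
  rw [h3]
  exact div_le_div_of_nonneg_left (by norm_num) h2 h1

private theorem pow_le_exp (x : ℝ) (hx : x ≤ 1) (K : ℕ) : (1 - x) ^ K ≤ Real.exp (-(K * x)) := by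
  have h1 : 1 - x ≤ Real.exp (-x) := by
    have := Real.add_one_le_exp (-x)
    linarith
  calc (1 - x) ^ K ≤ Real.exp (-x) ^ K := pow_le_pow_left₀ (by linarith) h1 K
    _ = Real.exp (-(K * x)) := by
      rw [← Real.exp_nat_mul]
      congr 1
      ring

private theorem bt_true_eq (n N : ℕ) :
    bt true n N = 1 - (1 - (1 / 2 : ℝ) ^ (n + (num N).length + 1)) ^ (2 ^ n) := by
  unfold bt bM bl
  simp

private theorem Kx (n L : ℕ) : (((2 ^ n : ℕ) : ℝ)) * (1 / 2 : ℝ) ^ (n + L + 1) = (1 / 2 : ℝ) ^ (L + 1) := by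
  rw [Nat.cast_pow, Nat.cast_ofNat, add_assoc, pow_add (1 / 2 : ℝ) n, ← mul_assoc, ← mul_pow]
  norm_num

private theorem bt_true_le (n N : ℕ) : bt true n N ≤ (1 / 2 : ℝ) ^ ((num N).length + 1) := by
  rw [bt_true_eq]
  have hx0 : (0 : ℝ) ≤ (1 / 2 : ℝ) ^ (n + (num N).length + 1) := by positivity
  have hx1 : (1 / 2 : ℝ) ^ (n + (num N).length + 1) ≤ 1 := pow_le_one₀ (by norm_num) (by norm_num)
  have h := one_add_mul_le_pow (a := -(1 / 2 : ℝ) ^ (n + (num N).length + 1)) (by linarith) (2 ^ n)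
  have h2 := Kx n (num N).length
  rw [← sub_eq_add_neg, mul_neg, h2, ← sub_eq_add_neg] at h
  linarith

private theorem bt_true_ge (n N : ℕ) : (1 / 2 : ℝ) ^ ((num N).length + 2) ≤ bt true n N := by
  rw [bt_true_eq]
  set y : ℝ := (1 / 2 : ℝ) ^ ((num N).length + 1) with hy
  have hy0 : 0 ≤ y := by positivity
  have hy1 : y ≤ 1 := pow_le_one₀ (by norm_num) (by norm_num)
  have hx1 : (1 / 2 : ℝ) ^ (n + (num N).length + 1) ≤ 1 := pow_le_one₀ (by norm_num) (by norm_num)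
  have h := pow_le_exp ((1 / 2 : ℝ) ^ (n + (num N).length + 1)) hx1 (2 ^ n)
  rw [Kx n (num N).length, ← hy] at h
  have h2 : Real.exp (-y) ≤ 1 - y / 2 := by
    rw [Real.exp_neg]
    have h3 : 1 + y ≤ Real.exp y := by
      have := Real.add_one_le_exp y
      linarith
    have h4 : (0 : ℝ) < 1 + y := by linarith
    calc (Real.exp y)⁻¹ ≤ (1 + y)⁻¹ := inv_anti₀ h4 h3
      _ ≤ 1 - y / 2 := by
        rw [inv_le_iff_one_le_mul₀ h4]
        nlinarith [mul_nonneg hy0 (sub_nonneg.mpr hy1)]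
  have h5 : (1 / 2 : ℝ) ^ ((num N).length + 2) = y / 2 := by
    rw [hy, pow_succ]
    ring
  rw [h5]
  linarith

private theorem bt_false_eq (n N : ℕ) :
    bt false n N = (1 - (1 / 2 : ℝ) ^ n) ^ (2 ^ n * ((num N).length / 2 + 1)) := by
  unfold bt bM bl
  simp

private theorem bt_false_le (n N : ℕ) : bt false n N ≤ Real.exp (-(((num N).length / 2 + 1 : ℕ) : ℝ)) := by
  rw [bt_false_eq]
  have hx1 : (1 / 2 : ℝ) ^ n ≤ 1 := pow_le_one₀ (by norm_num) (by norm_num)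
  have h := pow_le_exp ((1 / 2 : ℝ) ^ n) hx1 (2 ^ n * ((num N).length / 2 + 1))
  have h2 : ((2 ^ n * ((num N).length / 2 + 1) : ℕ) : ℝ) * (1 / 2 : ℝ) ^ n = (((num N).length / 2 + 1 : ℕ) : ℝ) := by
    rw [Nat.cast_mul, Nat.cast_pow, Nat.cast_ofNat]
    have h3 : (2 : ℝ) ^ n * (1 / 2 : ℝ) ^ n = 1 := by
      rw [← mul_pow]
      norm_num
    calc (2 : ℝ) ^ n * (((num N).length / 2 + 1 : ℕ) : ℝ) * (1 / 2 : ℝ) ^ n =
        ((2 : ℝ) ^ n * (1 / 2 : ℝ) ^ n) * (((num N).length / 2 + 1 : ℕ) : ℝ) := by ring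
      _ = _ := by rw [h3, one_mul]
  rw [h2] at h
  exact h

private theorem bt_false_nonneg (n N : ℕ) : 0 ≤ bt false n N := by
  rw [bt_false_eq]
  have hx1 : (1 / 2 : ℝ) ^ n ≤ 1 := pow_le_one₀ (by norm_num) (by norm_num)
  exact pow_nonneg (by linarith) _

private theorem bt_false_ge {n : ℕ} (hn : 1 ≤ n) (N : ℕ) : (1 / 2 : ℝ) ^ ((num N).length + 2) ≤ bt false n N := by
  rw [bt_false_eq]
  obtain ⟨m, rfl⟩ : ∃ m, n = m + 1 := ⟨n - 1, by omega⟩
  have hx1 : (1 / 2 : ℝ) ^ (m + 1) ≤ 1 := pow_le_one₀ (by norm_num) (by norm_num)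
  have h1 := one_add_mul_le_pow (a := -(1 / 2 : ℝ) ^ (m + 1)) (by linarith) (2 ^ m)
  have h2 : (((2 ^ m : ℕ) : ℝ)) * (1 / 2 : ℝ) ^ (m + 1) = 1 / 2 := by
    rw [Nat.cast_pow, Nat.cast_ofNat, pow_succ, ← mul_assoc, ← mul_pow]
    norm_num
  rw [← sub_eq_add_neg, mul_neg, h2] at h1
  have h3 : (1 / 4 : ℝ) ≤ (1 - (1 / 2 : ℝ) ^ (m + 1)) ^ (2 ^ (m + 1)) := by
    have h4 : (1 - (1 / 2 : ℝ) ^ (m + 1)) ^ (2 ^ (m + 1)) = ((1 - (1 / 2 : ℝ) ^ (m + 1)) ^ (2 ^ m)) ^ 2 := by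
      rw [← pow_mul, ← pow_succ]
    rw [h4]
    nlinarith
  rw [pow_mul]
  calc (1 / 2 : ℝ) ^ ((num N).length + 2) ≤ (1 / 2 : ℝ) ^ (2 * ((num N).length / 2 + 1)) :=
        pow_le_pow_of_le_one (by norm_num) (by norm_num) (by omega)
    _ = (1 / 4 : ℝ) ^ ((num N).length / 2 + 1) := by
        rw [pow_mul]
        norm_num
    _ ≤ _ := pow_le_pow_left₀ (by norm_num) h3 _

theorem bt_ge (s : Bool) {n : ℕ} (hn : 1 ≤ n) (N : ℕ) : 1 / 4 / ((N : ℝ) + 1) ≤ bt s n N := by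
  cases s
  · exact (inv_ge N).trans (bt_false_ge hn N)
  · exact (inv_ge N).trans (bt_true_ge n N)

theorem bt_pos (s : Bool) {n : ℕ} (hn : 1 ≤ n) (N : ℕ) : 0 < bt s n N := by
  have h1 := bt_ge s hn N
  have h2 : (0 : ℝ) < 1 / 4 / ((N : ℝ) + 1) := by positivity
  linarith

theorem bt_le (s : Bool) (n N : ℕ) : bt s n N ≤ 1 / 2 := by
  cases s
  · refine (bt_false_le n N).trans ?_
    have h1 : Real.exp (-(((num N).length / 2 + 1 : ℕ) : ℝ)) ≤ Real.exp (-1) := by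
      apply Real.exp_le_exp.mpr
      have : (1 : ℝ) ≤ (((num N).length / 2 + 1 : ℕ) : ℝ) := by
        exact_mod_cast Nat.le_add_left 1 _
      linarith
    have h2 : Real.exp (-1) ≤ 1 / 2 := by
      rw [Real.exp_neg]
      have h3 : (2 : ℝ) ≤ Real.exp 1 := by
        have := Real.exp_one_gt_d9
        linarith
      calc (Real.exp 1)⁻¹ ≤ (2 : ℝ)⁻¹ := inv_anti₀ (by norm_num) h3
        _ = 1 / 2 := by norm_num
    linarith
  · refine (bt_true_le n N).trans ?_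
    calc (1 / 2 : ℝ) ^ ((num N).length + 1) ≤ (1 / 2 : ℝ) ^ 1 :=
          pow_le_pow_of_le_one (by norm_num) (by norm_num) (by omega)
      _ = 1 / 2 := pow_one _

theorem bt_sq_le (s : Bool) {n : ℕ} (hn : 1 ≤ n) (N : ℕ) :
    bt s n N ^ 2 ≤ ((N : ℝ) + 1) ^ (-(7 / 5) : ℝ) := by
  have hN1 : (1 : ℝ) ≤ (N : ℝ) + 1 := by
    have : (0 : ℝ) ≤ (N : ℝ) := Nat.cast_nonneg N
    linarith
  have hN0 : (0 : ℝ) < (N : ℝ) + 1 := by linarith
  cases s
  · have h1 := bt_false_le n N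
    have h0 := bt_false_nonneg n N
    have h2 : bt false n N ^ 2 ≤ Real.exp (-(((num N).length + 1 : ℕ) : ℝ)) := by
      calc bt false n N ^ 2 ≤ Real.exp (-(((num N).length / 2 + 1 : ℕ) : ℝ)) ^ 2 := pow_le_pow_left₀ h0 h1 2
        _ = Real.exp (-(((2 * ((num N).length / 2 + 1) : ℕ)) : ℝ)) := by
          rw [← Real.exp_nat_mul]
          congr 1
          push_cast
          ring
        _ ≤ _ := by
          apply Real.exp_le_exp.mpr
          have h3 : (((num N).length + 1 : ℕ) : ℝ) ≤ ((2 * ((num N).length / 2 + 1) : ℕ) : ℝ) := by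
            exact_mod_cast (by omega : (num N).length + 1 ≤ 2 * ((num N).length / 2 + 1))
          linarith
    have h4 : Real.exp (-(((num N).length + 1 : ℕ) : ℝ)) ≤ ((2 : ℝ) ^ ((num N).length + 1)) ^ (-(7 / 5) : ℝ) := by
      rw [Real.rpow_def_of_pos (by positivity), Real.log_pow]
      apply Real.exp_le_exp.mpr
      have h5 := Real.log_two_lt_d9
      have h6 : (0 : ℝ) ≤ (((num N).length + 1 : ℕ) : ℝ) := Nat.cast_nonneg _
      nlinarith
    exact h2.trans (h4.trans (Real.rpow_le_rpow_of_nonpos hN0 (np2 N) (by norm_num)))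
  · have h1 := bt_true_le n N
    have h0 : 0 ≤ bt true n N := by
      have h := bt_true_ge n N
      have h' : (0 : ℝ) ≤ (1 / 2 : ℝ) ^ ((num N).length + 2) := by positivity
      linarith
    have h2 : bt true n N ≤ ((N : ℝ) + 1)⁻¹ := by
      refine h1.trans ?_
      rw [one_div, inv_pow]
      exact inv_anti₀ hN0 (np2 N)
    calc bt true n N ^ 2 ≤ (((N : ℝ) + 1)⁻¹) ^ 2 := pow_le_pow_left₀ h0 h2 2
      _ = ((N : ℝ) + 1) ^ (-2 : ℝ) := by
        rw [Real.rpow_neg hN0.le, inv_pow]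
        congr 1
        exact_mod_cast (Real.rpow_natCast ((N : ℝ) + 1) 2).symm
      _ ≤ _ := Real.rpow_le_rpow_of_exponent_le hN1 (by norm_num)

theorem pow_le_bt {n : ℕ} (hn : 1 ≤ n) (N : ℕ) :
    (1 / 2 : ℝ) ^ ((num N).length + 1) ≤ 2 * bt true n N := by
  have h := bt_true_ge n N
  rw [pow_succ] at h
  linarith

end Pool.Agent.Work.MP_0532f7_lc.PP
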