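import Mathlib
import Pool.Agent.Work.MP_0532f7_lc.PP.Base

/-!
First occurrences are disjoint. (S-M)

The sets S inter NoV V i0 i inter V i, i in I, are pairwise disjoint (for i < j: a member of the second is in NoV V i0 j, so not in V i, as
i0 <= i), measurable (NoV V i0 i is the intersection of the complements of V j, i0 <= j < i) and contained in S:
measureReal_biUnion_finset and measureReal_mono, as in sum_I of OMain2.lean.
-/

namespace Pool.Agent.Work.MP_0532f7_lc.PP

open MeasureTheory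

theorem first_sum (S : Set (List Bool → Bool)) (V : ℕ → Set (List Bool → Bool)) (i0 : ℕ)
    (hS : MeasurableSet S) (hV : ∀ i, i0 ≤ i → MeasurableSet (V i)) (I : Finset ℕ)
    (hI : ∀ i ∈ I, i0 ≤ i) :
    ∑ i ∈ I, randomOracle.real (S ∩ NoV V i0 i ∩ V i) ≤ randomOracle.real S := by
  have hm : ∀ i ∈ I, MeasurableSet (S ∩ NoV V i0 i ∩ V i) := by
    intro i hi
    refine (hS.inter ?_).inter (hV i (hI i hi))
    have h1 : NoV V i0 i = ⋂ j ∈ Finset.Ico i0 i, (V j)ᶜ := by
      ext R
      simp only [NoV, Set.mem_ofPred_eq, Set.mem_iInter, Finset.mem_Ico, Set.mem_compl_iff]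
      exact ⟨fun h j hj => h j hj.1 hj.2, fun h j h1 h2 => h j ⟨h1, h2⟩⟩
    rw [h1]
    exact Finset.measurableSet_biInter _ fun j hj => (hV j (Finset.mem_Ico.1 hj).1).compl
  have hd : (I : Set ℕ).PairwiseDisjoint (fun i => S ∩ NoV V i0 i ∩ V i) := by
    have key : ∀ i ∈ I, ∀ j ∈ I, i < j → Disjoint (S ∩ NoV V i0 i ∩ V i)
        (S ∩ NoV V i0 j ∩ V j) := by
      intro i hi j _ hij
      rw [Set.disjoint_left]
      rintro R ⟨_, h1⟩ ⟨⟨_, h2⟩, _⟩
      exact h2 i (hI i hi) hij h1
    intro i hi j hj hij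
    rcases lt_or_gt_of_ne hij with h | h
    · exact key i hi j hj h
    · exact (key j hj i hi h).symm
  rw [← measureReal_biUnion_finset hd hm]
  refine measureReal_mono ?_ (measure_ne_top _ _)
  intro R hR
  rw [Set.mem_iUnion₂] at hR
  obtain ⟨i, _, h⟩ := hR
  exact h.1.1

end Pool.Agent.Work.MP_0532f7_lc.PP
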