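import Mathlib
import Pool.Agent.Work.MP_0532f7_lc.PP.Ind
import Pool.Agent.Work.MP_0532f7_lc.PP.First

/-!
Step 1 of the generic theorem: the collisions at the levels with Cond. (M)

Let kappa = (1/2)^|σ| = P(ocyl σ), i in I, n = (ch i)^2, E2 = E2 s n (N i), Col i, D = NoV Col i0 i. D is Short (ch i): for i0 <= j < i
Col j is Short (ch (j+1)) and ch (j+1) <= ch i (ch_strictMono); ocyl σ is Short (ch i) (|σ| <= ch i0 <= ch i), and ch i <= (ch i)^2.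
By ind2: P(ocyl σ, E2) = bt^2 kappa and P(ocyl σ, not D, E2) = bt^2 P(ocyl σ, not D) <= bt^2 kappa/16 (hD). By Cond
P(ocyl σ, E2, Col i) >= bt^2 kappa/2, so P(ocyl σ, D, Col i) >= P(ocyl σ, D, E2, Col i) >= P(ocyl σ, E2, Col i) - P(ocyl σ, not D, E2) >=
(1/2 - 1/16) bt^2 kappa >= bt^2 kappa/4. By first_sum (S = ocyl σ, V = Col) the sum over I of P(ocyl σ inter D inter Col i) is <= kappa. So the
sum of bt^2 is <= 4.
-/

namespace Pool.Agent.Work.MP_0532f7_lc.PP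

open MeasureTheory

theorem col_sum (s : Bool) (σ : List Bool) (N : ℕ → ℕ) (Col : ℕ → Set (List Bool → Bool))
    (i0 : ℕ) (hσ : σ.length ≤ ch i0) (hCl : ∀ i, i0 ≤ i → Short (ch (i + 1)) (Col i))
    (hD : ∀ i, 15 / 16 * (1 / 2 : ℝ) ^ σ.length ≤ randomOracle.real (ocyl σ ∩ NoV Col i0 i))
    (I : Finset ℕ)
    (hI : ∀ i ∈ I, i0 ≤ i ∧ Cond s σ (ch i * ch i) (N i) (Col i)) :
    ∑ i ∈ I, bt s (ch i * ch i) (N i) ^ 2 ≤ 4 := by
  obtain ⟨κ, hκ⟩ : ∃ κ : ℝ, κ = (1 / 2) ^ σ.length := ⟨_, rfl⟩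
  have hκ0 : 0 < κ := by rw [hκ]; positivity
  have hmono : StrictMono ch := strictMono_nat_of_lt_succ ch_lt
  have hP : randomOracle.real (ocyl σ) = κ := by rw [hκ]; exact ocyl_real σ
  have hfs := first_sum (ocyl σ) Col i0 (meas_ocyl σ) (fun i hi => (hCl i hi).meas) I
    (fun i hi => (hI i hi).1)
  rw [hP] at hfs
  rw [← hκ] at hD
  have hterm : ∀ i ∈ I, κ / 4 * bt s (ch i * ch i) (N i) ^ 2 ≤
      randomOracle.real (ocyl σ ∩ NoV Col i0 i ∩ Col i) := by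
    intro i hi
    obtain ⟨hi0, hc⟩ := hI i hi
    have hLi : ch i ≤ ch i * ch i := Nat.le_mul_self _
    have hSo : Short (ch i) (ocyl σ) := short_ocyl σ (hσ.trans (hmono.monotone hi0))
    have hDs : Short (ch i) (NoV Col i0 i) :=
      short_NoV i0 i (fun j h1 h2 => (hCl j h1).mono (hmono.monotone h2))
    have e1 := ind2 s (N i) hLi hSo
    have e2 := ind2 s (N i) hLi (hSo.inter hDs.compl)
    have e3 := measureReal_inter_add_sdiff (μ := randomOracle) (s := ocyl σ) hDs.meas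
    have e4 := hD i
    rw [hP] at e1 e3
    have e5 : ocyl σ \ NoV Col i0 i = ocyl σ ∩ (NoV Col i0 i)ᶜ := Set.sdiff_eq _ _
    rw [e5] at e3
    have e6 : ocyl σ ∩ E2 s (ch i * ch i) (N i) ∩ Col i ⊆
        (ocyl σ ∩ NoV Col i0 i ∩ Col i) ∪
          (ocyl σ ∩ (NoV Col i0 i)ᶜ ∩ E2 s (ch i * ch i) (N i)) := by
      rintro R ⟨⟨h1, h2⟩, h3⟩
      by_cases h4 : R ∈ NoV Col i0 i
      · exact Or.inl ⟨⟨h1, h4⟩, h3⟩
      · exact Or.inr ⟨⟨h1, h4⟩, h2⟩
    have e7 := measureReal_mono (μ := randomOracle) e6 (measure_ne_top _ _)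
    have e8 := measureReal_union_le (μ := randomOracle) (ocyl σ ∩ NoV Col i0 i ∩ Col i)
      (ocyl σ ∩ (NoV Col i0 i)ᶜ ∩ E2 s (ch i * ch i) (N i))
    have e9 : randomOracle.real (ocyl σ ∩ E2 s (ch i * ch i) (N i)) ≤
      2 * randomOracle.real (ocyl σ ∩ E2 s (ch i * ch i) (N i) ∩ Col i) := hc
    rw [e1] at e9
    rw [e2] at e8
    have h0 : 0 ≤ bt s (ch i * ch i) (N i) ^ 2 := sq_nonneg _
    have h1 : randomOracle.real (ocyl σ ∩ (NoV Col i0 i)ᶜ) ≤ κ / 16 := by linarith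
    have h2 := mul_le_mul_of_nonneg_left h1 h0
    have h3 : 0 ≤ bt s (ch i * ch i) (N i) ^ 2 * κ := mul_nonneg h0 hκ0.le
    linarith
  have hsum := Finset.sum_le_sum hterm
  rw [← Finset.mul_sum] at hsum
  have h5 := hsum.trans hfs
  by_contra hcon
  push Not at hcon
  have h6 := mul_lt_mul_of_pos_left hcon (by positivity : (0 : ℝ) < κ / 4)
  linarith

end Pool.Agent.Work.MP_0532f7_lc.PP
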