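import Mathlib
import Pool.Agent.Work.MP_0532f7_lc.PP.Base

/-!
Step 3 of the generic theorem: finitely many reductions work on most of the cylinder. (S-M)

P(Opt inter ocyl σ) <= P(union over (h,i1) of (ocyl σ inter G h i1)) by h (measure_mono_ae). The family s F = union over f in F of
(ocyl σ inter G f.1 f.2), F a finite set of pairs, is directed and Finset (H x ℕ) is countable (H x ℕ countable), and its union over F is the whole union:
Directed.measure_iUnion (no measurability needed), then lt_iSup_iff gives an F with (15/16) kappa < P(s F) in ENNReal; pass to real numbers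
(measureReal, ENNReal.ofReal, ofReal_measureReal, as in opt_null of OMain3.lean) and 7/8 <= 15/16.
-/

namespace Pool.Agent.Work.MP_0532f7_lc.PP

open MeasureTheory

theorem cover {H : Type} [Countable H] (σ : List Bool) (Opt : Set (List Bool → Bool))
    (G : H → ℕ → Set (List Bool → Bool))
    (h : ∀ᵐ R ∂randomOracle, R ∈ Opt → ∃ (f : H) (i1 : ℕ), R ∈ G f i1)
    (hμ : ENNReal.ofReal ((1 - 1 / 16) * (1 / 2) ^ σ.length) < randomOracle (Opt ∩ ocyl σ)) :
    ∃ F : Finset (H × ℕ),
      7 / 8 * (1 / 2 : ℝ) ^ σ.length ≤ randomOracle.real (⋃ f ∈ F, (ocyl σ ∩ G f.1 f.2)) := by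
  haveI : IsProbabilityMeasure randomOracle := by
    unfold randomOracle
    infer_instance
  have h1 : (Opt ∩ ocyl σ : Set (List Bool → Bool)) ≤ᵐ[randomOracle]
      (⋃ F : Finset (H × ℕ), ⋃ f ∈ F, (ocyl σ ∩ G f.1 f.2) : Set (List Bool → Bool)) := by
    filter_upwards [h] with R hR hR2
    obtain ⟨f, i1, h2⟩ := hR hR2.1
    show R ∈ (⋃ F : Finset (H × ℕ), ⋃ f ∈ F, (ocyl σ ∩ G f.1 f.2) : Set (List Bool → Bool))
    rw [Set.mem_iUnion]
    refine ⟨{(f, i1)}, ?_⟩
    simp only [Finset.mem_singleton, Set.iUnion_iUnion_eq_left]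
    exact ⟨hR2.2, h2⟩
  have h2 := measure_mono_ae h1
  have hdir : Directed (· ⊆ ·) (fun F : Finset (H × ℕ) => (⋃ f ∈ F, (ocyl σ ∩ G f.1 f.2) :
      Set (List Bool → Bool))) := by
    classical
    intro F F'
    exact ⟨F ∪ F', Set.biUnion_subset_biUnion_left (fun x hx => Finset.mem_union_left _ hx),
      Set.biUnion_subset_biUnion_left (fun x hx => Finset.mem_union_right _ hx)⟩
  rw [hdir.measure_iUnion] at h2
  obtain ⟨F, hF⟩ := lt_iSup_iff.mp (hμ.trans_le h2)
  refine ⟨F, ?_⟩
  have h3 := (ENNReal.ofReal_lt_iff_lt_toReal (by positivity) (measure_ne_top _ _)).mp hF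
  have h4 : (0 : ℝ) < (1 / 2) ^ σ.length := by positivity
  have h5 : (7 : ℝ) / 8 * (1 / 2) ^ σ.length ≤ (1 - 1 / 16) * (1 / 2) ^ σ.length := by
    apply mul_le_mul_of_nonneg_right _ h4.le
    norm_num
  exact h5.trans h3.le

end Pool.Agent.Work.MP_0532f7_lc.PP
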