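import Mathlib
import Pool.Agent.Work.MP_0532f7_lc.PP.Base

/-!
The numbers behind the generic theorem. (S-M)

N is nondecreasing for i >= i0, and goes up by one exactly at the i with S i.
engine: (1) Suppose N is unbounded. Then for every k > max(N i0, n0) there is exactly one i >= i0 with S i and N i = k, or at least: there is an
i_k >= i0 with S (i_k) and N (i_k) = k (the last i with N i <= k: Nat.find for the first i with N i = k+1; then N (i-1) = k and S (i-1)), and i_k is
injective in k. So for every K the sum in h2 for large I is at least the sum over n0' <= k < K of c/(k+1), which tends to infinity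
(Real.tendsto_sum_range_one_div_nat_succ_atTop), contradicting h2 (the terms are nonnegative as c > 0 and hb).
(2) Suppose N i <= B for all i. Then only finitely many i >= i0 have S i (each increases N), so for all i >= i3 not S i and b i >= c/(B+1), so the
sum in h1 up to I is at least (I - i3) (c/(B+1))^2: unbounded.
summ: for i with S i the numbers N i are different, so the sum over i < I, i0 <= i, S i of (N i + 1)^(-7/5) is at most
sum_(k) (k+1)^(-7/5) < infinity (Real.summable_nat_rpow shifted; Finset.sum_image / sum_le_tsum with an injective map); the others by h1; and the i < i0 by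
their finite sum. Use summable_of_sum_range_le (c := finite sum over i < i0 + tsum + K1).
-/

namespace Pool.Agent.Work.MP_0532f7_lc.PP

open MeasureTheory

private theorem sum_step {b : ℕ → ℝ} {p : ℕ → Prop} [DecidablePred p] (I : ℕ) :
    ∑ i ∈ (Finset.range (I + 1)).filter p, b i =
      ∑ i ∈ (Finset.range I).filter p, b i + if p I then b I else 0 := by
  rw [Finset.sum_filter, Finset.sum_range_succ, Finset.sum_filter]

private theorem sum_init {b : ℕ → ℝ} {p : ℕ → Prop} [DecidablePred p] {i0 : ℕ}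
    (hp : ∀ i, p i → i0 ≤ i) : ∑ i ∈ (Finset.range i0).filter p, b i = 0 := by
  rw [Finset.filter_false_of_mem, Finset.sum_empty]
  intro i hi h
  exact absurd (hp i h) (not_le.2 (Finset.mem_range.1 hi))

/-- sums along the steps of `N` telescope -/
private theorem tele (g : ℕ → ℝ) (N : ℕ → ℕ) (S : ℕ → Prop) [DecidablePred S] (i0 : ℕ)
    (hN1 : ∀ i, i0 ≤ i → S i → N (i + 1) = N i + 1)
    (hN2 : ∀ i, i0 ≤ i → ¬ S i → N (i + 1) = N i) (I : ℕ) (hI : i0 ≤ I) :
    ∑ i ∈ (Finset.range I).filter (fun i => i0 ≤ i ∧ S i), g (N i) =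
      ∑ k ∈ Finset.range (N I), g k - ∑ k ∈ Finset.range (N i0), g k := by
  induction I, hI using Nat.le_induction with
  | base => rw [sum_init (fun i h => h.1), sub_self]
  | succ I hI ih =>
    rw [sum_step, ih]
    by_cases hs : S I
    · rw [if_pos ⟨hI, hs⟩, hN1 I hI hs, Finset.sum_range_succ]
      ring
    · rw [if_neg (fun h => hs h.2), hN2 I hI hs, add_zero]

theorem engine (b : ℕ → ℝ) (N : ℕ → ℕ) (S : ℕ → Prop) [DecidablePred S] (i0 n0 : ℕ)
    (c K1 K2 : ℝ) (hc : 0 < c)
    (hN1 : ∀ i, i0 ≤ i → S i → N (i + 1) = N i + 1)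
    (hN2 : ∀ i, i0 ≤ i → ¬ S i → N (i + 1) = N i)
    (hb : ∀ i, c / ((N i : ℝ) + 1) ≤ b i)
    (h1 : ∀ I, ∑ i ∈ (Finset.range I).filter (fun i => i0 ≤ i ∧ ¬ S i), b i ^ 2 ≤ K1)
    (h2 : ∀ I, ∑ i ∈ (Finset.range I).filter (fun i => i0 ≤ i ∧ S i ∧ n0 ≤ N i), b i ≤ K2) :
    False := by
  classical
  have hpos : ∀ i, 0 < b i := fun i => lt_of_lt_of_le (by positivity) (hb i)
  set Hm : ℕ → ℝ := fun n => ∑ k ∈ Finset.range n, (1 : ℝ) / ((k : ℝ) + 1) with hHm
  have hmono : Monotone Hm := by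
    refine monotone_nat_of_le_succ fun n => ?_
    rw [hHm]
    simp only [Finset.sum_range_succ]
    have : (0 : ℝ) ≤ 1 / ((n : ℝ) + 1) := by positivity
    linarith
  have hsucc : ∀ n, Hm (n + 1) = Hm n + 1 / ((n : ℝ) + 1) := fun n => Finset.sum_range_succ _ _
  -- the first sum
  have key : ∀ I, i0 ≤ I → c * (Hm (N I) - Hm (max n0 (N i0))) ≤
      ∑ i ∈ (Finset.range I).filter (fun i => i0 ≤ i ∧ S i ∧ n0 ≤ N i), b i := by
    intro I hI
    induction I, hI using Nat.le_induction with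
    | base =>
      rw [sum_init (fun i h => h.1)]
      have h3 : Hm (N i0) ≤ Hm (max n0 (N i0)) := hmono (le_max_right _ _)
      nlinarith
    | succ I hI ih =>
      rw [sum_step]
      by_cases hs : S I
      · by_cases hn : n0 ≤ N I
        · rw [if_pos ⟨hI, hs, hn⟩, hN1 I hI hs, hsucc]
          have h3 := hb I
          have h4 : c * (Hm (N I) + 1 / ((N I : ℝ) + 1) - Hm (max n0 (N i0))) =
              c * (Hm (N I) - Hm (max n0 (N i0))) + c / ((N I : ℝ) + 1) := by ring
          rw [h4]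
          linarith
        · rw [if_neg (fun h => hn h.2.2), hN1 I hI hs, add_zero]
          have h3 : Hm (N I + 1) ≤ Hm (max n0 (N i0)) :=
            hmono ((Nat.succ_le_of_lt (not_le.1 hn)).trans (le_max_left _ _))
          have h4 : 0 ≤ ∑ i ∈ (Finset.range I).filter (fun i => i0 ≤ i ∧ S i ∧ n0 ≤ N i), b i :=
            Finset.sum_nonneg fun i _ => (hpos i).le
          nlinarith
      · rw [if_neg (fun h => hs h.2.1), hN2 I hI hs, add_zero]
        exact ih
  obtain ⟨B, hB⟩ : ∃ B : ℕ, ∀ I, i0 ≤ I → N I ≤ B := by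
    have ht : Filter.Tendsto Hm Filter.atTop Filter.atTop :=
      Real.tendsto_sum_range_one_div_nat_succ_atTop
    obtain ⟨B, hB⟩ := (ht.eventually_gt_atTop (K2 / c + Hm (max n0 (N i0)))).exists
    refine ⟨B, fun I hI => ?_⟩
    by_contra hcon
    push Not at hcon
    have h3 := hmono hcon.le
    have h4 := (key I hI).trans (h2 I)
    have h5 : Hm (N I) - Hm (max n0 (N i0)) ≤ K2 / c := by
      rw [le_div_iff₀ hc]
      linarith
    linarith
  -- the second sum
  set d : ℝ := c / ((B : ℝ) + 1) with hd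
  have hd0 : 0 < d := by positivity
  have hbd : ∀ i, i0 ≤ i → d ≤ b i := by
    intro i hi
    refine le_trans ?_ (hb i)
    have h3 : (N i : ℝ) ≤ B := by exact_mod_cast hB i hi
    exact div_le_div_of_nonneg_left hc.le (by positivity) (by linarith)
  have key2 : ∀ I, i0 ≤ I → d ^ 2 * (((I : ℝ) - i0) - ((N I : ℝ) - N i0)) ≤
      ∑ i ∈ (Finset.range I).filter (fun i => i0 ≤ i ∧ ¬ S i), b i ^ 2 := by
    intro I hI
    induction I, hI using Nat.le_induction with
    | base =>
      rw [sum_init (fun i h => h.1)]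
      simp
    | succ I hI ih =>
      rw [sum_step (b := fun i => b i ^ 2)]
      by_cases hs : S I
      · rw [if_neg (fun h => h.2 hs), hN1 I hI hs, add_zero]
        refine le_trans (le_of_eq ?_) ih
        push_cast
        ring
      · rw [if_pos ⟨hI, hs⟩, hN2 I hI hs]
        have h3 : d ^ 2 ≤ b I ^ 2 := pow_le_pow_left₀ hd0.le (hbd I hI) 2
        have h4 : d ^ 2 * ((((I + 1 : ℕ) : ℝ) - i0) - ((N I : ℝ) - N i0)) =
            d ^ 2 * (((I : ℝ) - i0) - ((N I : ℝ) - N i0)) + d ^ 2 := by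
          push_cast
          ring
        rw [h4]
        linarith
  obtain ⟨n, hn⟩ := exists_nat_gt (K1 / d ^ 2 + B)
  have h3 := (key2 (i0 + n) (Nat.le_add_right _ _)).trans (h1 _)
  have h4 : (N (i0 + n) : ℝ) ≤ B := by exact_mod_cast hB _ (Nat.le_add_right _ _)
  have h5 : (0 : ℝ) ≤ N i0 := Nat.cast_nonneg _
  have h6 : (n : ℝ) - B ≤ ((((i0 + n : ℕ) : ℝ) - i0) - ((N (i0 + n) : ℝ) - N i0)) := by
    push_cast
    linarith
  have hd2 : 0 < d ^ 2 := by positivity
  have h7 : d ^ 2 * ((n : ℝ) - B) ≤ K1 := (mul_le_mul_of_nonneg_left h6 hd2.le).trans h3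
  have h8 : K1 / d ^ 2 < (n : ℝ) - B := by linarith
  rw [div_lt_iff₀ hd2] at h8
  linarith

theorem summ (b : ℕ → ℝ) (N : ℕ → ℕ) (S : ℕ → Prop) [DecidablePred S] (i0 : ℕ) (K1 : ℝ)
    (hN1 : ∀ i, i0 ≤ i → S i → N (i + 1) = N i + 1)
    (hN2 : ∀ i, i0 ≤ i → ¬ S i → N (i + 1) = N i)
    (hb : ∀ i, i0 ≤ i → b i ^ 2 ≤ ((N i : ℝ) + 1) ^ (-(7 / 5) : ℝ))
    (h1 : ∀ I, ∑ i ∈ (Finset.range I).filter (fun i => i0 ≤ i ∧ ¬ S i), b i ^ 2 ≤ K1) :
    Summable (fun i => b i ^ 2) := by
  classical
  set g : ℕ → ℝ := fun k => ((k : ℝ) + 1) ^ (-(7 / 5) : ℝ) with hg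
  have hg0 : ∀ k, 0 ≤ g k := fun k => Real.rpow_nonneg (by positivity) _
  have hgs : Summable g := by
    have h3 : Summable (fun n : ℕ => (n : ℝ) ^ (-(7 / 5) : ℝ)) :=
      Real.summable_nat_rpow.2 (by norm_num)
    have h4 := (summable_nat_add_iff 1).2 h3
    refine h4.congr fun k => ?_
    rw [hg]
    push_cast
    rfl
  have hK : 0 ≤ K1 := by simpa using h1 0
  refine summable_of_sum_range_le (c := ∑ i ∈ Finset.range i0, b i ^ 2 + (∑' k, g k + K1))
    (fun n => sq_nonneg _) fun I => ?_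
  rcases le_total I i0 with hI | hI
  · have h3 : ∑ i ∈ Finset.range I, b i ^ 2 ≤ ∑ i ∈ Finset.range i0, b i ^ 2 :=
      Finset.sum_le_sum_of_subset_of_nonneg (Finset.range_mono hI) fun i _ _ => sq_nonneg _
    have h4 : 0 ≤ ∑' k, g k := tsum_nonneg hg0
    linarith
  · have h3 : ∑ i ∈ Finset.range I, b i ^ 2 = ∑ i ∈ Finset.range i0, b i ^ 2 +
        (∑ i ∈ (Finset.range I).filter (fun i => i0 ≤ i ∧ S i), b i ^ 2 +
        ∑ i ∈ (Finset.range I).filter (fun i => i0 ≤ i ∧ ¬ S i), b i ^ 2) := by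
      clear h1 hK
      induction I, hI using Nat.le_induction with
      | base => rw [sum_init (fun i h => h.1), sum_init (fun i h => h.1), add_zero, add_zero]
      | succ I hI ih =>
        rw [Finset.sum_range_succ, ih, sum_step (b := fun i => b i ^ 2),
          sum_step (b := fun i => b i ^ 2)]
        by_cases hs : S I
        · rw [if_pos ⟨hI, hs⟩, if_neg (fun h => h.2 hs)]
          ring
        · rw [if_neg (fun h => hs h.2), if_pos ⟨hI, hs⟩]
          ring
    have h4 : ∑ i ∈ (Finset.range I).filter (fun i => i0 ≤ i ∧ S i), b i ^ 2 ≤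
        ∑ i ∈ (Finset.range I).filter (fun i => i0 ≤ i ∧ S i), g (N i) :=
      Finset.sum_le_sum fun i hi => hb i (Finset.mem_filter.1 hi).2.1
    rw [tele g N S i0 hN1 hN2 I hI] at h4
    have h5 : ∑ k ∈ Finset.range (N I), g k ≤ ∑' k, g k :=
      hgs.sum_le_tsum _ fun k _ => hg0 k
    have h6 : 0 ≤ ∑ k ∈ Finset.range (N i0), g k := Finset.sum_nonneg fun k _ => hg0 k
    have h7 := h1 I
    linarith

end Pool.Agent.Work.MP_0532f7_lc.PP
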