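import Mathlib
import Pool.Agent.Work.MP_0532f7_lc.PP.Base

/-!
Step 4 of the generic theorem: at a level without Cond some reduction fails often. (S-M)

Let U = union of the Al f. beta^2 (7/8) kappa <= P(U,E) <= P(U,E,not Cl) + P(S,E,Cl) (U is contained in S) and P(S,E,Cl) < P(S,E)/2 = beta^2 kappa/2.
So (3/8) beta^2 kappa <= P(U,E,not Cl) <= sum_f P(Al f,E,not Cl) <= sum_f beta (4 P(Al f,Fl f) + eta beta P(Al f)) <=
beta (4 sum + eta beta |F| kappa) <= beta (4 sum + beta kappa/8) (P(Al f) <= P(S) = kappa, kappa >= 0). Divide by beta: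
4 sum >= (3/8 - 1/8) beta kappa. (measureReal_biUnion_finset_le, measureReal_mono; all sets are measurable by hypothesis if needed.)
-/

namespace Pool.Agent.Work.MP_0532f7_lc.PP

open MeasureTheory

theorem fail_low {ι : Type} (F : Finset ι) (Al Fl : ι → Set (List Bool → Bool))
    (S E Cl : Set (List Bool → Bool)) (κ β η : ℝ) (hβ : 0 < β) (hη0 : 0 ≤ η)
    (hη : η * F.card ≤ 1 / 8) (hAm : ∀ f ∈ F, MeasurableSet (Al f)) (hEm : MeasurableSet E)
    (hCm : MeasurableSet Cl) (hAS : ∀ f ∈ F, Al f ⊆ S) (hS : randomOracle.real S = κ)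
    (hE : randomOracle.real (S ∩ E) = β ^ 2 * κ)
    (hU : randomOracle.real ((⋃ f ∈ F, Al f) ∩ E) =
      β ^ 2 * randomOracle.real (⋃ f ∈ F, Al f))
    (hU2 : 7 / 8 * κ ≤ randomOracle.real (⋃ f ∈ F, Al f))
    (hC : ¬ randomOracle.real (S ∩ E) ≤ 2 * randomOracle.real (S ∩ E ∩ Cl))
    (hK : ∀ f ∈ F, randomOracle.real (Al f ∩ E ∩ Clᶜ) ≤
      β * (4 * randomOracle.real (Al f ∩ Fl f) + η * β * randomOracle.real (Al f))) :
    β * κ / 16 ≤ ∑ f ∈ F, randomOracle.real (Al f ∩ Fl f) := by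
  classical
  have hκ : 0 ≤ κ := hS ▸ measureReal_nonneg
  have hUS : (⋃ f ∈ F, Al f) ⊆ S := Set.iUnion₂_subset hAS
  have h1 : randomOracle.real ((⋃ f ∈ F, Al f) ∩ E) ≤
      randomOracle.real (⋃ f ∈ F, (Al f ∩ E ∩ Clᶜ)) + randomOracle.real (S ∩ E ∩ Cl) := by
    refine (measureReal_mono ?_).trans (measureReal_union_le _ _)
    rintro R ⟨hR, hRE⟩
    by_cases hc : R ∈ Cl
    · exact Or.inr ⟨⟨hUS hR, hRE⟩, hc⟩
    · left
      rw [Set.mem_iUnion₂] at hR ⊢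
      obtain ⟨f, hf, hRf⟩ := hR
      exact ⟨f, hf, ⟨hRf, hRE⟩, hc⟩
  have h2 : randomOracle.real (S ∩ E ∩ Cl) < β ^ 2 * κ / 2 := by
    push Not at hC
    rw [hE] at hC
    linarith
  have h3 : randomOracle.real (⋃ f ∈ F, (Al f ∩ E ∩ Clᶜ)) ≤
      ∑ f ∈ F, β * (4 * randomOracle.real (Al f ∩ Fl f) + η * β * κ) := by
    refine (measureReal_biUnion_finset_le F _).trans (Finset.sum_le_sum fun f hf => ?_)
    refine (hK f hf).trans ?_
    have h4 : randomOracle.real (Al f) ≤ κ := hS ▸ measureReal_mono (hAS f hf)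
    have h5 : η * β * randomOracle.real (Al f) ≤ η * β * κ :=
      mul_le_mul_of_nonneg_left h4 (mul_nonneg hη0 hβ.le)
    exact mul_le_mul_of_nonneg_left (by linarith) hβ.le
  rw [← Finset.mul_sum, Finset.sum_add_distrib, ← Finset.mul_sum, Finset.sum_const,
    nsmul_eq_mul] at h3
  rw [hU] at h1
  set s := ∑ f ∈ F, randomOracle.real (Al f ∩ Fl f) with hs
  have h6 : (F.card : ℝ) * (η * β * κ) ≤ β * κ / 8 := by
    have h7 := mul_le_mul_of_nonneg_right hη (mul_nonneg hβ.le hκ)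
    nlinarith
  have h8 : β * (4 * s + (F.card : ℝ) * (η * β * κ)) ≤ β * (4 * s + β * κ / 8) :=
    mul_le_mul_of_nonneg_left (by linarith) hβ.le
  have h9 : β ^ 2 * (7 / 8 * κ) ≤ β ^ 2 * randomOracle.real (⋃ f ∈ F, Al f) :=
    mul_le_mul_of_nonneg_left hU2 (sq_nonneg β)
  have h10 : β * (3 / 8 * (β * κ)) ≤ β * (4 * s + β * κ / 8) := by
    have h11 : β * (3 / 8 * (β * κ)) = β ^ 2 * (7 / 8 * κ) - β ^ 2 * κ / 2 := by ring
    linarith
  have h12 := le_of_mul_le_mul_left h10 hβ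
  linarith

end Pool.Agent.Work.MP_0532f7_lc.PP
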