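import Mathlib
import Pool.Agent.Work.MP_0532f7_lc.PP.Beta
import Pool.Agent.Work.MP_0532f7_lc.PP.Engine
import Pool.Agent.Work.MP_0532f7_lc.PP.ColSum
import Pool.Agent.Work.MP_0532f7_lc.PP.Cover
import Pool.Agent.Work.MP_0532f7_lc.PP.FailLow

/-!
The generic theorem. (M)

Proof. Suppose P(Opt) /= 0. odensity (epsilon = 1/16) gives σ with ENNReal.ofReal ((1-1/16) kappa) < P(Opt inter ocyl σ), kappa = (1/2)^|σ|.
Let N = Nf σ, b i = bt s ((ch i)^2) (N i), S i = not Cond s σ ((ch i)^2) (N i) (Col i) (classical decidability). Choose i0 so large that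
it works in hN1 (for σ), hCl, hCo, and |σ| <= ch i0 (ch_ge).
1. Opt is contained in NoV Col i0 i for all i, so hD of col_sum holds; col_sum gives h1 of engine and summ with K1 = 4.
2. summ (bt_sq_le, n = (ch i)^2 >= 1) gives Summable (b i ^2); hCmp gives: a.e. R in Opt is in some G h i1 = {R : for all i >= i1, R notin Fail h i (N i)}.
3. cover gives F. If F is empty then 7/8 kappa <= 0: false. J = F.card >= 1.
4. eta = 1/(8 J). For each f in F take i0, n0 from hK (f.1, eta) and from hFl; let i2 be the maximum of i0, all these, and all the f.2; n2 the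
maximum of the n0 (Finset.sup). For i >= i2: Al f = ocyl σ inter NoV (fun j => Fail f.1 j (N j)) i2 i: it is Short (ch i) (short_NoV, hFl, N j <= j, ch
monotone, Short.mono; short_ocyl) and contains ocyl σ inter G f.1 f.2 (f.2 <= i2). fail_low with S = ocyl σ, E = E2 s ((ch i)^2) (N i), Cl = Col i,
Fl f = Fail f.1 i (N i), beta = b i: hE, hU from ind2 (ocyl σ and the union are Short (ch i), ch i <= (ch i)^2); hK. So for i >= i2, S i, N i >= n2:
b i kappa/16 <= sum_f P(Al_f(i), Fail f.1 i (N i)).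
5. Sum over i in a finite set of such i: exchange the sums, first_sum (V j = Fail f.1 j (N j), start i2, S = ocyl σ) bounds it by J kappa. So the
sum of the b i is <= 16 J.
6. engine with start i2 (h1 for i0 := i2 follows from col_sum with I = the filtered set), c = 1/4 (bt_ge), K2 = 16 J, n0 = n2: False.
-/

namespace Pool.Agent.Work.MP_0532f7_lc.PP

open MeasureTheory

theorem null_of {H : Type} [Countable H] (s : Bool) (Nf : List Bool → ℕ → ℕ)
    (Col : ℕ → Set (List Bool → Bool)) (Opt : Set (List Bool → Bool))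
    (Fail : H → ℕ → ℕ → Set (List Bool → Bool))
    (hN : ∀ σ i, Nf σ i ≤ i)
    (hN1 : ∀ σ, ∃ i0, ∀ i, i0 ≤ i →
      (Cond s σ (ch i * ch i) (Nf σ i) (Col i) → Nf σ (i + 1) = Nf σ i) ∧
      (¬ Cond s σ (ch i * ch i) (Nf σ i) (Col i) → Nf σ (i + 1) = Nf σ i + 1))
    (hCl : ∃ i0, ∀ i, i0 ≤ i → Short (ch (i + 1)) (Col i))
    (hCo : ∃ i0, ∀ i, i0 ≤ i → ∀ R ∈ Opt, R ∉ Col i)
    (hFl : ∀ h, ∃ i0, ∀ i, i0 ≤ i → ∀ N, N ≤ i → Short (ch (i + 1)) (Fail h i N))
    (hK : ∀ h, ∀ η : ℝ, 0 < η → ∃ i0 n0 : ℕ, ∀ i, i0 ≤ i → ∀ N, n0 ≤ N → N ≤ i →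
      ∀ Al : Set (List Bool → Bool), Short (ch i) Al →
        randomOracle.real (Al ∩ E2 s (ch i * ch i) N ∩ (Col i)ᶜ) ≤
          bt s (ch i * ch i) N * (4 * randomOracle.real (Al ∩ Fail h i N) +
            η * bt s (ch i * ch i) N * randomOracle.real Al))
    (hCmp : ∀ σ, Summable (fun i => bt s (ch i * ch i) (Nf σ i) ^ 2) →
      ∀ᵐ R ∂randomOracle, R ∈ Opt → ∃ (h : H) (i1 : ℕ), ∀ i, i1 ≤ i → R ∉ Fail h i (Nf σ i)) :
    randomOracle Opt = 0 := by
  classical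
  by_contra hne
  obtain ⟨σ, hσ⟩ := odensity Opt hne (1 / 16) (by norm_num)
  have hκ : 0 < (1 / 2 : ℝ) ^ σ.length := by positivity
  obtain ⟨i1, h1⟩ := hN1 σ
  obtain ⟨i2, h2⟩ := hCl
  obtain ⟨i3, h3⟩ := hCo
  obtain ⟨i0, hi0⟩ : ∃ i0, i0 = i1 + i2 + i3 + σ.length := ⟨_, rfl⟩
  have hch0 : ∀ i, i + 3 ≤ ch i := ch_ge
  have hsq : ∀ i, ch i ≤ ch i * ch i := fun i => Nat.le_mul_self _
  have hn : ∀ i, 1 ≤ ch i * ch i := fun i => by have := hch0 i; have := hsq i; omega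
  have hmono : ∀ i j, i ≤ j → ch i ≤ ch j := fun i j h => ch_strictMono.monotone h
  have hprob : ∀ W : Set (List Bool → Bool), randomOracle.real W ≤ 1 := fun W => by
    have h4 : randomOracle.real W ≤ randomOracle.real Set.univ :=
      measureReal_mono (Set.subset_univ _) (measure_ne_top _ _)
    rwa [probReal_univ] at h4
  have hD : ∀ i, 15 / 16 * (1 / 2 : ℝ) ^ σ.length ≤
      randomOracle.real (ocyl σ ∩ NoV Col i0 i) := by
    intro i
    have h4 : randomOracle (Opt ∩ ocyl σ) ≤ randomOracle (ocyl σ ∩ NoV Col i0 i) :=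
      measure_mono (fun R hR => ⟨hR.2, fun j hj _ => h3 j (by omega) R hR.1⟩)
    have h5 := hσ.trans_le h4
    rw [← ofReal_measureReal] at h5
    have h6 := (ENNReal.ofReal_lt_ofReal_iff_of_nonneg (by
      apply mul_nonneg (by norm_num) hκ.le)).mp h5
    linarith
  have hcol : ∀ I : Finset ℕ,
      (∀ i ∈ I, i0 ≤ i ∧ Cond s σ (ch i * ch i) (Nf σ i) (Col i)) →
      ∑ i ∈ I, bt s (ch i * ch i) (Nf σ i) ^ 2 ≤ 4 := fun I hI =>
    col_sum s σ (Nf σ) Col i0 (by have := hch0 i0; omega) (fun i hi => h2 i (by omega)) hD I hI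
  have hsum : Summable (fun i => bt s (ch i * ch i) (Nf σ i) ^ 2) := by
    refine summ (fun i => bt s (ch i * ch i) (Nf σ i)) (Nf σ)
      (fun i => ¬ Cond s σ (ch i * ch i) (Nf σ i) (Col i)) i0 4
      (fun i hi hS => (h1 i (by omega)).2 hS)
      (fun i hi hS => (h1 i (by omega)).1 (not_not.mp hS))
      (fun i _ => bt_sq_le s (hn i) _) (fun I => hcol _ (fun i hi => ?_))
    rw [Finset.mem_filter] at hi
    exact ⟨hi.2.1, not_not.mp hi.2.2⟩
  obtain ⟨F, hF⟩ := cover σ Opt (fun h i1 => {R | ∀ i, i1 ≤ i → R ∉ Fail h i (Nf σ i)})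
    (hCmp σ hsum) hσ
  have hJ : 0 < F.card := by
    rw [Finset.card_pos]
    by_contra h4
    rw [Finset.not_nonempty_iff_eq_empty] at h4
    rw [h4] at hF
    simp only [Finset.notMem_empty, Set.iUnion_of_empty, Set.iUnion_empty,
      measureReal_empty] at hF
    linarith
  have hJ' : (0 : ℝ) < F.card := by exact_mod_cast hJ
  set η : ℝ := 1 / (8 * F.card) with hη
  have hη0 : 0 < η := by positivity
  have hηJ : η * F.card ≤ 1 / 8 := by
    rw [hη]
    field_simp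
    norm_num
  choose iK nK hKK using fun h : H => hK h η hη0
  choose iF hFF using hFl
  obtain ⟨j0, hj0⟩ : ∃ j0, j0 = i0 + F.sup (fun f => iK f.1 + iF f.1 + f.2) := ⟨_, rfl⟩
  have hj0F : ∀ f ∈ F, iK f.1 + iF f.1 + f.2 ≤ j0 := fun f hf => by
    have h4 := Finset.le_sup (f := fun f : H × ℕ => iK f.1 + iF f.1 + f.2) hf
    omega
  obtain ⟨n2, hn2⟩ : ∃ n2, n2 = F.sup (fun f => nK f.1) := ⟨_, rfl⟩
  have hn2F : ∀ f ∈ F, nK f.1 ≤ n2 := fun f hf => by
    have h4 := Finset.le_sup (f := fun f : H × ℕ => nK f.1) hf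
    omega
  have hij : i0 ≤ j0 := by omega
  -- the sets of the oracles for which the reduction has not failed
  have hAS : ∀ f ∈ F, ∀ i, j0 ≤ i →
      Short (ch i) (ocyl σ ∩ NoV (fun j => Fail f.1 j (Nf σ j)) j0 i) := by
    intro f hf i hi
    refine (short_ocyl σ (by have := hch0 i; omega)).inter (short_NoV j0 i (fun j hj hji => ?_))
    have h4 := hj0F f hf
    exact (hFF f.1 j (by omega) (Nf σ j) (hN σ j)).mono (hmono (j + 1) i hji)
  have hlow : ∀ i, j0 ≤ i → ¬ Cond s σ (ch i * ch i) (Nf σ i) (Col i) → n2 ≤ Nf σ i →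
      bt s (ch i * ch i) (Nf σ i) * (1 / 2 : ℝ) ^ σ.length / 16 ≤
        ∑ f ∈ F, randomOracle.real (ocyl σ ∩ NoV (fun j => Fail f.1 j (Nf σ j)) j0 i ∩
          Fail f.1 i (Nf σ i)) := by
    intro i hi hS hNi
    have hE2 : Short (2 ^ (ch i * ch i)) (E2 s (ch i * ch i) (Nf σ i)) :=
      short_E2 s (by have := hch0 i; omega) (by have := hN σ i; have := hch0 i; omega)
    have hσs : Short (ch i) (ocyl σ) := short_ocyl σ (by have := hch0 i; omega)
    have hUs : Short (ch i) (⋃ f ∈ F, (ocyl σ ∩ NoV (fun j => Fail f.1 j (Nf σ j)) j0 i)) :=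
      Short.biUnion F (fun f hf => hAS f hf i hi)
    refine fail_low F (fun f => ocyl σ ∩ NoV (fun j => Fail f.1 j (Nf σ j)) j0 i)
      (fun f => Fail f.1 i (Nf σ i)) (ocyl σ) (E2 s (ch i * ch i) (Nf σ i)) (Col i)
      ((1 / 2) ^ σ.length) (bt s (ch i * ch i) (Nf σ i)) η (bt_pos s (hn i) _) hη0.le hηJ
      (fun f hf => (hAS f hf i hi).meas) hE2.meas (h2 i (by omega)).meas
      (fun f _ => Set.inter_subset_left) (ocyl_real σ) ?_ (ind2 s _ (hsq i) hUs) ?_ hS ?_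
    · rw [ind2 s _ (hsq i) hσs, ocyl_real]
    · refine hF.trans (measureReal_mono ?_ (measure_ne_top _ _))
      intro R hR
      rw [Set.mem_iUnion₂] at hR ⊢
      obtain ⟨f, hf, h4, h5⟩ := hR
      refine ⟨f, hf, h4, fun j hj _ => h5 j ?_⟩
      have h6 := hj0F f hf
      omega
    · intro f hf
      have h6 := hj0F f hf
      have h7 := hn2F f hf
      exact hKK f.1 i (by omega) (Nf σ i) (by omega) (hN σ i) _ (hAS f hf i hi)
  have hfin : ∀ I : Finset ℕ, (∀ i ∈ I, j0 ≤ i ∧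
      ¬ Cond s σ (ch i * ch i) (Nf σ i) (Col i) ∧ n2 ≤ Nf σ i) →
      ∑ i ∈ I, bt s (ch i * ch i) (Nf σ i) ≤ 16 * F.card := by
    intro I hI
    have h4 : ∑ i ∈ I, bt s (ch i * ch i) (Nf σ i) * (1 / 2 : ℝ) ^ σ.length / 16 ≤
        ∑ i ∈ I, ∑ f ∈ F, randomOracle.real (ocyl σ ∩ NoV (fun j => Fail f.1 j (Nf σ j)) j0 i ∩
          Fail f.1 i (Nf σ i)) :=
      Finset.sum_le_sum (fun i hi => hlow i (hI i hi).1 (hI i hi).2.1 (hI i hi).2.2)
    rw [Finset.sum_comm] at h4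
    have h5 : ∑ f ∈ F, ∑ i ∈ I, randomOracle.real (ocyl σ ∩
        NoV (fun j => Fail f.1 j (Nf σ j)) j0 i ∩ Fail f.1 i (Nf σ i)) ≤
        ∑ _f ∈ F, (1 / 2 : ℝ) ^ σ.length := by
      refine Finset.sum_le_sum (fun f hf => ?_)
      have h6 := first_sum (ocyl σ) (fun j => Fail f.1 j (Nf σ j)) j0 (meas_ocyl σ)
        (fun i hi => (hFF f.1 i (by have := hj0F f hf; omega) (Nf σ i) (hN σ i)).meas) I
        (fun i hi => (hI i hi).1)
      rwa [ocyl_real] at h6
    rw [Finset.sum_const, nsmul_eq_mul] at h5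
    have h6 : ∑ i ∈ I, bt s (ch i * ch i) (Nf σ i) * (1 / 2 : ℝ) ^ σ.length / 16 =
        (∑ i ∈ I, bt s (ch i * ch i) (Nf σ i)) * ((1 / 2 : ℝ) ^ σ.length / 16) := by
      rw [Finset.sum_mul]
      exact Finset.sum_congr rfl (fun i _ => by ring)
    rw [h6] at h4
    have h7 : (∑ i ∈ I, bt s (ch i * ch i) (Nf σ i)) * ((1 / 2 : ℝ) ^ σ.length / 16) ≤
        (16 * F.card) * ((1 / 2 : ℝ) ^ σ.length / 16) := by
      refine (h4.trans h5).trans (le_of_eq ?_)
      ring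
    exact le_of_mul_le_mul_right h7 (by positivity)
  refine engine (fun i => bt s (ch i * ch i) (Nf σ i)) (Nf σ)
    (fun i => ¬ Cond s σ (ch i * ch i) (Nf σ i) (Col i)) j0 n2 (1 / 4) 4 (16 * F.card)
    (by norm_num) (fun i hi hS => (h1 i (by omega)).2 hS)
    (fun i hi hS => (h1 i (by omega)).1 (not_not.mp hS))
    (fun i => bt_ge s (hn i) _) (fun I => hcol _ (fun i hi => ?_))
    (fun I => hfin _ (fun i hi => ?_))
  · rw [Finset.mem_filter] at hi
    exact ⟨hij.trans hi.2.1, not_not.mp hi.2.2⟩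
  · rw [Finset.mem_filter] at hi
    exact ⟨hi.2.1, hi.2.2.1, hi.2.2.2⟩

end Pool.Agent.Work.MP_0532f7_lc.PP
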