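import Mathlib
import Pool.Agent.Work.MP_0532f7_lc.OMeasA

/-!
The covariance lemma: an event with short certificates is almost independent of (or positively correlated with) a zero block. (M)

touch_card: the sets B x are disjoint, so every element of T meets at most one of them: choose for each x in the filter an element of
B x inter T; this map is injective into T (Finset.card_le_card_of_injOn).

cov: induction on X for a fixed event W gives (without q)
  P(W, NZ_X) <= (1-2^-M)^|X| P(W) + 2^-M sum_(x in X) P(W minus (zeroOn (B x))^-1 W),          (*)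
where NZ_X = no block of X is zero. Step X + x: P(W,NZ_(X+x)) = P(W,NZ_X) - P(W, NZ_X, block x zero); by the lemma plant (OMeasA) applied to
W inter NZ_X the last term is 2^-M P({R : zeroOn (B x) R in W inter NZ_X}), and zeroOn (B x) R in NZ_X iff R in NZ_X (the blocks are
disjoint; the same argument is hUinv in om_block_aux of OMeasA, for the complement). So it is 2^-M P(V_x, NZ_X) with V_x = {zeroOn (B x) R in W}, and
P(V_x,NZ_X) >= P(W,NZ_X) - P(W minus V_x). Hence P(W,NZ_(X+x)) <= (1-2^-M) P(W,NZ_X) + 2^-M P(W minus V_x); and (1-2^-M) <= 1.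
Finally om_sum_le (OMeasA) with P = q: for R in W the set {x in X : zeroOn (B x) R notin W} is contained in the set of the x in X
whose block meets T (hypothesis hq), and touch_card bounds it by q. Measurability: NZ_X is a finite union / complement of om_zero_meas.
-/

namespace Pool.Agent.Work.MP_0532f7_lc.PP

open MeasureTheory

theorem touch_card {α : Type} [DecidableEq α] (X : Finset α) (B : α → Finset (List Bool))
    (hd : ∀ x ∈ X, ∀ x' ∈ X, x ≠ x' → Disjoint (B x) (B x')) (T : Finset (List Bool)) :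
    (X.filter (fun x => ¬ Disjoint (B x) T)).card ≤ T.card := by
  classical
  have h1 : ∀ x ∈ X.filter (fun x => ¬ Disjoint (B x) T), ∃ t, t ∈ B x ∧ t ∈ T := by
    intro x hx
    rw [Finset.mem_filter, Finset.not_disjoint_iff] at hx
    exact hx.2
  choose! f hf using h1
  refine Finset.card_le_card_of_injOn f (fun x hx => (hf x hx).2) ?_
  intro x hx x' hx' he
  by_contra hne
  have h2 := hd x (Finset.mem_of_mem_filter x hx) x' (Finset.mem_of_mem_filter x' hx') hne
  have h3 := (hf x hx).1
  rw [he] at h3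
  exact Finset.disjoint_left.mp h2 h3 (hf x' hx').1

private theorem cov_star {α : Type} [DecidableEq α] (X : Finset α)
    (B : α → Finset (List Bool)) (M : ℕ) (hm : ∀ x ∈ X, (B x).card = M)
    (hd : ∀ x ∈ X, ∀ x' ∈ X, x ≠ x' → Disjoint (B x) (B x'))
    (W : Set (List Bool → Bool)) (hW : MeasurableSet W) :
    randomOracle.real (W ∩ {R | ∃ x ∈ X, ∀ y ∈ B x, R y = false}ᶜ) ≤
      (1 - (1 / 2) ^ M) ^ X.card * randomOracle.real W +
        (1 / 2) ^ M * ∑ x ∈ X, randomOracle.real (W \ {R | zeroOn (B x) R ∈ W}) := by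
  induction X using Finset.induction_on with
  | empty => simp
  | insert x X hx ih =>
    have ih' := ih (fun z hz => hm z (Finset.mem_insert_of_mem hz))
      (fun z hz z' hz' => hd z (Finset.mem_insert_of_mem hz) z' (Finset.mem_insert_of_mem hz'))
    have hxm := hm x (Finset.mem_insert_self _ _)
    obtain ⟨U, hU⟩ : ∃ U : Set (List Bool → Bool), U = {R | ∃ z ∈ X, ∀ y ∈ B z, R y = false} :=
      ⟨_, rfl⟩
    have hUe : U = ⋃ z ∈ X, {R | ∀ y ∈ B z, R y = false} := by
      rw [hU]
      ext R; simp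
    have hUm : MeasurableSet U := by
      rw [hUe]
      exact Finset.measurableSet_biUnion _ (fun z _ => om_zero_meas _)
    rw [← hU] at ih'
    have hUinv : ∀ R, zeroOn (B x) R ∈ U ↔ R ∈ U := by
      intro R
      simp only [hU, Set.mem_ofPred_eq]
      constructor
      · rintro ⟨z, hz, h⟩
        refine ⟨z, hz, fun y hy => ?_⟩
        have h1 := h y hy
        have hxz : x ≠ z := fun e => hx (e ▸ hz)
        have hny : y ∉ B x := fun h2 => Finset.disjoint_left.mp
          (hd x (Finset.mem_insert_self _ _) z (Finset.mem_insert_of_mem hz) hxz) h2 hy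
        unfold zeroOn at h1
        rwa [if_neg hny] at h1
      · rintro ⟨z, hz, h⟩
        refine ⟨z, hz, fun y hy => ?_⟩
        unfold zeroOn
        split_ifs
        · rfl
        · exact h y hy
    have hU' : W ∩ {R | ∃ z ∈ insert x X, ∀ y ∈ B z, R y = false}ᶜ =
        (W ∩ Uᶜ) \ {R | ∀ y ∈ B x, R y = false} := by
      rw [hU]
      ext R
      simp only [Set.mem_inter_iff, Set.mem_compl_iff, Set.mem_ofPred_eq, Set.mem_sdiff,
        Finset.mem_insert, exists_eq_or_imp]
      constructor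
      · rintro ⟨h1, h2⟩
        exact ⟨⟨h1, fun h3 => h2 (Or.inr h3)⟩, fun h3 => h2 (Or.inl h3)⟩
      · rintro ⟨⟨h1, h2⟩, h3⟩
        exact ⟨h1, fun h4 => h4.elim h3 h2⟩
    have hadd := measureReal_inter_add_sdiff (μ := randomOracle) (s := W ∩ Uᶜ)
      (om_zero_meas (B x))
    have hpl := plant (B x) (W ∩ Uᶜ) (hW.inter hUm.compl)
    rw [hxm] at hpl
    rw [← hU', hpl] at hadd
    have hge : randomOracle.real (W ∩ Uᶜ) -
        randomOracle.real (W \ {R | zeroOn (B x) R ∈ W}) ≤
        randomOracle.real {R | zeroOn (B x) R ∈ W ∩ Uᶜ} := by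
      have h1 : W ∩ Uᶜ ⊆ {R | zeroOn (B x) R ∈ W ∩ Uᶜ} ∪
          (W \ {R | zeroOn (B x) R ∈ W}) := by
        rintro R ⟨h2, h3⟩
        by_cases h4 : zeroOn (B x) R ∈ W
        · exact Or.inl ⟨h4, fun h5 => h3 ((hUinv R).1 h5)⟩
        · exact Or.inr ⟨h2, h4⟩
      have h2 := measureReal_mono (μ := randomOracle) h1 (measure_ne_top _ _)
      have h3 := measureReal_union_le (μ := randomOracle)
        {R | zeroOn (B x) R ∈ W ∩ Uᶜ} (W \ {R | zeroOn (B x) R ∈ W})
      linarith
    rw [Finset.card_insert_of_notMem hx, Finset.sum_insert hx]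
    obtain ⟨t, ht⟩ : ∃ t : ℝ, t = (1 / 2) ^ M := ⟨_, rfl⟩
    rw [← ht] at hadd ih' ⊢
    have ht0 : 0 ≤ t := by rw [ht]; positivity
    have ht1 : t ≤ 1 := by
      rw [ht]
      exact pow_le_one₀ (by norm_num) (by norm_num)
    have hs0 : 0 ≤ ∑ x ∈ X, randomOracle.real (W \ {R | zeroOn (B x) R ∈ W}) :=
      Finset.sum_nonneg fun _ _ => measureReal_nonneg
    have h1 := mul_le_mul_of_nonneg_right hge ht0
    have h2 := mul_le_mul_of_nonneg_left ih' (sub_nonneg.2 ht1)
    have h3 : 0 ≤ t * (t * ∑ x ∈ X, randomOracle.real (W \ {R | zeroOn (B x) R ∈ W})) :=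
      mul_nonneg ht0 (mul_nonneg ht0 hs0)
    rw [pow_succ]
    nlinarith

theorem cov {α : Type} [DecidableEq α] (X : Finset α) (B : α → Finset (List Bool)) (M q : ℕ)
    (hm : ∀ x ∈ X, (B x).card = M)
    (hd : ∀ x ∈ X, ∀ x' ∈ X, x ≠ x' → Disjoint (B x) (B x'))
    (W : Set (List Bool → Bool)) (hW : MeasurableSet W)
    (hq : ∀ R ∈ W, ∃ T : Finset (List Bool), T.card ≤ q ∧
      ∀ x ∈ X, Disjoint (B x) T → zeroOn (B x) R ∈ W) :
    randomOracle.real (W ∩ {R | ∃ x ∈ X, ∀ y ∈ B x, R y = false}ᶜ) ≤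
      ((1 - (1 / 2) ^ M) ^ X.card + q * (1 / 2) ^ M) * randomOracle.real W := by
  classical
  have h1 := cov_star X B M hm hd W hW
  have h2 := om_sum_le X q W hW (fun x => {R | zeroOn (B x) R ∈ W})
    (fun x => (zeroOn_measurable (B x)) hW) (fun R hR => by
      obtain ⟨T, hT, hTd⟩ := hq R hR
      have h3 : {x | x ∈ X ∧ R ∉ {R | zeroOn (B x) R ∈ W}} ⊆
          ((X.filter (fun x => ¬ Disjoint (B x) T) : Finset α) : Set α) := by
        rintro x ⟨hx, hx'⟩
        rw [Finset.coe_filter]
        exact ⟨hx, fun h => hx' (hTd x hx h)⟩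
      refine (Set.ncard_le_ncard h3 (Finset.finite_toSet _)).trans ?_
      rw [Set.ncard_coe_finset]
      exact (touch_card X B hd T).trans hT)
  have h3 : (0 : ℝ) ≤ (1 / 2) ^ M := by positivity
  have h4 := mul_le_mul_of_nonneg_left h2 h3
  linarith

end Pool.Agent.Work.MP_0532f7_lc.PP
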