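import Mathlib
import Pool.Agent.Work.MP_0532f7_lc.PP.AdrZ
import Pool.Agent.Work.MP_0532f7_lc.PP.Cov

/-!
The covariance lemma for the two halves. (S-M)

Both from cov with X = adr n (lo s N c) (hi s N c), B = blkW (bM s n N) (card_blkW, adr_disj), card_adr (2^n * bl in both halves),
q = 2 * 2^n / 4^m (natural number division; Nat.le_div_iff_mul_le) and q * (1/2)^M <= 2 * 2^n / 4^m * (1/2)^n = 2 * (1/4)^m because M >= n in both cases.
np: P(W,Zs) = P(W) - P(W, not Zs) >= (1 - (1-2^-M)^K - delta) P(W) = (bt - delta) P(W). co: EH = complement of Zs.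
-/

namespace Pool.Agent.Work.MP_0532f7_lc.PP

open MeasureTheory

private theorem covE_q (n m M : ℕ) (hM : n ≤ M) :
    ((2 * 2 ^ n / 4 ^ m : ℕ) : ℝ) * (1 / 2) ^ M ≤ 2 * (1 / 4) ^ m := by
  have h1 : ((2 * 2 ^ n / 4 ^ m : ℕ) : ℝ) ≤ ((2 * 2 ^ n : ℕ) : ℝ) / ((4 ^ m : ℕ) : ℝ) :=
    Nat.cast_div_le
  have h2 : ((1 : ℝ) / 2) ^ M ≤ (1 / 2) ^ n :=
    pow_le_pow_of_le_one (by norm_num) (by norm_num) hM
  have h3 : ((2 * 2 ^ n / 4 ^ m : ℕ) : ℝ) * (1 / 2) ^ M ≤
      (((2 * 2 ^ n : ℕ) : ℝ) / ((4 ^ m : ℕ) : ℝ)) * (1 / 2) ^ n :=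
    mul_le_mul h1 h2 (by positivity) (by positivity)
  refine h3.trans (le_of_eq ?_)
  push_cast
  have h4 : (2 : ℝ) ^ n * (1 / 2) ^ n = 1 := by
    rw [← mul_pow]
    norm_num
  rw [one_div_pow (4 : ℝ) m]
  calc (2 * 2 ^ n / 4 ^ m : ℝ) * (1 / 2) ^ n = 2 * (1 / 4 ^ m) * (2 ^ n * (1 / 2) ^ n) := by ring
    _ = _ := by rw [h4, mul_one]

private theorem covE_main (s : Bool) (n N m : ℕ) (c : Bool) {W : Set (List Bool → Bool)}
    (hW : MeasurableSet W) (hM : n ≤ bM s n N)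
    (hq : ∀ R ∈ W, ∃ T : Finset (List Bool), 4 ^ m * T.card ≤ 2 * 2 ^ n ∧
      ∀ y ∈ adr n (lo s N c) (hi s N c), Disjoint (blkW (bM s n N) y) T →
        zeroOn (blkW (bM s n N) y) R ∈ W) :
    randomOracle.real (W ∩ (Zs n (bM s n N) (lo s N c) (hi s N c))ᶜ) ≤
      ((1 - (1 / 2) ^ bM s n N) ^ (2 ^ n * bl s N) + 2 * (1 / 4) ^ m) * randomOracle.real W := by
  have hd : ∀ x ∈ adr n (lo s N c) (hi s N c), ∀ x' ∈ adr n (lo s N c) (hi s N c), x ≠ x' →
      Disjoint (blkW (bM s n N) x) (blkW (bM s n N) x') := fun x hx x' hx' hne =>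
    adr_disj hx hx' hne
  have hc : (adr n (lo s N c) (hi s N c)).card = 2 ^ n * bl s N := by
    rw [card_adr]
    congr 1
    cases c
    · simp [lo, hi]
    · simp only [lo, hi, if_true]
      omega
  have h1 := cov (adr n (lo s N c) (hi s N c)) (blkW (bM s n N)) (bM s n N) (2 * 2 ^ n / 4 ^ m)
    (fun x _ => card_blkW _ x) hd W hW (fun R hR => by
      obtain ⟨T, hT, hT'⟩ := hq R hR
      refine ⟨T, ?_, hT'⟩
      rw [Nat.le_div_iff_mul_le (by positivity), mul_comm]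
      exact hT)
  rw [hc] at h1
  refine h1.trans ?_
  have h2 := covE_q n m (bM s n N) hM
  exact mul_le_mul_of_nonneg_right (by linarith) measureReal_nonneg

theorem covE_np (n N m : ℕ) (c : Bool) {W : Set (List Bool → Bool)} (hW : MeasurableSet W)
    (hq : ∀ R ∈ W, ∃ T : Finset (List Bool), 4 ^ m * T.card ≤ 2 * 2 ^ n ∧
      ∀ y ∈ adr n (lo true N c) (hi true N c), Disjoint (blkW (bM true n N) y) T →
        zeroOn (blkW (bM true n N) y) R ∈ W) :
    (bt true n N - 2 * (1 / 4) ^ m) * randomOracle.real W ≤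
      randomOracle.real (W ∩ EH true n N c) := by
  have hM : n ≤ bM true n N := by
    unfold bM
    rw [if_pos rfl]
    omega
  have h1 := covE_main true n N m c hW hM hq
  have hZ : MeasurableSet (Zs n (bM true n N) (lo true N c) (hi true N c)) :=
    (short_Zs n (bM true n N) (lo true N c) (hi true N c)).meas
  have h2 := measureReal_inter_add_sdiff (μ := randomOracle) (s := W) hZ
  rw [Set.sdiff_eq] at h2
  have h3 : EH true n N c = Zs n (bM true n N) (lo true N c) (hi true N c) := rfl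
  have h4 : bt true n N = 1 - (1 - (1 / 2) ^ bM true n N) ^ (2 ^ n * bl true N) := rfl
  rw [h3, h4]
  linarith

theorem covE_co (n N m : ℕ) (c : Bool) {W : Set (List Bool → Bool)} (hW : MeasurableSet W)
    (hq : ∀ R ∈ W, ∃ T : Finset (List Bool), 4 ^ m * T.card ≤ 2 * 2 ^ n ∧
      ∀ y ∈ adr n (lo false N c) (hi false N c), Disjoint (blkW (bM false n N) y) T →
        zeroOn (blkW (bM false n N) y) R ∈ W) :
    randomOracle.real (W ∩ EH false n N c) ≤
      (bt false n N + 2 * (1 / 4) ^ m) * randomOracle.real W := by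
  have hM : n ≤ bM false n N := by
    unfold bM
    rw [if_neg (by decide)]
  exact covE_main false n N m c hW hM hq

end Pool.Agent.Work.MP_0532f7_lc.PP
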