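import Mathlib
import Pool.Agent.Work.MP_0532f7_lc.PP.Beta
import Pool.Agent.Work.MP_0532f7_lc.OSearch

/-!
The error delta = 2 (1/4)^m is much smaller than the probabilities. (S)

For N <= i: bt >= 1/4/(i+1) >= 1/(4 ch i) (ch_ge, bt_ge with n = (ch i)^2 >= 1), and 16 m (1/4)^m tends to 0, so 2 (1/4)^m <= eta/(4 m) for m >= m0
and all m = ch i >= i.
-/

namespace Pool.Agent.Work.MP_0532f7_lc.PP

open MeasureTheory

theorem del_le (s : Bool) {η : ℝ} (hη : 0 < η) : ∃ i0, ∀ i, i0 ≤ i → ∀ N, N ≤ i →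
    2 * (1 / 4 : ℝ) ^ (ch i) ≤ η * bt s (ch i * ch i) N := by
  have h1 : Filter.Tendsto (fun m : ℕ => (m : ℝ) * (1 / 4 : ℝ) ^ m) Filter.atTop (nhds 0) :=
    tendsto_self_mul_const_pow_of_lt_one (by norm_num) (by norm_num)
  have h2 : ∀ᶠ m : ℕ in Filter.atTop, (m : ℝ) * (1 / 4 : ℝ) ^ m < η / 8 :=
    h1.eventually (gt_mem_nhds (by positivity))
  obtain ⟨m0, hm0⟩ := Filter.eventually_atTop.1 h2
  refine ⟨m0, fun i hi N hN => ?_⟩
  have h3 : i + 3 ≤ ch i := ch_ge i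
  have h4 := hm0 (ch i) (by omega)
  have h5 : 1 ≤ ch i * ch i := Nat.mul_pos (by omega) (by omega)
  have h6 := bt_ge s h5 N
  have h7 : ((N : ℝ) + 1) ≤ (ch i : ℝ) := by
    have h8 : N + 1 ≤ ch i := by omega
    exact_mod_cast h8
  have hN0 : (0 : ℝ) < (N : ℝ) + 1 := by positivity
  have hm : (0 : ℝ) < (ch i : ℝ) := by linarith
  have h9 : 1 / 4 / (ch i : ℝ) ≤ bt s (ch i * ch i) N :=
    (div_le_div_of_nonneg_left (by norm_num) hN0 h7).trans h6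
  have h10 : η * (1 / 4 / (ch i : ℝ)) ≤ η * bt s (ch i * ch i) N :=
    mul_le_mul_of_nonneg_left h9 hη.le
  refine le_trans ?_ h10
  rw [mul_div_assoc', le_div_iff₀ hm]
  nlinarith

end Pool.Agent.Work.MP_0532f7_lc.PP
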