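import Mathlib
import Pool.Agent.Work.MP_0532f7_lc.PP.Ora
import Pool.Agent.Work.MP_0532f7_lc.PP.AdrZ

/-!
The events Uac are local and have short certificates. (S)

cert_Uac: given R in Uac with the witness v take T = h.qs A R (un m) union P.qs A R v; card_qs and Good2 (|un m| = m <= 2^m, |v| <= 2^m) give
4^m * T.card <= 2 * 2^(m*m). If R' agrees with R on T, then by run_congr the value h.run A R' (un m) and P.run A R' v are the same. Short: if R and R'
agree up to length 2^(m*m) they agree on T (qs_length).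
-/

namespace Pool.Agent.Work.MP_0532f7_lc.PP

open MeasureTheory

theorem cert_Uac {h P : Mach} {A R : List Bool → Bool} {m : ℕ} (hh : Good2 h m) (hP : Good2 P m)
    (hR : R ∈ Uac h P A m) : ∃ T : Finset (List Bool), 4 ^ m * T.card ≤ 2 * 2 ^ (m * m) ∧
      (∀ w ∈ T, w.length ≤ 2 ^ (m * m)) ∧
      ∀ R' : List Bool → Bool, (∀ w ∈ T, R w = R' w) → R' ∈ Uac h P A m := by
  obtain ⟨v, hv, h1, h2⟩ := hR
  have hm : (un m).length ≤ 2 ^ m := by
    rw [un_length]
    exact Nat.lt_two_pow_self.le
  refine ⟨h.qs A R (un m) ∪ P.qs A R v, ?_, ?_, ?_⟩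
  · have e1 := (hh _ hm).1
    have e2 := (hP _ hv).1
    have e3 := card_qs h A R (un m)
    have e4 := card_qs P A R v
    calc 4 ^ m * (h.qs A R (un m) ∪ P.qs A R v).card
        ≤ 4 ^ m * ((h.C (un m)).length + (P.C v).length) :=
          Nat.mul_le_mul_left _ ((Finset.card_union_le _ _).trans (Nat.add_le_add e3 e4))
      _ = 4 ^ m * (h.C (un m)).length + 4 ^ m * (P.C v).length := by ring
      _ ≤ 2 ^ (m * m) + 2 ^ (m * m) := Nat.add_le_add e1 e2
      _ = 2 * 2 ^ (m * m) := by ring
  · intro w hw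
    rcases Finset.mem_union.mp hw with hw | hw
    · exact qs_length hh A R hm w hw
    · exact qs_length hP A R hv w hw
  · intro R' hR'
    refine ⟨v, hv, ?_, ?_⟩
    · rw [(run_congr h A R R' (un m) fun w hw => hR' w (Finset.mem_union_left _ hw)).1]
      exact h1
    · rw [(run_congr P A R R' v fun w hw => hR' w (Finset.mem_union_right _ hw)).1]
      exact h2

theorem short_Uac {h P : Mach} (A : List Bool → Bool) {m : ℕ} (hh : Good2 h m)
    (hP : Good2 P m) : Short (2 ^ (m * m)) (Uac h P A m) := by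
  intro R R' hA hR
  obtain ⟨T, -, hT, hT'⟩ := cert_Uac hh hP hR
  exact hT' R' fun w hw => hA w (hT w hw)

end Pool.Agent.Work.MP_0532f7_lc.PP
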