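import Mathlib
import Pool.Agent.Work.MP_0532f7_lc.PP.UacL

/-!
All the events of the three cases are local. (S-M)

ColN, ColC, ColU: the computations on words v with |v| <= 2^m ask only words of length <= 2^(m*m) (qs_length, run_congr), so their values are the same for R and R'
(Agr.symm for the negative statements in ColC; k does not depend on R). FailN, FailC, FailU: short_Uac, short_EH2 (m >= 3, N <= m), Short.compl, cases.
-/

namespace Pool.Agent.Work.MP_0532f7_lc.PP

open MeasureTheory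

private theorem run_agr {P : Mach} {m : ℕ} (hG : Good2 P m) (A : List Bool → Bool)
    {R R' : List Bool → Bool} (hA : Agr (2 ^ (m * m)) R R') {v : List Bool}
    (hv : v.length ≤ 2 ^ m) : P.run A R' v = P.run A R v :=
  (run_congr P A R R' v (fun w hw => hA w (qs_length hG A R hv w hw))).1

theorem short_ColN {P : Bool → Mach} (A : List Bool → Bool) {m : ℕ} (hP : ∀ c, Good2 (P c) m) :
    Short (2 ^ (m * m)) (ColN P A m) := by
  rintro R R' hA ⟨v, v', h1, h2, h3, h4, h5⟩
  exact ⟨v, v', h1, h2, h3, (run_agr (hP false) A hA h1).trans h4,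
    (run_agr (hP true) A hA h2).trans h5⟩

theorem short_ColC {P : Bool → Mach} (k : List Bool → List Bool) (A : List Bool → Bool) {m : ℕ}
    (hP : ∀ c, Good2 (P c) m) : Short (2 ^ (m * m)) (ColC P k A m) := by
  rintro R R' hA ⟨z, h1, h2⟩
  refine ⟨z, h1, fun c v hv hz h3 => h2 c v hv hz ?_⟩
  rw [← run_agr (hP c) A hA hv]
  exact h3

theorem short_ColU {P : Mach} (A : List Bool → Bool) {m : ℕ} (hP : Good2 P m) :
    Short (2 ^ (m * m)) (ColU P A m) := by
  rintro R R' hA ⟨v, v', h1, h2, h3, h4, h5, h6⟩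
  exact ⟨v, v', h1, h2, h3, h4, (run_agr hP A hA h1).trans h5, (run_agr hP A hA h2).trans h6⟩

theorem short_FailN {h : Mach} {P : Bool → Mach} (A : List Bool → Bool) {m N : ℕ} (hm : 3 ≤ m)
    (hN : N ≤ m) (hh : Good2 h m) (hP : ∀ c, Good2 (P c) m) :
    Short (2 ^ (m * m)) (FailN h P A m N) := by
  rintro R R' hA ⟨c, h1, h2⟩
  exact ⟨c, short_EH2 true hm hN c R R' hA h1,
    (short_Uac A hh (hP c)).compl R R' hA h2⟩

theorem short_FailC {h : Mach} {P : Bool → Mach} (A : List Bool → Bool) {m N : ℕ} (hm : 3 ≤ m)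
    (hN : N ≤ m) (hh : Good2 h m) (hP : ∀ c, Good2 (P c) m) :
    Short (2 ^ (m * m)) (FailC h P A m N) := by
  rintro R R' hA ⟨c, h1, h2⟩
  exact ⟨c, short_EH2 false hm hN c R R' hA h1, short_Uac A hh (hP c) R R' hA h2⟩

theorem short_FailU {h P : Mach} (A : List Bool → Bool) {m N : ℕ} (hm : 3 ≤ m)
    (hN : N ≤ m) (hh : Good2 h m) (hP : Good2 P m) :
    Short (2 ^ (m * m)) (FailU h P A m N) := by
  rintro R R' hA (⟨⟨c, h1⟩, h2⟩ | ⟨h1, h2⟩)
  · exact Or.inl ⟨⟨c, short_EH2 true hm hN c R R' hA h1⟩,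
      (short_Uac A hh hP).compl R R' hA h2⟩
  · exact Or.inr ⟨fun c => (short_EH2 true hm hN c).compl R R' hA (h1 c),
      short_Uac A hh hP R R' hA h2⟩

end Pool.Agent.Work.MP_0532f7_lc.PP
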