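import Mathlib
import Pool.Agent.Work.MP_0532f7_lc.PP.Ind
import Pool.Agent.Work.MP_0532f7_lc.PP.CovE
import Pool.Agent.Work.MP_0532f7_lc.PP.UacL
import Pool.Agent.Work.MP_0532f7_lc.PP.Del
import Pool.Agent.Work.MP_0532f7_lc.PP.ShortC
import Pool.Agent.Work.MP_0532f7_lc.PP.MachC

/-!
Hypothesis (K) for coNP pairs. (M)

As KN.lean with s = false and covE_co. kc1: for the half c let U = Uac h (P c) A m, W = Al inter E c inter U; covE_co for the half !c:
P(Al,E2,U) = P(W,E !c) <= (b + del) P(W) <= (b + del) P(Al,FailC).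
kc: take i0 with Good2 for all, del = 2 (1/4)^(ch i) <= b (del_le with eta = 1), and 2 |z| + 2 + |k z| <= 2^(ch i) for z = h.run A R (un (ch i)) for all R
(run_length: |z| <= p(ch i); |k z| <= q(|z|) (FP.length); a polynomial in m is at most 2^m for large m: poly_pow_le' of OMain3.lean). If R is in E2 and not in ColC,
then z = h.run A R (un m) is not a witness for ColC, so there are c, v with |v| <= 2^m, fs v = z, (P c).run A R v = [true]: R in Uac h (P c) A m. Hence
P(Al,E2,not ColC) <= sum over c of P(Al,E2,Uac h (P c)) <= 2 (b+del) P(Al,FailC) <= 4 b P(Al,FailC).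
-/

namespace Pool.Agent.Work.MP_0532f7_lc.PP

open MeasureTheory

theorem kc1 {h : Mach} {P : Bool → Mach} (A : List Bool → Bool) {m N : ℕ} (hm : 3 ≤ m)
    (hN : N ≤ m) (hh : Good2 h m) (hP : ∀ c, Good2 (P c) m) (c : Bool)
    {Al : Set (List Bool → Bool)} (hAl : Short m Al) :
    randomOracle.real (Al ∩ E2 false (m * m) N ∩ Uac h (P c) A m) ≤
      (bt false (m * m) N + 2 * (1 / 4) ^ m) * randomOracle.real (Al ∩ FailC h P A m N) := by
  have hn1 : 1 ≤ m * m := Nat.mul_pos (by omega) (by omega)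
  have hmn : m ≤ m * m := Nat.le_mul_self m
  obtain ⟨W, hWd⟩ : ∃ W, W = Al ∩ EH false (m * m) N c ∩ Uac h (P c) A m := ⟨_, rfl⟩
  have hW : MeasurableSet W := by
    rw [hWd]
    exact ((hAl.meas.inter (short_EH2 false hm hN c).meas).inter (short_Uac A hh (hP c)).meas)
  have hcov := covE_co (m * m) N m (!c) hW (fun R hR => by
    rw [hWd] at hR
    obtain ⟨T, hT1, -, hT3⟩ := cert_Uac hh (hP c) hR.2
    refine ⟨T, hT1, fun y hy hd => ?_⟩
    rw [hWd]
    refine ⟨⟨(hAl.zero_iff hy hmn R).2 hR.1.1, ?_⟩, hT3 _ fun w hw => ?_⟩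
    · have h1 := EH_zero false (m * m) N (bM false (m * m) N) (!c) hy R
      rw [Bool.not_not] at h1
      exact h1.2 hR.1.2
    · unfold zeroOn
      rw [if_neg (fun h1 => Finset.disjoint_left.mp hd h1 hw)])
  have hsub1 : Al ∩ E2 false (m * m) N ∩ Uac h (P c) A m ⊆ W ∩ EH false (m * m) N (!c) := by
    rw [hWd]
    rintro R ⟨⟨h1, h2, h3⟩, h4⟩
    cases c
    · exact ⟨⟨⟨h1, h2⟩, h4⟩, h3⟩
    · exact ⟨⟨⟨h1, h3⟩, h4⟩, h2⟩
  have hsub2 : W ⊆ Al ∩ FailC h P A m N := by
    rw [hWd]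
    rintro R ⟨⟨h1, h2⟩, h3⟩
    exact ⟨h1, c, h2, h3⟩
  have h1 := measureReal_mono (μ := randomOracle) hsub1 (measure_ne_top _ _)
  have h2 := measureReal_mono (μ := randomOracle) hsub2 (measure_ne_top _ _)
  have h3 : 0 ≤ bt false (m * m) N + 2 * (1 / 4) ^ m := by
    have := bt_pos false hn1 N
    positivity
  exact h1.trans (hcov.trans (mul_le_mul_of_nonneg_left h2 h3))

theorem kc {h : Mach} {P : Bool → Mach} (hh : h.ok) (hP : ∀ c, (P c).ok)
    {k : List Bool → List Bool} (hk : FP k) (A : List Bool → Bool) (η : ℝ) (hη : 0 < η) :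
    ∃ i0 n0 : ℕ, ∀ i, i0 ≤ i → ∀ N, n0 ≤ N → N ≤ i →
      ∀ Al : Set (List Bool → Bool), Short (ch i) Al →
        randomOracle.real (Al ∩ E2 false (ch i * ch i) N ∩ (ColC P k A (ch i))ᶜ) ≤
          bt false (ch i * ch i) N * (4 * randomOracle.real (Al ∩ FailC h P A (ch i) N) +
            η * bt false (ch i * ch i) N * randomOracle.real Al) := by
  obtain ⟨m1, hm1⟩ := exists_good2 hh
  obtain ⟨m2, hm2⟩ := exists_good2 (hP false)
  obtain ⟨m3, hm3⟩ := exists_good2 (hP true)
  obtain ⟨i1, hi1⟩ := del_le false (one_pos : (0 : ℝ) < 1)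
  obtain ⟨p, hp⟩ := run_length hh
  obtain ⟨q, hq⟩ := hk.length
  obtain ⟨m4, hm4⟩ := poly_pow_le' (2 * p + 2 + q.comp p)
  refine ⟨m1 + m2 + m3 + m4 + i1, 0, fun i hi N _ hNi Al hAl => ?_⟩
  have hchi : i + 3 ≤ ch i := ch_ge i
  obtain ⟨m, hmd⟩ : ∃ m, m = ch i := ⟨_, rfl⟩
  have hdel := hi1 i (by omega) N hNi
  rw [← hmd] at hAl hchi hdel ⊢
  have hm : 3 ≤ m := by omega
  have hN : N ≤ m := by omega
  have hG : Good2 h m := hm1 m (by omega)
  have hGP : ∀ c, Good2 (P c) m := by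
    intro c
    cases c
    · exact hm2 m (by omega)
    · exact hm3 m (by omega)
  have hn1 : 1 ≤ m * m := Nat.mul_pos (by omega) (by omega)
  have hb := bt_pos false hn1 N
  have hf0 : 0 ≤ randomOracle.real (Al ∩ FailC h P A m N) := measureReal_nonneg
  have hsub : Al ∩ E2 false (m * m) N ∩ (ColC P k A m)ᶜ ⊆
      (Al ∩ E2 false (m * m) N ∩ Uac h (P false) A m) ∪
        (Al ∩ E2 false (m * m) N ∩ Uac h (P true) A m) := by
    rintro R ⟨h1, h2⟩
    by_contra hcon
    apply h2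
    refine ⟨h.run A R (un m), ?_, fun c v hv hfs hr => ?_⟩
    · have e1 := hp A R (un m)
      have e2 := hq (h.run A R (un m))
      have e3 := hm4 m (by omega)
      have e4 : (un m).length = m := by simp [un]
      rw [e4] at e1
      have e5 : q.eval (h.run A R (un m)).length ≤ q.eval (p.eval m) := by
        exact pmono q e1
      simp only [Polynomial.eval_add, Polynomial.eval_mul, Polynomial.eval_comp,
        Polynomial.eval_ofNat] at e3
      omega
    · apply hcon
      cases c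
      · exact Or.inl ⟨h1, v, hv, hfs, hr⟩
      · exact Or.inr ⟨h1, v, hv, hfs, hr⟩
  have e1 := measureReal_mono (μ := randomOracle) hsub (measure_ne_top _ _)
  have e2 := measureReal_union_le (μ := randomOracle)
    (Al ∩ E2 false (m * m) N ∩ Uac h (P false) A m)
    (Al ∩ E2 false (m * m) N ∩ Uac h (P true) A m)
  have e3 := kc1 A hm hN hG hGP false hAl
  have e4 := kc1 A hm hN hG hGP true hAl
  rw [one_mul] at hdel
  have e5 : (bt false (m * m) N + 2 * (1 / 4) ^ m) *
      randomOracle.real (Al ∩ FailC h P A m N) ≤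
      (2 * bt false (m * m) N) * randomOracle.real (Al ∩ FailC h P A m N) :=
    mul_le_mul_of_nonneg_right (by linarith) hf0
  have e6 : 0 ≤ bt false (m * m) N * (η * bt false (m * m) N * randomOracle.real Al) :=
    mul_nonneg hb.le (mul_nonneg (mul_nonneg hη.le hb.le) measureReal_nonneg)
  rw [mul_add]
  linarith

end Pool.Agent.Work.MP_0532f7_lc.PP
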