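import Mathlib
import Pool.Agent.Work.MP_0532f7_lc.PP.AdrZ
import Pool.Agent.Work.MP_0532f7_lc.OMain2

/-!
Counting tables and probabilities. (S-M)

ocyl_count (OMeasB.lean) with t = tl m - σ.length, σ.length + t = tl m, once for W = E2 s (m*m) N, P T = (look T in W), and once for
W = E2 s (m*m) N inter Col, P T = (look T in E2 s (m*m) N and P T). Its hypothesis: R in W iff look (tab R (tl m)) in W, because R and
look (tab R (tl m)) agree up to length 2^(m*m) (look_tab; val y < tl m for |y| <= 2^(m*m), see key in lookJ_tab) and W is Short (2^(m*m)) (short_E2, hCol). In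
the second the words T = σ ++ b have length tl m, so hP applies. Then both sides of Cond are the numbers times (1/2)^(tl m); cancel (as in condT_iff of
OMain.lean). ocyl σ inter E2 is E2 inter ocyl σ (Set.inter_comm).
-/

namespace Pool.Agent.Work.MP_0532f7_lc.PP

open MeasureTheory

theorem cond_iff (s : Bool) (σ : List Bool) {m N : ℕ} (hm : 3 ≤ m) (hN : N ≤ m)
    {Col : Set (List Bool → Bool)} (hCol : Short (2 ^ (m * m)) Col) (hσ : σ.length ≤ tl m)
    (P : List Bool → Prop) (hP : ∀ T : List Bool, T.length = tl m → (P T ↔ look T ∈ Col)) :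
    (Set.ncard {b : List Bool | b.length = tl m - σ.length ∧
        look (σ ++ b) ∈ E2 s (m * m) N} ≤
      2 * Set.ncard {b : List Bool | b.length = tl m - σ.length ∧
        look (σ ++ b) ∈ E2 s (m * m) N ∧ P (σ ++ b)}) ↔
      Cond s σ (m * m) N Col := by
  have e : σ.length + (tl m - σ.length) = tl m := by omega
  have agr : ∀ R : List Bool → Bool, Agr (2 ^ (m * m)) R (look (tab R (tl m))) := by
    intro R y hy
    refine (look_tab R (tl m) y ?_).symm
    have h1 := val_lt hy
    unfold tl
    omega
  have mem : ∀ {W : Set (List Bool → Bool)}, Short (2 ^ (m * m)) W → ∀ R : List Bool → Bool,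
      (R ∈ W ↔ look (tab R (tl m)) ∈ W) := fun {W} hW R =>
    ⟨hW _ _ (agr R), hW _ _ (agr R).symm⟩
  have h1 := ocyl_count σ (tl m - σ.length) (E2 s (m * m) N)
    (fun T => look T ∈ E2 s (m * m) N) (fun R _ => by
      rw [e]; exact mem (short_E2 s hm hN) R)
  have h2 := ocyl_count σ (tl m - σ.length) (E2 s (m * m) N ∩ Col)
    (fun T => look T ∈ E2 s (m * m) N ∧ P T) (fun R _ => by
      rw [e, Set.mem_inter_iff, mem (short_E2 s hm hN) R, mem hCol R,
        hP _ (omb_tab_length R (tl m))])
  rw [e] at h1 h2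
  unfold Cond
  rw [Set.inter_right_comm (ocyl σ), Set.inter_assoc (ocyl σ),
    Set.inter_comm (ocyl σ) (Col ∩ E2 s (m * m) N), Set.inter_comm Col,
    Set.inter_comm (ocyl σ), h1, h2, ← mul_assoc, mul_le_mul_iff_left₀ (by positivity)]
  exact_mod_cast Iff.rfl

end Pool.Agent.Work.MP_0532f7_lc.PP
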