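import Mathlib
import Pool.Agent.Work.MP_0532f7_lc.PP.Par
import Pool.Agent.Work.MP_0532f7_lc.PP.AdrT
import Pool.Agent.Work.MP_0532f7_lc.PP.AdrZ

/-!
The events on tables: brute force. (M)

look T is the oracle given by the table T. Zero block at y: for all j < M: look T (y ++ un j) = false: this is
lst p (pr T y) M = M for p z = look (fs (fs z)) (sn (fs z) ++ sn z) (FPb.lookI, FP.lstI, lst_spec; blkW M y consists of the y ++ un j, mem_blkW),
tested by decide (un (lst ..) = un M). Zs: exists y in adr n a b with a zero block: exb (OSim.lean) over the words num i, i < k.length, of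
(address test of AdrT) && (zero block test): exb_iff; an address y has |y| <= n + b (adr_len), so val y < 2^(n+b+1) <= k.length for b <= hi s N true
(val_lt), y = num (val y). Both halves: lo s N false = 0, hi s N false = bl s N = lo s N true, hi s N true = 2 bl s N (Par.lean for FP). E2 by s: && of the two tests
or of their negations.
-/

namespace Pool.Agent.Work.MP_0532f7_lc.PP

open MeasureTheory

/-- test of a letter of the block -/
private def ztQ (z : List Bool) : Bool := look (fs (fs z)) (sn (fs z) ++ sn z)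

private theorem FPb.ztQI : FPb ztQ := FPb.lookI FP.fsI.fst (FP.fsI.snd.app FP.snI)

private theorem lst_eq_iff (q : List Bool → Bool) (c : List Bool) (K : ℕ) :
    lst q c K = K ↔ ∀ j < K, q (pr c (un j)) = false := by
  obtain ⟨h1, h2, h3⟩ := lst_spec q c K
  constructor
  · intro h j hj
    exact h2 j (by omega)
  · intro h
    by_contra h4
    have h5 : lst q c K < K := by omega
    have h6 := h3 h5
    rw [h _ h5] at h6
    exact absurd h6 (by decide)

/-- the argument is `pr (pr T (pr par mm)) y` -/
private def ztP (t : List Bool → Bool) (w : List Bool) : Bool :=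
  t (pr (fs (sn (fs w))) (sn w)) &&
    decide (un (lst ztQ (pr (fs (fs w)) (sn w)) (sn (sn (fs w))).length) =
      un (sn (sn (fs w))).length)

private theorem FPb.ztPI {t : List Bool → Bool} (ht : FPb t) : FPb (ztP t) :=
  (ht.comp (FP.pair FP.fsI.snd.fst FP.snI)).and
    (FPb.eq (FP.lstI FPb.ztQI (FP.pair FP.fsI.fst FP.snI) FP.fsI.snd.snd)
      (FP.unL FP.fsI.snd.snd))

private theorem ztP_iff {t : List Bool → Bool}
    (ht : ∀ (n a b : ℕ) (y : List Bool),
      t (pr (pr (un n) (pr (un a) (un b))) y) = true ↔ y ∈ adr n a b)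
    (T y : List Bool) (n a b M : ℕ) :
    ztP t (pr (pr T (pr (pr (un n) (pr (un a) (un b))) (un M))) y) = true ↔
      y ∈ adr n a b ∧ ∀ w ∈ blkW M y, look T w = false := by
  unfold ztP
  simp only [fs_pr, sn_pr, Bool.and_eq_true, decide_eq_true_eq, un_length]
  rw [ht, un_eq_iff, lst_eq_iff]
  refine and_congr Iff.rfl ⟨fun h w hw => ?_, fun h j hj => ?_⟩
  · obtain ⟨j, hj, rfl⟩ := mem_blkW.mp hw
    have := h j hj
    unfold ztQ at this
    simp only [fs_pr, sn_pr] at this
    exact this
  · unfold ztQ
    simp only [fs_pr, sn_pr]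
    exact h _ (mem_blkW.mpr ⟨j, hj, rfl⟩)

private theorem zt_exb {t : List Bool → Bool}
    (ht : ∀ (n a b : ℕ) (y : List Bool),
      t (pr (pr (un n) (pr (un a) (un b))) y) = true ↔ y ∈ adr n a b)
    (T : List Bool) (n a b M K : ℕ) (hK : 2 ^ (n + b + 1) ≤ K) :
    exb (ztP t) (pr T (pr (pr (un n) (pr (un a) (un b))) (un M))) K = true ↔
      look T ∈ Zs n M a b := by
  rw [exb_iff]
  constructor
  · rintro ⟨i, _, h⟩
    rw [ztP_iff ht] at h
    exact ⟨_, h.1, h.2⟩
  · rintro ⟨y, hy, h⟩
    refine ⟨val y, ?_, ?_⟩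
    · have := val_lt (adr_len hy).2
      omega
    · rw [num_val, ztP_iff ht]
      exact ⟨hy, h⟩

/-- the context of the half `c` -/
private def ztC (s c : Bool) (x : List Bool) : List Bool :=
  pr (fs (fs x)) (pr (pr (fs (sn x)) (pr (un (lo s (sn (sn x)).length c))
    (un (hi s (sn (sn x)).length c)))) (un (bM s (fs (sn x)).length (sn (sn x)).length)))

private theorem FP.ztCI (s c : Bool) : FP (ztC s c) :=
  FP.pair FP.fsI.fst (FP.pair (FP.pair FP.snI.fst (FP.pair (FP.loI s c FP.snI.snd)
    (FP.hiI s c FP.snI.snd))) (FP.bMI s FP.snI.fst FP.snI.snd))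

/-- the test of the half `c` -/
private def ztH (t : List Bool → Bool) (s c : Bool) (x : List Bool) : Bool :=
  if s then exb (ztP t) (ztC s c x) (sn (fs x)).length
  else !exb (ztP t) (ztC s c x) (sn (fs x)).length

private theorem FPb.ztHI {t : List Bool → Bool} (ht : FPb t) (s c : Bool) : FPb (ztH t s c) := by
  have h := FPb.exbI (FPb.ztPI ht) (FP.ztCI s c) FP.fsI.snd
  unfold ztH
  cases s
  · exact h.not
  · exact h

private theorem ztH_iff {t : List Bool → Bool}
    (ht : ∀ (n a b : ℕ) (y : List Bool),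
      t (pr (pr (un n) (pr (un a) (un b))) y) = true ↔ y ∈ adr n a b)
    (s c : Bool) (T k : List Bool) (n N : ℕ) (hk : 2 ^ (n + hi s N c + 1) ≤ k.length) :
    ztH t s c (pr (pr T k) (pr (un n) (un N))) = true ↔ look T ∈ EH s n N c := by
  have h := zt_exb ht T n (lo s N c) (hi s N c) (bM s n N) k.length hk
  unfold ztH ztC EH
  simp only [fs_pr, sn_pr, un_length]
  cases s
  · simp only [Bool.false_eq_true, if_false, Bool.not_eq_true', Set.mem_compl_iff] at h ⊢
    rw [← h]
    simp
  · simp only [if_true] at h ⊢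
    exact h

private theorem hi_le (s : Bool) (N : ℕ) (c : Bool) : hi s N c ≤ hi s N true := by
  unfold hi
  cases c
  · simp only [Bool.false_eq_true, if_false, if_true]
    omega
  · exact le_rfl

theorem exists_e2 (s : Bool) : ∃ e : List Bool → Bool, FPb e ∧ ∀ (T k : List Bool) (n N : ℕ),
    2 ^ (n + hi s N true + 2) ≤ k.length →
      (e (pr (pr T k) (pr (un n) (un N))) = true ↔ look T ∈ E2 s n N) := by
  obtain ⟨t, htf, ht⟩ := exists_adt
  refine ⟨fun x => ztH t s false x && ztH t s true x, (FPb.ztHI htf s false).and (FPb.ztHI htf s true),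
    fun T k n N hk => ?_⟩
  have h1 : ∀ c, 2 ^ (n + hi s N c + 1) ≤ k.length := fun c =>
    (Nat.pow_le_pow_right (by norm_num) (by have := hi_le s N c; omega)).trans hk
  rw [Bool.and_eq_true, ztH_iff ht s false T k n N (h1 _), ztH_iff ht s true T k n N (h1 _)]
  rfl

end Pool.Agent.Work.MP_0532f7_lc.PP
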