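import Mathlib
import Pool.Agent.Work.MP_0532f7_lc.PP.ZT
import Pool.Agent.Work.MP_0532f7_lc.OSearch

/-!
The condition, computed by brute force over all tables that extend σ. (M)

As p2, ctx2, p3, p3_iff of OSearch.lean (read them first). n = m*m. Inner tests on z = pr c b (b a word, c a context containing TA, σ, k, un t with
t = tl m - σ.length, un m, un N, un (m*m)): p z = (un b.length = un t) && e (pr (pr (σ ++ b) k) (pr (un (m*m)) (un N))) with e from exists_e2, and
p' z = p z && col (pr (pr TA (σ ++ b)) (pr k (un m))). d z = the test cnt p c K <= 2 cnt p' c K, K = k.length: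
((un (cnt p ..)).drop (un (cnt p' ..) ++ un (cnt p' ..)).length).isEmpty. FP.cntI, cnt_ncard; un (tl m - σ.length) is tlS σ k (un m) (tlS_eq);
for b of length t: val b + 1 < 2^(t+1) <= 2^(tl m + 1) <= EE m <= k.length. The bound 2^(m*m + hi s N true + 2) <= k.length needed for exists_e2: hi s N true <=
|num N| + 2 <= m + 2 (num_length) and m*m + m + 4 <= 2^(2^(m*m)+1) for m >= 3, so it is at most EE m.
-/

namespace Pool.Agent.Work.MP_0532f7_lc.PP

open MeasureTheory

private def ctCtx (x : List Bool) : List Bool :=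
  pr (fs x) (pr (tlS (sn (fs (fs x))) (sn (fs x)) (fs (sn x))) (sn x))

private theorem FP_ctCtx : FP ctCtx :=
  FP.pair FP.fsI (FP.pair (FP.tlSI FP.fsI.fst.snd FP.fsI.snd FP.snI.fst) FP.snI)

private def ctP (e : List Bool → Bool) (z : List Bool) : Bool :=
  decide (un (sn z).length = fs (sn (fs z))) &&
    e (pr (pr (sn (fs (fs (fs z))) ++ sn z) (sn (fs (fs z))))
      (pr (un ((fs (sn (sn (fs z)))).length * (fs (sn (sn (fs z)))).length)) (sn (sn (sn (fs z))))))

private theorem FPb_ctP {e : List Bool → Bool} (he : FPb e) : FPb (ctP e) :=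
  (FPb.eq (FP.unL FP.snI) FP.fsI.snd.fst).and
    (he.comp (FP.pair (FP.pair (FP.fsI.fst.fst.snd.app FP.snI) FP.fsI.fst.snd)
      (FP.pair (FP.mulU FP.fsI.snd.snd.fst FP.fsI.snd.snd.fst) FP.fsI.snd.snd.snd)))

private def ctP' (e col : List Bool → Bool) (z : List Bool) : Bool :=
  ctP e z && col (pr (pr (fs (fs (fs (fs z)))) (sn (fs (fs (fs z))) ++ sn z))
    (pr (sn (fs (fs z))) (fs (sn (sn (fs z))))))

private theorem FPb_ctP' {e col : List Bool → Bool} (he : FPb e) (hcol : FPb col) : FPb (ctP' e col) :=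
  (FPb_ctP he).and (hcol.comp (FP.pair (FP.pair FP.fsI.fst.fst.fst (FP.fsI.fst.fst.snd.app FP.snI))
    (FP.pair FP.fsI.fst.snd FP.fsI.snd.snd.fst)))

private theorem ctP_iff {s : Bool} {e : List Bool → Bool}
    (he : ∀ (T k : List Bool) (n N : ℕ), 2 ^ (n + hi s N true + 2) ≤ k.length →
      (e (pr (pr T k) (pr (un n) (un N))) = true ↔ look T ∈ E2 s n N))
    (TA σ k b : List Bool) (t m N : ℕ) (hk : 2 ^ (m * m + hi s N true + 2) ≤ k.length) :
    ctP e (pr (pr (pr (pr TA σ) k) (pr (un t) (pr (un m) (un N)))) b) = true ↔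
      b.length = t ∧ look (σ ++ b) ∈ E2 s (m * m) N := by
  unfold ctP
  simp only [fs_pr, sn_pr, Bool.and_eq_true, decide_eq_true_eq, un_length]
  rw [he (σ ++ b) k (m * m) N hk, un_eq_iff]

private theorem ctP'_iff {s : Bool} {e : List Bool → Bool} (col : List Bool → Bool)
    (he : ∀ (T k : List Bool) (n N : ℕ), 2 ^ (n + hi s N true + 2) ≤ k.length →
      (e (pr (pr T k) (pr (un n) (un N))) = true ↔ look T ∈ E2 s n N))
    (TA σ k b : List Bool) (t m N : ℕ) (hk : 2 ^ (m * m + hi s N true + 2) ≤ k.length) :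
    ctP' e col (pr (pr (pr (pr TA σ) k) (pr (un t) (pr (un m) (un N)))) b) = true ↔
      b.length = t ∧ look (σ ++ b) ∈ E2 s (m * m) N ∧
        col (pr (pr TA (σ ++ b)) (pr k (un m))) = true := by
  unfold ctP'
  rw [Bool.and_eq_true, ctP_iff he TA σ k b t m N hk, and_assoc]
  simp only [fs_pr, sn_pr]

private theorem ct_bound (s : Bool) {m N : ℕ} (hm : 3 ≤ m) (hN : N ≤ m) :
    2 ^ (m * m + hi s N true + 2) ≤ EE m := by
  have h1 : hi s N true ≤ m + 2 := by
    unfold hi bl
    have h2 := num_length N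
    cases s
    · simp only [if_true]
      simp only [Bool.false_eq_true, if_false]
      omega
    · simp only [if_true]
      omega
  unfold EE
  apply Nat.pow_le_pow_right (by omega)
  have h3 : m * m < 2 ^ (m * m) := Nat.lt_two_pow_self
  have h4 : 2 ^ (m * m + 2) ≤ 2 ^ (2 ^ (m * m) + 1) := Nat.pow_le_pow_right (by omega) (by omega)
  have h5 : 2 ^ (m * m + 2) = 4 * 2 ^ (m * m) := by rw [pow_add]; ring
  have h6 : 3 * m ≤ m * m := Nat.mul_le_mul_right m hm
  omega

private theorem ct_cnt (q : List Bool → Bool) (c : List Bool) (K t : ℕ) (P : List Bool → Prop)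
    (h : ∀ b, q (pr c b) = true ↔ b.length = t ∧ P b) (ht : 2 ^ (t + 1) ≤ K + 1) :
    cnt q c K = Set.ncard {b : List Bool | b.length = t ∧ P b} := by
  rw [cnt_ncard]
  congr 1
  ext b
  simp only [Set.mem_ofPred_eq]
  rw [h b]
  constructor
  · rintro ⟨_, h1⟩
    exact h1
  · rintro ⟨h1, h2⟩
    refine ⟨?_, h1, h2⟩
    have := val_lt h1.le
    omega

theorem exists_cond (s : Bool) {col : List Bool → Bool} (hcol : FPb col) :
    ∃ d : List Bool → Bool, FPb d ∧ ∀ (TA σ k : List Bool) (m N : ℕ), 3 ≤ m → N ≤ m →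
      EE m ≤ k.length →
      (d (pr (pr (pr TA σ) k) (pr (un m) (un N))) = true ↔
        Set.ncard {b : List Bool | b.length = tl m - σ.length ∧
          look (σ ++ b) ∈ E2 s (m * m) N} ≤
        2 * Set.ncard {b : List Bool | b.length = tl m - σ.length ∧
          look (σ ++ b) ∈ E2 s (m * m) N ∧
          col (pr (pr TA (σ ++ b)) (pr k (un m))) = true}) := by
  obtain ⟨e, hFe, he⟩ := exists_e2 s
  refine ⟨fun x => ((un (cnt (ctP e) (ctCtx x) (sn (fs x)).length)).drop
    (un (cnt (ctP' e col) (ctCtx x) (sn (fs x)).length) ++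
      un (cnt (ctP' e col) (ctCtx x) (sn (fs x)).length)).length).isEmpty, ?_, ?_⟩
  · have h2 := FP.cntI (FPb_ctP' hFe hcol) FP_ctCtx FP.fsI.snd
    exact FPb.isNil.comp (FP.drop (h2.app h2) (FP.cntI (FPb_ctP hFe) FP_ctCtx FP.fsI.snd))
  · intro TA σ k m N hm hN hk
    have hb := (ct_bound s hm hN).trans hk
    have hec : ctCtx (pr (pr (pr TA σ) k) (pr (un m) (un N))) =
        pr (pr (pr TA σ) k) (pr (un (tl m - σ.length)) (pr (un m) (un N))) := by
      unfold ctCtx
      simp only [fs_pr, sn_pr]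
      rw [tlS_eq σ k (un m) (by rw [un_length]; exact hk), un_length]
    have h1 : 2 ^ (tl m + 1) ≤ EE m := Nat.pow_le_pow_right (by omega) (tl_lt m)
    have h4 : 2 ^ (tl m - σ.length + 1) ≤ k.length + 1 := by
      have : 2 ^ (tl m - σ.length + 1) ≤ 2 ^ (tl m + 1) :=
        Nat.pow_le_pow_right (by omega) (by omega)
      omega
    simp only [hec, fs_pr, sn_pr]
    rw [ct_cnt (ctP e) _ k.length (tl m - σ.length) (fun b => look (σ ++ b) ∈ E2 s (m * m) N)
        (fun b => ctP_iff he TA σ k b _ m N hb) h4,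
      ct_cnt (ctP' e col) _ k.length (tl m - σ.length) (fun b => look (σ ++ b) ∈ E2 s (m * m) N ∧
        col (pr (pr TA (σ ++ b)) (pr k (un m))) = true)
        (fun b => ctP'_iff col he TA σ k b _ m N hb) h4]
    rw [List.isEmpty_iff, List.drop_eq_nil_iff, List.length_append, un_length, un_length, two_mul]

end Pool.Agent.Work.MP_0532f7_lc.PP
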