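import Mathlib
import Pool.Agent.Work.MP_0532f7_lc.PP.CT
import Pool.Agent.Work.MP_0532f7_lc.PP.CM
import Pool.Agent.Work.MP_0532f7_lc.PP.Rec

/-!
Existence of the parameters with all their properties. (S-M)

hcol: the test col decides Col at the tables, for large i. Take d from exists_cond s hcolP, Nf σ i := Nrec d A σ i. First item Nrec_le; second
exists_rec. Third: for i >= i0 with ch i >= σ.length etc. (σ.length <= tl (ch i): tl m >= m), by definition of Nrec
(EE (ch i) = ch (i+1)) and exists_cond (k = un (EE (ch i)), N = Nrec i <= i <= ch i, 3 <= ch i) and cond_iff with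
P T := (col (pr (pr (tab A (EE (ch i))) T) (pr (un (EE (ch i))) (un (ch i)))) = true).
-/

namespace Pool.Agent.Work.MP_0532f7_lc.PP

open MeasureTheory

theorem exists_Nf (s : Bool) (A : List Bool → Bool) {col : List Bool → Bool} (hcolP : FPb col)
    (Col : ℕ → Set (List Bool → Bool))
    (hl : ∃ i0, ∀ i, i0 ≤ i → Short (2 ^ (ch i * ch i)) (Col i))
    (hcol : ∃ i0, ∀ i, i0 ≤ i → ∀ T : List Bool, T.length = tl (ch i) →
      (col (pr (pr (tab A (EE (ch i))) T) (pr (un (EE (ch i))) (un (ch i)))) = true ↔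
        look T ∈ Col i)) :
    ∃ Nf : List Bool → ℕ → ℕ, (∀ σ i, Nf σ i ≤ i) ∧
      (∀ σ, ∃ g : List Bool → List Bool, FP g ∧
        ∀ i, g (pr (un (ch i)) (tab A (ch i))) = un (Nf σ i)) ∧
      ∀ σ, ∃ i0, ∀ i, i0 ≤ i →
        (Cond s σ (ch i * ch i) (Nf σ i) (Col i) → Nf σ (i + 1) = Nf σ i) ∧
        (¬ Cond s σ (ch i * ch i) (Nf σ i) (Col i) → Nf σ (i + 1) = Nf σ i + 1) := by
  obtain ⟨d, hd, hd'⟩ := exists_cond s hcolP
  refine ⟨fun σ i => Nrec d A σ i, fun σ i => Nrec_le d A σ i, fun σ => ?_, fun σ => ?_⟩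
  · obtain ⟨g, hg, hg'⟩ := exists_rec hd σ
    exact ⟨g, hg, hg' A⟩
  · obtain ⟨i1, h1⟩ := hl
    obtain ⟨i2, h2⟩ := hcol
    refine ⟨max (max i1 i2) σ.length, fun i hi => ?_⟩
    have hi1 : i1 ≤ i := (le_max_left _ _).trans ((le_max_left _ _).trans hi)
    have hi2 : i2 ≤ i := (le_max_right _ _).trans ((le_max_left _ _).trans hi)
    have hi3 : σ.length ≤ i := (le_max_right _ _).trans hi
    have hch := ch_ge i
    have htl : ch i ≤ tl (ch i) := by
      have e1 : ch i < 2 ^ (ch i) := Nat.lt_two_pow_self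
      have e2 : 2 ^ (ch i) ≤ 2 ^ (2 ^ (ch i * ch i) + 1) := by
        apply Nat.pow_le_pow_right (by omega)
        have e3 : ch i * ch i < 2 ^ (ch i * ch i) := Nat.lt_two_pow_self
        have e4 : ch i ≤ ch i * ch i := Nat.le_mul_self _
        omega
      unfold tl
      omega
    have hN : Nrec d A σ i ≤ ch i := (Nrec_le d A σ i).trans (by omega)
    have key : d (pr (pr (pr (tab A (EE (ch i))) σ) (un (EE (ch i))))
        (pr (un (ch i)) (un (Nrec d A σ i)))) = true ↔
        Cond s σ (ch i * ch i) (Nrec d A σ i) (Col i) := by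
      rw [hd' _ σ (un (EE (ch i))) (ch i) (Nrec d A σ i) (by omega) hN
        (by rw [un_length])]
      exact cond_iff s σ (by omega) hN (h1 i hi1) (by omega)
        (fun T => col (pr (pr (tab A (EE (ch i))) T) (pr (un (EE (ch i))) (un (ch i)))) = true)
        (h2 i hi2)
    refine ⟨fun h => ?_, fun h => ?_⟩
    · show (if d (pr (pr (pr (tab A (EE (ch i))) σ) (un (EE (ch i))))
        (pr (un (ch i)) (un (Nrec d A σ i)))) then Nrec d A σ i
        else Nrec d A σ i + 1) = Nrec d A σ i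
      rw [if_pos (key.2 h)]
    · show (if d (pr (pr (pr (tab A (EE (ch i))) σ) (un (EE (ch i))))
        (pr (un (ch i)) (un (Nrec d A σ i)))) then Nrec d A σ i
        else Nrec d A σ i + 1) = Nrec d A σ i + 1
      rw [if_neg (fun h' => h (key.1 h'))]

end Pool.Agent.Work.MP_0532f7_lc.PP
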