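import Mathlib
import Pool.Agent.Work.MP_0532f7_lc.PP.NullC

/-!
No complete disjoint coNP pair relative to a random oracle. (S-M)

As MainN. Given disjoint C, D in coNP with (V0,p0), (V1,p1): P c accepts w iff |sn w| <= p_c(|fs w|) and V_c (pr (fs w) (sn w)) /= [true] (a refutation). z in C iff no v with
fs v = z is accepted by P false. First clause of OptC: z is not in C or not in D, so it has a refutation v = pr z y, |v| = 2|z|+1+|y| <= 2|z|+1+|k z|. Second clause: h.run A R w in C iff
no v with fs v = h.run A R w is accepted.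
-/

namespace Pool.Agent.Work.MP_0532f7_lc.PP

open MeasureTheory

private theorem mainC_key {A R : List Bool → Bool} {V : List Bool → List Bool}
    (hV : PolyTimeRel (ojoin A R) V) (p : Polynomial ℕ) :
    ∃ P : Mach, P.ok ∧ ∀ v, P.run A R v = [true] ↔
      (sn v).length ≤ p.eval (fs v).length ∧ V (pr (fs v) (sn v)) ≠ [true] := by
  obtain ⟨kk, hkk, hl⟩ := FP.clock p
  have ht : FP (fun v => [((sn v).drop (kk (fs v)).length).isEmpty]) :=
    FPb.isNil.comp (FP.drop (hkk.comp FP.fsI) FP.snI)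
  have h0 := PolyTimeRel.ite (hV.pre (FP.pair FP.fsI FP.snI))
    (PolyTimeRel.of_fp (FP.const []) (ojoin A R)) (PolyTimeRel.of_fp (FP.const [true]) (ojoin A R))
  have h1 := PolyTimeRel.ite (PolyTimeRel.of_fp ht (ojoin A R)) h0
    (PolyTimeRel.of_fp (FP.const []) (ojoin A R))
  obtain ⟨P, hP, hP2⟩ := exists_mach h1
  refine ⟨P, hP, fun v => ?_⟩
  rw [hP2]
  by_cases h2 : (sn v).length ≤ p.eval (fs v).length
  · have h3 : ((sn v).drop (kk (fs v)).length) = [] := by
      rw [List.drop_eq_nil_iff, hl]; exact h2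
    rw [if_pos (by rw [h3]; rfl)]
    by_cases h4 : V (pr (fs v) (sn v)) = [true]
    · rw [if_pos h4]
      constructor
      · intro h; exact absurd h (by simp)
      · intro h; exact absurd h4 h.2
    · rw [if_neg h4]
      exact ⟨fun _ => ⟨h2, h4⟩, fun _ => rfl⟩
  · have h3 : ¬ ((sn v).drop (kk (fs v)).length) = [] := by
      rw [List.drop_eq_nil_iff, hl]; exact h2
    rw [if_neg (by
      intro h4
      apply h3
      have h5 := (List.cons.inj h4).1
      rwa [List.isEmpty_iff] at h5)]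
    constructor
    · intro h; exact absurd h (by simp)
    · intro h; exact absurd h.1 h2

theorem main_C (A : List Bool → Bool) : ∀ᵐ R ∂randomOracle, ∀ C D : Set (List Bool),
    CoNPRel (ojoin A R) C → CoNPRel (ojoin A R) D → Disjoint C D →
    ∃ E F : Set (List Bool), Tally (E ∪ F) ∧ CoNPRel (ojoin A R) E ∧
      CoNPRel (ojoin A R) F ∧ Disjoint E F ∧ ¬ PairRed (ojoin A R) E F C D := by
  classical
  have hcm := countable_mach
  have hck : Countable {k : List Bool → List Bool // FP k} := countable_fp.to_subtype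
  have hall : ∀ᵐ R ∂randomOracle, ∀ t : {P : Mach // P.ok} × {P : Mach // P.ok} ×
      {k : List Bool → List Bool // FP k},
      R ∉ OptC (fun c => if c then t.2.1.1 else t.1.1) t.2.2.1 A := by
    rw [ae_all_iff]
    intro t
    refine measure_eq_zero_iff_ae_notMem.mp (null_C (fun c => ?_) t.2.2.2 A)
    cases c with
    | false => exact t.1.2
    | true => exact t.2.1.2
  filter_upwards [hall] with R hR C D hC hD hCD
  obtain ⟨V0, hV0, p0, h0⟩ := hC
  obtain ⟨V1, hV1, p1, h1⟩ := hD
  obtain ⟨P0, hP0, hr0⟩ := mainC_key hV0 p0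
  obtain ⟨P1, hP1, hr1⟩ := mainC_key hV1 p1
  obtain ⟨k, hk, hkl⟩ := FP.clock (p0 + p1)
  by_contra hcon
  push Not at hcon
  refine hR ⟨⟨P0, hP0⟩, ⟨P1, hP1⟩, ⟨k, hk⟩⟩ ⟨?_, ?_⟩
  · intro z
    by_cases hz : z ∈ C
    · have hz' : z ∉ D := Set.disjoint_left.mp hCD hz
      rw [h1] at hz'
      push Not at hz'
      obtain ⟨y, hy1, hy2⟩ := hz'
      refine ⟨true, pr z y, fs_pr _ _, ?_, ?_⟩
      · rw [pr_length, hkl, Polynomial.eval_add]
        omega
      · simp only [if_true]
        rw [hr1, fs_pr, sn_pr]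
        exact ⟨hy1, hy2⟩
    · rw [h0] at hz
      push Not at hz
      obtain ⟨y, hy1, hy2⟩ := hz
      refine ⟨false, pr z y, fs_pr _ _, ?_, ?_⟩
      · rw [pr_length, hkl, Polynomial.eval_add]
        omega
      · simp only [Bool.false_eq_true, if_false]
        rw [hr0, fs_pr, sn_pr]
        exact ⟨hy1, hy2⟩
  · intro E F hT hE hF hEF
    obtain ⟨h, hh, hc, hd⟩ := hcon E F hT hE hF hEF
    obtain ⟨H, hH, hH2⟩ := exists_mach hh
    refine ⟨H, hH, fun w hw v hv h3 => ?_, fun w hw v hv h3 => ?_⟩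
    · simp only [Bool.false_eq_true, if_false] at h3
      rw [hr0, hv, hH2] at h3
      exact h3.2 ((h0 _).mp (hc w hw) _ h3.1)
    · simp only [if_true] at h3
      rw [hr1, hv, hH2] at h3
      exact h3.2 ((h1 _).mp (hd w hw) _ h3.1)

end Pool.Agent.Work.MP_0532f7_lc.PP
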