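import Mathlib
import Pool.Agent.Work.MP_0532f7_lc.PP.Sets
import Pool.Agent.Work.MP_0532f7_lc.PP.Ind
import Pool.Agent.Work.MP_0532f7_lc.PP.MachC

/-!
Completeness gives a reduction that works at almost all levels, NP pairs. (M)

By ind2 (W = univ, short_univ 0) P(E2 true (ch i^2) (N i)) = bt^2, summable: Borel-Cantelli (ae_eventually_notMem, as in bc of OMain2.lean): a.e. R has an i1 with R
notin E2 at all levels i >= i1. Let R in OptN. E = lev i1 (EH .. false), F = lev i1 (EH .. true): in NP (np_lev), tally (tally_lev for both; Tally of the union), disjoint (mem_lev: ch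
injective, R notin E2). Get h. Claim R notin FailN for i >= max i1 i2: if R in EH c at level i then un (ch i) in E or F, so there is v with
fs v = h.run A R (un (ch i)), (P c).run A R v = [true], |v| <= 2 a + 1 + |k (fs v)| with a = |h.run A R (un (ch i))| <= p(ch i) (run_length), |k z| <= q(|z|) (FP.length hk), so
|v| <= polynomial in ch i <= 2^(ch i) for i >= i2 (poly_pow_le' of OMain3.lean, un_length): R in Uac.
-/

namespace Pool.Agent.Work.MP_0532f7_lc.PP

open MeasureTheory

theorem cmp_N {P : Bool → Mach} {k : List Bool → List Bool} (hk : FP k) (A : List Bool → Bool)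
    {g : List Bool → List Bool} (hg : FP g) (N : ℕ → ℕ) (hN : ∀ i, N i ≤ i)
    (hgN : ∀ i, g (pr (un (ch i)) (tab A (ch i))) = un (N i))
    (hs : Summable (fun i => bt true (ch i * ch i) (N i) ^ 2)) :
    ∀ᵐ R ∂randomOracle, R ∈ OptN P k A → ∃ (h : {h : Mach // h.ok}) (i1 : ℕ), ∀ i, i1 ≤ i →
      R ∉ FailN h.1 P A (ch i) (N i) := by
  have hprob : IsProbabilityMeasure randomOracle := by
    unfold randomOracle
    infer_instance
  have hbc : ∀ᵐ R ∂randomOracle, ∀ᶠ i in Filter.atTop, R ∉ E2 true (ch i * ch i) (N i) := by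
    apply ae_eventually_notMem
    have h1 : ∀ i, randomOracle (E2 true (ch i * ch i) (N i)) ≤
        ENNReal.ofReal (bt true (ch i * ch i) (N i) ^ 2) := by
      intro i
      rw [← ofReal_measureReal]
      apply ENNReal.ofReal_le_ofReal
      have h2 := ind2 true (n := ch i * ch i) (L := 0) (N i) (Nat.zero_le _) (short_univ 0)
      rw [Set.univ_inter, probReal_univ, mul_one] at h2
      exact h2.le
    refine ne_top_of_le_ne_top ?_ (ENNReal.tsum_le_tsum h1)
    exact hs.tsum_ofReal_ne_top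
  filter_upwards [hbc] with R hR hopt
  obtain ⟨i1, hi1⟩ := Filter.eventually_atTop.mp hR
  obtain ⟨-, hred⟩ := hopt
  obtain ⟨h, hok, hE, hF⟩ := hred
    (lev i1 (fun i => R ∈ EH true (ch i * ch i) (N i) false))
    (lev i1 (fun i => R ∈ EH true (ch i * ch i) (N i) true))
    (fun w hw => hw.elim (tally_lev _ _ w) (tally_lev _ _ w))
    (np_lev hg A R N hN hgN i1 false) (np_lev hg A R N hN hgN i1 true)
    (by
      rw [Set.disjoint_left]
      rintro w ⟨i, h1, rfl, h2⟩ h3
      exact hi1 i h1 ⟨h2, (mem_lev.mp h3).2⟩)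
  obtain ⟨p, hp⟩ := run_length hok
  obtain ⟨q, hq⟩ := hk.length
  obtain ⟨m0, hm0⟩ := poly_pow_le' (2 * p + 1 + q.comp p)
  have hlen : ∀ i, m0 ≤ i → ∀ v : List Bool, fs v = h.run A R (un (ch i)) →
      v.length ≤ 2 * (fs v).length + 1 + (k (fs v)).length → v.length ≤ 2 ^ ch i := by
    intro i hi v h1 h2
    have e0 : i + 3 ≤ ch i := ch_ge i
    have e1 := hp A R (un (ch i))
    have e2 := hq (fs v)
    have e3 := hm0 (ch i) (by omega)
    rw [un_length] at e1
    rw [h1] at h2 e2
    have e5 := pmono q e1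
    simp only [Polynomial.eval_add, Polynomial.eval_mul, Polynomial.eval_comp,
      Polynomial.eval_ofNat, Polynomial.eval_one] at e3
    omega
  refine ⟨⟨h, hok⟩, max i1 m0, fun i hi => ?_⟩
  have h1 : i1 ≤ i := (le_max_left _ _).trans hi
  have h2 : m0 ≤ i := (le_max_right _ _).trans hi
  rintro ⟨c, h3, h4⟩
  apply h4
  cases c with
  | false =>
    obtain ⟨v, h5, h6, h7⟩ := hE (un (ch i)) (mem_lev.mpr ⟨h1, h3⟩)
    exact ⟨v, hlen i h2 v h5 h6, h5, h7⟩
  | true =>
    obtain ⟨v, h5, h6, h7⟩ := hF (un (ch i)) (mem_lev.mpr ⟨h1, h3⟩)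
    exact ⟨v, hlen i h2 v h5 h6, h5, h7⟩

end Pool.Agent.Work.MP_0532f7_lc.PP
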