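import Mathlib
import Pool.Agent.Work.MP_0532f7_lc.PP.TabRun

/-!
The test for collisions on tables, NP pairs. (M)

Argument z = pr (pr TA T) (pr k (un m)), k = un (EE m). The length tests |v| <= 2^m: (v.drop s.length).isEmpty with s = un (min (2^m) k.length)
(FP.pcI); 2^m <= k.length as 2^(2^m+1) <= EE m (see h2, h3 in p3_iff of OSearch.lean); all v with |v| <= 2^m are num j with j < k.length (val_lt). FP.orunI, FPb.exbI,
exb_iff, FPb.eq, FPb.and, FPb.not; similar to p1, exb_p1, p2 of OSearch.lean. The inner contexts are built with FP.pair from the outer context and v. By tabrun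
acceptance on the tables (orun .. = [true]) is acceptance relative to look T (tl m <= EE m).
ColN: exb over v of [|v| <= 2^m, P false accepts v on (TA,T), exb over v' of [|v'| <= 2^m, fs v' = fs v, P true accepts v']].
-/

namespace Pool.Agent.Work.MP_0532f7_lc.PP

open MeasureTheory

/-- inner test; context `pr (pr TA T) (pr s w)` -/
private def cnq1 (M : Mach) (z : List Bool) : Bool :=
  (((sn z).drop (fs (sn (fs z))).length).isEmpty && decide (fs (sn z) = sn (sn (fs z)))) &&
    decide (orun M.Q M.C M.O (fs (fs (fs z))) (sn (fs (fs z))) (sn z) = [true])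

private theorem cnq1I {M : Mach} (hM : M.ok) : FPb (cnq1 M) :=
  ((FPb.isNil.comp (FP.drop FP.fsI.snd.fst FP.snI)).and (FPb.eq FP.snI.fst FP.fsI.snd.snd)).and
    (FPb.eq (FP.orunI hM.1 hM.2.1 hM.2.2 FP.fsI.fst.fst FP.fsI.fst.snd FP.snI) (FP.const _))

private theorem cnq1_iff (M : Mach) (TA T s w v : List Bool) :
    cnq1 M (pr (pr (pr TA T) (pr s w)) v) = true ↔
      (v.length ≤ s.length ∧ fs v = w) ∧ orun M.Q M.C M.O TA T v = [true] := by
  unfold cnq1
  simp only [fs_pr, sn_pr, Bool.and_eq_true, List.isEmpty_iff, List.drop_eq_nil_iff,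
    decide_eq_true_eq]

/-- outer test; context `pr (pr TA T) (pr s k)` -/
private def cnq2 (M M' : Mach) (z : List Bool) : Bool :=
  (((sn z).drop (fs (sn (fs z))).length).isEmpty &&
    decide (orun M.Q M.C M.O (fs (fs (fs z))) (sn (fs (fs z))) (sn z) = [true])) &&
    exb (cnq1 M') (pr (fs (fs z)) (pr (fs (sn (fs z))) (fs (sn z)))) (sn (sn (fs z))).length

private theorem cnq2I {M M' : Mach} (hM : M.ok) (hM' : M'.ok) : FPb (cnq2 M M') :=
  ((FPb.isNil.comp (FP.drop FP.fsI.snd.fst FP.snI)).and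
    (FPb.eq (FP.orunI hM.1 hM.2.1 hM.2.2 FP.fsI.fst.fst FP.fsI.fst.snd FP.snI) (FP.const _))).and
    (FPb.exbI (cnq1I hM') (FP.pair FP.fsI.fst (FP.pair FP.fsI.snd.fst FP.snI.fst)) FP.fsI.snd.snd)

private theorem cnq2_iff (M M' : Mach) (TA T s k v : List Bool) :
    cnq2 M M' (pr (pr (pr TA T) (pr s k)) v) = true ↔
      (v.length ≤ s.length ∧ orun M.Q M.C M.O TA T v = [true]) ∧
        exb (cnq1 M') (pr (pr TA T) (pr s (fs v))) k.length = true := by
  unfold cnq2
  simp only [fs_pr, sn_pr, Bool.and_eq_true, List.isEmpty_iff, List.drop_eq_nil_iff,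
    decide_eq_true_eq]

/-- the test -/
private def cnq3 (M M' : Mach) (z : List Bool) : Bool :=
  exb (cnq2 M M') (pr (fs z) (pr (un (min (2 ^ (sn (sn z)).length) (fs (sn z)).length))
    (fs (sn z)))) (fs (sn z)).length

private theorem cnq3I {M M' : Mach} (hM : M.ok) (hM' : M'.ok) : FPb (cnq3 M M') :=
  FPb.exbI (cnq2I hM hM') (FP.pair FP.fsI (FP.pair (FP.pcI FP.snI.fst FP.snI.snd) FP.snI.fst))
    FP.snI.fst

private theorem cn_le {m : ℕ} : 2 ^ (2 ^ m + 1) ≤ EE m := by
  apply Nat.pow_le_pow_right (by omega)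
  have h3 : m ≤ 2 ^ (m * m) := by
    have : m ≤ m * m := Nat.le_mul_self m
    have : m * m < 2 ^ (m * m) := Nat.lt_two_pow_self
    omega
  have h4 : 2 ^ (m + 1) ≤ 2 ^ (2 ^ (m * m) + 1) := Nat.pow_le_pow_right (by omega) (by omega)
  have h5 : 1 ≤ 2 ^ m := Nat.one_le_two_pow
  rw [pow_succ] at h4
  omega

theorem exists_colN {P : Bool → Mach} (hP : ∀ c, (P c).ok) :
    ∃ col : List Bool → Bool, FPb col ∧ ∀ (A : List Bool → Bool) (m : ℕ), 3 ≤ m →
      (∀ c, Good2 (P c) m) → ∀ T : List Bool,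
      (col (pr (pr (tab A (EE m)) T) (pr (un (EE m)) (un m))) = true ↔
        look T ∈ ColN P A m) := by
  refine ⟨cnq3 (P false) (P true), cnq3I (hP false) (hP true), fun A m hm hG T => ?_⟩
  have h2 : 2 ^ (2 ^ m + 1) ≤ EE m := cn_le
  have h3 : 2 ^ m ≤ EE m := by
    have : 2 ^ m ≤ 2 ^ (2 ^ m + 1) := by
      apply Nat.pow_le_pow_right (by omega)
      have : m < 2 ^ m := Nat.lt_two_pow_self
      omega
    omega
  have htl : tl m ≤ EE m := by
    have h4 := tl_lt m
    have h5 : 2 ^ (2 ^ (m * m) + 1) < EE m := Nat.lt_two_pow_self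
    omega
  have hval : ∀ v : List Bool, v.length ≤ 2 ^ m → val v < EE m := fun v hv => by
    have := val_lt hv
    omega
  have hrun : ∀ (c : Bool) (v : List Bool), v.length ≤ 2 ^ m →
      orun (P c).Q (P c).C (P c).O (tab A (EE m)) T v = (P c).run A (look T) v :=
    fun c v hv => tabrun hm (hG c) A T htl hv
  unfold cnq3
  simp only [fs_pr, sn_pr, un_length]
  rw [min_eq_left h3, exb_iff]
  constructor
  · rintro ⟨i, -, hi⟩
    rw [cnq2_iff, un_length, un_length, exb_iff] at hi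
    obtain ⟨⟨hl, hr⟩, j, -, hj⟩ := hi
    rw [cnq1_iff, un_length] at hj
    obtain ⟨⟨hl', hf⟩, hr'⟩ := hj
    rw [hrun false _ hl] at hr
    rw [hrun true _ hl'] at hr'
    exact ⟨num i, num j, hl, hl', hf.symm, hr, hr'⟩
  · rintro ⟨v, v', hl, hl', hf, hr, hr'⟩
    refine ⟨val v, hval v hl, ?_⟩
    rw [cnq2_iff, un_length, un_length, exb_iff, num_val]
    refine ⟨⟨hl, by rw [hrun false v hl]; exact hr⟩, val v', hval v' hl', ?_⟩
    rw [cnq1_iff, un_length, num_val]
    exact ⟨⟨hl', hf.symm⟩, by rw [hrun true v' hl']; exact hr'⟩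

end Pool.Agent.Work.MP_0532f7_lc.PP
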