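import Mathlib
import Pool.Agent.Work.MP_0532f7_lc.PP.Ind
import Pool.Agent.Work.MP_0532f7_lc.PP.CovE
import Pool.Agent.Work.MP_0532f7_lc.PP.UacL
import Pool.Agent.Work.MP_0532f7_lc.PP.Del
import Pool.Agent.Work.MP_0532f7_lc.PP.ShortC

/-!
Hypothesis (K) for NP pairs. (M)

Fix i0 such that for i >= i0: Good2 for h and the P c at ch i (exists_good2), and 2 (1/4)^(ch i) <= (eta/2) bt (del_le with eta/2). m = ch i, n = m*m,
b = bt true n N, del = 2 (1/4)^m, E c = EH true n N c. For each c let W = Al inter E (not c)... more precisely, for the half c consider U = Uac h (P c) A m and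
W = Al inter E c inter U, and apply covE_np for the OTHER half !c: its hypothesis: for R in W take T from cert_Uac; if y is an address of the half !c whose
block is disjoint from T, then R' = zeroOn (block) R agrees with R on T, so R' in U; R' in Al by Short.zero_iff (m <= n), R' in E c by EH_zero (with !c; !!c = c).
So (b - del) P(W) <= P(W, E !c). By ind2 P(Al,E2) = b^2 P(Al), by ind1 P(Al,E c) = b P(Al), hence
P(Al,E2,not U) = b^2 P(Al) - P(W,E !c) <= b^2 P(Al) - (b-del)(b P(Al) - P(Al,E c,not U)) <= b (del P(Al) + P(Al,E c,not U)) and (E c, not U) is contained in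
FailN: kn1. kn: R in E2 and not in ColN implies R notin Uac h (P false) or R notin Uac h (P true) (otherwise v, v' with fs v = h(1^m) = fs v'). Sum of kn1 for both c:
2 b (del P(Al) + P(Al,FailN)) <= b (4 P(Al,FailN) + eta b P(Al)).
-/

namespace Pool.Agent.Work.MP_0532f7_lc.PP

open MeasureTheory

theorem kn1 {h : Mach} {P : Bool → Mach} (A : List Bool → Bool) {m N : ℕ} (hm : 3 ≤ m)
    (hN : N ≤ m) (hh : Good2 h m) (hP : ∀ c, Good2 (P c) m) (c : Bool)
    {Al : Set (List Bool → Bool)} (hAl : Short m Al) :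
    randomOracle.real (Al ∩ E2 true (m * m) N ∩ (Uac h (P c) A m)ᶜ) ≤
      bt true (m * m) N * (2 * (1 / 4) ^ m * randomOracle.real Al +
        randomOracle.real (Al ∩ FailN h P A m N)) := by
  have hn1 : 1 ≤ m * m := Nat.one_le_iff_ne_zero.mpr (by positivity)
  have hmn : m ≤ m * m := Nat.le_mul_self m
  have hb := (bt_pos true hn1 N).le
  set b := bt true (m * m) N with hbdef
  have hU := short_Uac (h := h) (P := P c) A hh (hP c)
  have hE := short_EH2 true hm hN c
  have hE' := short_EH2 true hm hN (!c)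
  have hAm := hAl.meas
  have hUm := hU.meas
  have hEm := hE.meas
  have hEm' := hE'.meas
  set U := Uac h (P c) A m with hUdef
  set W : Set (List Bool → Bool) := Al ∩ EH true (m * m) N c ∩ U with hWdef
  have hWm : MeasurableSet W := (hAm.inter hEm).inter hUm
  have hcov := covE_np (m * m) N m (!c) hWm (by
    intro R hR
    obtain ⟨T, hT1, -, hT3⟩ := cert_Uac hh (hP c) hR.2
    refine ⟨T, hT1, fun y hy hd => ?_⟩
    refine ⟨⟨(hAl.zero_iff hy hmn R).mpr hR.1.1, ?_⟩, ?_⟩
    · have h1 := EH_zero true (m * m) N (bM true (m * m) N) (!c) hy R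
      rw [Bool.not_not] at h1
      exact h1.mpr hR.1.2
    · refine hT3 _ (fun w hw => ?_)
      have h2 : w ∉ blkW (bM true (m * m) N) y := fun h3 => Finset.disjoint_left.mp hd h3 hw
      unfold zeroOn
      rw [if_neg h2])
  rw [← hbdef] at hcov
  have hi1 := ind1 true N c hmn hAl
  have hi2 := ind2 true N hmn hAl
  rw [← hbdef] at hi1 hi2
  -- the set of both events
  have he : Al ∩ E2 true (m * m) N ∩ U = W ∩ EH true (m * m) N (!c) := by
    ext R
    cases c <;> simp only [hWdef, E2, Set.mem_inter_iff, Bool.not_false, Bool.not_true] <;> tauto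
  have hs1 := measureReal_inter_add_sdiff (μ := randomOracle) (s := Al ∩ E2 true (m * m) N) hUm
  have hs2 := measureReal_inter_add_sdiff (μ := randomOracle)
    (s := Al ∩ EH true (m * m) N c) hUm
  rw [Set.sdiff_eq] at hs1 hs2
  rw [he, hi2] at hs1
  rw [← hWdef, hi1] at hs2
  have hf : randomOracle.real (Al ∩ EH true (m * m) N c ∩ Uᶜ) ≤
      randomOracle.real (Al ∩ FailN h P A m N) := by
    refine measureReal_mono ?_ (measure_ne_top _ _)
    rintro R ⟨⟨h1, h2⟩, h3⟩
    exact ⟨h1, c, h2, h3⟩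
  have hf0 : 0 ≤ randomOracle.real (Al ∩ EH true (m * m) N c ∩ Uᶜ) := measureReal_nonneg
  have hd0 : (0 : ℝ) ≤ 2 * (1 / 4) ^ m := by positivity
  set δ : ℝ := 2 * (1 / 4) ^ m
  set f := randomOracle.real (Al ∩ EH true (m * m) N c ∩ Uᶜ)
  set F := randomOracle.real (Al ∩ FailN h P A m N)
  set a := randomOracle.real Al
  have h5 : randomOracle.real W = b * a - f := by linarith
  rw [h5] at hcov
  have h6 : 0 ≤ δ * f := mul_nonneg hd0 hf0
  have h7 : b * f ≤ b * F := mul_le_mul_of_nonneg_left hf hb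
  nlinarith

theorem kn {h : Mach} {P : Bool → Mach} (hh : h.ok) (hP : ∀ c, (P c).ok)
    (A : List Bool → Bool) (η : ℝ) (hη : 0 < η) :
    ∃ i0 n0 : ℕ, ∀ i, i0 ≤ i → ∀ N, n0 ≤ N → N ≤ i →
      ∀ Al : Set (List Bool → Bool), Short (ch i) Al →
        randomOracle.real (Al ∩ E2 true (ch i * ch i) N ∩ (ColN P A (ch i))ᶜ) ≤
          bt true (ch i * ch i) N * (4 * randomOracle.real (Al ∩ FailN h P A (ch i) N) +
            η * bt true (ch i * ch i) N * randomOracle.real Al) := by
  obtain ⟨m0, hm0⟩ := exists_good2 hh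
  obtain ⟨m1, hm1⟩ := exists_good2 (hP false)
  obtain ⟨m2, hm2⟩ := exists_good2 (hP true)
  obtain ⟨i1, hi1⟩ := del_le true (half_pos hη)
  refine ⟨m0 + m1 + m2 + i1, 0, fun i hi N _ hN Al hAl => ?_⟩
  have h1 := ch_ge i
  have h2 := hi1 i (by omega) N hN
  have hG := hm0 (ch i) (by omega)
  have hGc : ∀ c, Good2 (P c) (ch i) := by
    intro c
    cases c
    · exact hm1 (ch i) (by omega)
    · exact hm2 (ch i) (by omega)
  have hk0 := kn1 A (m := ch i) (N := N) (by omega) (by omega) hG hGc false hAl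
  have hk1 := kn1 A (m := ch i) (N := N) (by omega) (by omega) hG hGc true hAl
  set m := ch i
  set b := bt true (m * m) N with hbdef
  have hn1 : 1 ≤ m * m := Nat.one_le_iff_ne_zero.mpr (by
    have h3 : m ≠ 0 := by omega
    positivity)
  have hb : 0 ≤ b := (bt_pos true hn1 N).le
  have hsub : Al ∩ E2 true (m * m) N ∩ (ColN P A m)ᶜ ⊆
      (Al ∩ E2 true (m * m) N ∩ (Uac h (P false) A m)ᶜ) ∪
        (Al ∩ E2 true (m * m) N ∩ (Uac h (P true) A m)ᶜ) := by
    rintro R ⟨h3, h4⟩
    by_contra h5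
    rw [Set.mem_union, not_or] at h5
    have h6 : R ∈ Uac h (P false) A m := by
      by_contra h7
      exact h5.1 ⟨h3, h7⟩
    have h7 : R ∈ Uac h (P true) A m := by
      by_contra h7
      exact h5.2 ⟨h3, h7⟩
    obtain ⟨v, hv1, hv2, hv3⟩ := h6
    obtain ⟨v', hv1', hv2', hv3'⟩ := h7
    exact h4 ⟨v, v', hv1, hv1', hv2.trans hv2'.symm, hv3, hv3'⟩
  have h3 := measureReal_mono (μ := randomOracle) hsub (measure_ne_top _ _)
  have h4 := measureReal_union_le (μ := randomOracle)
    (Al ∩ E2 true (m * m) N ∩ (Uac h (P false) A m)ᶜ)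
    (Al ∩ E2 true (m * m) N ∩ (Uac h (P true) A m)ᶜ)
  have hF0 : 0 ≤ randomOracle.real (Al ∩ FailN h P A m N) := measureReal_nonneg
  have ha0 : 0 ≤ randomOracle.real Al := measureReal_nonneg
  set F := randomOracle.real (Al ∩ FailN h P A m N)
  set a := randomOracle.real Al
  set δ : ℝ := 2 * (1 / 4) ^ m
  have h5 : δ * a ≤ η / 2 * b * a := mul_le_mul_of_nonneg_right h2 ha0
  have h6 : b * (δ * a) ≤ b * (η / 2 * b * a) := mul_le_mul_of_nonneg_left h5 hb
  have h7 : 0 ≤ b * F := mul_nonneg hb hF0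
  nlinarith

end Pool.Agent.Work.MP_0532f7_lc.PP
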