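import Mathlib
import Pool.Agent.Work.MP_0532f7_lc.PP.Gen
import Pool.Agent.Work.MP_0532f7_lc.PP.Nf
import Pool.Agent.Work.MP_0532f7_lc.PP.ColNT
import Pool.Agent.Work.MP_0532f7_lc.PP.KN
import Pool.Agent.Work.MP_0532f7_lc.PP.CmpN
import Pool.Agent.Work.MP_0532f7_lc.PP.MachC

/-!
No complete NP pair: the exceptional set is null. (S-M, assembly)

exists_colN gives col; Col i := ColN P A (ch i) is Short (2^(ch i^2)) for large i (short_ColN, exists_good2 for both machines); exists_Nf true A gives Nf. Apply null_of with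
H = {h : Mach // h.ok} (countable_mach), Opt = OptN P k A, Fail h i N = FailN h.1 P A (ch i) N. hCl: 2^(m*m) <= EE m = ch (i+1) (lev_bound of OMain2.lean) and Short.mono. hCo: first
clause of OptN. hFl: short_FailN for i with Good2 (exists_good2 for h and the P c), N <= i <= ch i, 3 <= ch i. hK: kn. hCmp: cmp_N with g from exists_Nf.
-/

namespace Pool.Agent.Work.MP_0532f7_lc.PP

open MeasureTheory

theorem null_N {P : Bool → Mach} (hP : ∀ c, (P c).ok) {k : List Bool → List Bool} (hk : FP k)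
    (A : List Bool → Bool) : randomOracle (OptN P k A) = 0 := by
  classical
  have := countable_mach
  obtain ⟨col, hcol, hcs⟩ := exists_colN hP
  have hgood : ∃ m0, ∀ m, m0 ≤ m → ∀ c, Good2 (P c) m := by
    obtain ⟨m1, h1⟩ := exists_good2 (hP false)
    obtain ⟨m2, h2⟩ := exists_good2 (hP true)
    refine ⟨m1 + m2, fun m hm c => ?_⟩
    cases c with
    | false => exact h1 m (by omega)
    | true => exact h2 m (by omega)
  obtain ⟨m0, hm0⟩ := hgood
  have hch : ∀ i, i + 3 ≤ ch i := ch_ge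
  have hEE : ∀ i, 2 ^ (ch i * ch i) ≤ ch (i + 1) := fun i => by
    have h1 := (lev_bound (ch i) 0 (by have := hch i; omega) (by omega)).1
    exact h1
  have hl : ∃ i0, ∀ i, i0 ≤ i → Short (2 ^ (ch i * ch i)) (ColN P A (ch i)) :=
    ⟨m0, fun i hi => short_ColN A (hm0 _ (by have := hch i; omega))⟩
  obtain ⟨Nf, hN, hg, hN1⟩ := exists_Nf true A hcol (fun i => ColN P A (ch i)) hl
    ⟨m0, fun i hi T _ => hcs A (ch i) (by have := hch i; omega)
      (hm0 _ (by have := hch i; omega)) T⟩
  refine null_of (H := {h : Mach // h.ok}) true Nf (fun i => ColN P A (ch i)) (OptN P k A)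
    (fun h i N => FailN h.1 P A (ch i) N) hN hN1 ?_ ?_ ?_ ?_ ?_
  · exact ⟨m0, fun i hi => (short_ColN A (hm0 _ (by have := hch i; omega))).mono (hEE i)⟩
  · refine ⟨0, fun i _ R hR hc => ?_⟩
    obtain ⟨v, v', _, _, h1, h2, h3⟩ := hc
    exact hR.1 v v' h1 h2 h3
  · intro h
    obtain ⟨m1, hm1⟩ := exists_good2 h.2
    refine ⟨m0 + m1, fun i hi N hNi => (short_FailN A (by have := hch i; omega)
      (by have := hch i; omega) (hm1 _ (by have := hch i; omega))
      (hm0 _ (by have := hch i; omega))).mono (hEE i)⟩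
  · intro h η hη
    exact kn h.2 hP A η hη
  · intro σ hs
    obtain ⟨g, hg1, hg2⟩ := hg σ
    exact cmp_N hk A hg1 (Nf σ) (hN σ) hg2 hs

end Pool.Agent.Work.MP_0532f7_lc.PP
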