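import Mathlib
import Pool.Agent.Work.MP_0532f7_lc.PP.NullN

/-!
No complete disjoint NP pair relative to a random oracle. (S-M)

ae_ball_iff over the countable set of the triples (P false, P true, k) (countable_mach, countable_fp; see ae_all in OMain3.lean): a.e. R is in no OptN P k A with P c ok and FP k.
Given disjoint C, D in NP with (V0,p0), (V1,p1): V'_c w := if |sn w| <= p_c(|fs w|) then V_c (pr (fs w) (sn w)) else [] is PolyTimeRel (PolyTimeRel.pre, PolyTimeRel.ite, FP.clock for the
test), P c := the machine from exists_mach; k with |k z| = p0(|z|) + p1(|z|) (FP.clock). Then z in C iff there is v with fs v = z accepted by P false, (v := pr z y; conversely y = sn v), and then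
v = pr z y can be chosen with |v| = 2|z|+1+|y| <= 2|z|+1+|k z|. First clause of OptN: disjointness. Suppose all disjoint tally NP pairs E, F satisfied PairRed X E F C D; then
with h as a machine (exists_mach) the second clause would hold: R in OptN, contradiction. So push_neg gives E, F.
-/

namespace Pool.Agent.Work.MP_0532f7_lc.PP

open MeasureTheory

private theorem mainN_key {A R : List Bool → Bool} {V : List Bool → List Bool}
    (hV : PolyTimeRel (ojoin A R) V) (p : Polynomial ℕ) :
    ∃ P : Mach, P.ok ∧ ∀ v, P.run A R v = [true] ↔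
      (sn v).length ≤ p.eval (fs v).length ∧ V (pr (fs v) (sn v)) = [true] := by
  obtain ⟨kk, hkk, hl⟩ := FP.clock p
  have ht : FP (fun v => [((sn v).drop (kk (fs v)).length).isEmpty]) :=
    FPb.isNil.comp (FP.drop (hkk.comp FP.fsI) FP.snI)
  have h1 := PolyTimeRel.ite (PolyTimeRel.of_fp ht (ojoin A R))
    (hV.pre (FP.pair FP.fsI FP.snI)) (PolyTimeRel.of_fp (FP.const []) (ojoin A R))
  obtain ⟨P, hP, hP2⟩ := exists_mach h1
  refine ⟨P, hP, fun v => ?_⟩
  rw [hP2]
  by_cases h2 : (sn v).length ≤ p.eval (fs v).length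
  · have h3 : ((sn v).drop (kk (fs v)).length) = [] := by
      rw [List.drop_eq_nil_iff, hl]; exact h2
    rw [if_pos (by rw [h3]; rfl)]
    exact ⟨fun h => ⟨h2, h⟩, fun h => h.2⟩
  · have h3 : ¬ ((sn v).drop (kk (fs v)).length) = [] := by
      rw [List.drop_eq_nil_iff, hl]; exact h2
    rw [if_neg (by
      intro h4
      apply h3
      have h5 := (List.cons.inj h4).1
      rwa [List.isEmpty_iff] at h5)]
    constructor
    · intro h; exact absurd h (by simp)
    · intro h; exact absurd h.1 h2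

theorem main_N (A : List Bool → Bool) : ∀ᵐ R ∂randomOracle, ∀ C D : Set (List Bool),
    NPRel (ojoin A R) C → NPRel (ojoin A R) D → Disjoint C D →
    ∃ E F : Set (List Bool), Tally (E ∪ F) ∧ NPRel (ojoin A R) E ∧ NPRel (ojoin A R) F ∧
      Disjoint E F ∧ ¬ PairRed (ojoin A R) E F C D := by
  classical
  have hcm := countable_mach
  have hck : Countable {k : List Bool → List Bool // FP k} := countable_fp.to_subtype
  have hall : ∀ᵐ R ∂randomOracle, ∀ t : {P : Mach // P.ok} × {P : Mach // P.ok} ×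
      {k : List Bool → List Bool // FP k},
      R ∉ OptN (fun c => if c then t.2.1.1 else t.1.1) t.2.2.1 A := by
    rw [ae_all_iff]
    intro t
    refine measure_eq_zero_iff_ae_notMem.mp (null_N (fun c => ?_) t.2.2.2 A)
    cases c with
    | false => exact t.1.2
    | true => exact t.2.1.2
  filter_upwards [hall] with R hR C D hC hD hCD
  obtain ⟨V0, hV0, p0, h0⟩ := hC
  obtain ⟨V1, hV1, p1, h1⟩ := hD
  obtain ⟨P0, hP0, hr0⟩ := mainN_key hV0 p0
  obtain ⟨P1, hP1, hr1⟩ := mainN_key hV1 p1
  obtain ⟨k, hk, hkl⟩ := FP.clock (p0 + p1)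
  by_contra hcon
  push Not at hcon
  refine hR ⟨⟨P0, hP0⟩, ⟨P1, hP1⟩, ⟨k, hk⟩⟩ ⟨?_, ?_⟩
  · intro v v' hv h2 h3
    simp only [Bool.false_eq_true, if_false, if_true] at h2 h3
    rw [hr0] at h2
    rw [hr1] at h3
    have h4 : fs v ∈ C := (h0 _).mpr ⟨sn v, h2.1, h2.2⟩
    have h5 : fs v' ∈ D := (h1 _).mpr ⟨sn v', h3.1, h3.2⟩
    rw [← hv] at h5
    exact Set.disjoint_left.mp hCD h4 h5
  · intro E F hT hE hF hEF
    obtain ⟨h, hh, hc, hd⟩ := hcon E F hT hE hF hEF
    obtain ⟨H, hH, hH2⟩ := exists_mach hh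
    refine ⟨H, hH, fun w hw => ?_, fun w hw => ?_⟩
    · obtain ⟨y, hy1, hy2⟩ := (h0 _).mp (hc w hw)
      refine ⟨pr (h w) y, by rw [fs_pr, hH2], ?_, ?_⟩
      · rw [pr_length, fs_pr, hkl, Polynomial.eval_add]
        omega
      · simp only [Bool.false_eq_true, if_false]
        rw [hr0, fs_pr, sn_pr]
        exact ⟨hy1, hy2⟩
    · obtain ⟨y, hy1, hy2⟩ := (h1 _).mp (hd w hw)
      refine ⟨pr (h w) y, by rw [fs_pr, hH2], ?_, ?_⟩
      · rw [pr_length, fs_pr, hkl, Polynomial.eval_add]
        omega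
      · simp only [if_true]
        rw [hr1, fs_pr, sn_pr]
        exact ⟨hy1, hy2⟩

end Pool.Agent.Work.MP_0532f7_lc.PP
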