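import Mathlib
import Pool.Agent.Work.MP_0532f7_lc.PP.Adr
import Pool.Agent.Work.MP_0532f7_lc.PP.Beta
import Pool.Agent.Work.MP_0532f7_lc.OMeasA

/-!
Two zero blocks are rare. (S-M)

M = bM true n N = n + L + 1. For two different addresses y, y' in adr n 0 2 the blocks are disjoint (adr_disj), so the union has 2 M words (card_blkW) and the
probability that it is zero is 4^-M (om_zero_real for the union). The number of pairs is at most (2^n * 2)^2 (card_adr); union bound (as in block_le):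
(2^(n+1))^2 4^-(n+L+1) = 4 * 4^-(L+1) <= 4 (2 bt)^2 = 16 bt^2 (pow_le_bt).
-/

namespace Pool.Agent.Work.MP_0532f7_lc.PP

open MeasureTheory

theorem two_le {n : ℕ} (hn : 1 ≤ n) (N : ℕ) :
    randomOracle.real {R | ∃ y ∈ adr n 0 2, ∃ y' ∈ adr n 0 2, y ≠ y' ∧
      (∀ w ∈ blkW (bM true n N) y, R w = false) ∧ ∀ w ∈ blkW (bM true n N) y', R w = false} ≤
      16 * bt true n N ^ 2 := by
  classical
  set M := bM true n N with hMdef
  have hM : M = n + (num N).length + 1 := by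
    rw [hMdef]
    unfold bM
    simp
  set X : Finset (List Bool × List Bool) :=
    (adr n 0 2 ×ˢ adr n 0 2).filter (fun p => p.1 ≠ p.2) with hX
  have h1 : {R : List Bool → Bool | ∃ y ∈ adr n 0 2, ∃ y' ∈ adr n 0 2, y ≠ y' ∧
      (∀ w ∈ blkW M y, R w = false) ∧ ∀ w ∈ blkW M y', R w = false} =
      {R | ∃ p ∈ X, ∀ w ∈ blkW M p.1 ∪ blkW M p.2, R w = false} := by
    ext R
    simp only [Set.mem_ofPred_eq]
    constructor
    · rintro ⟨y, hy, y', hy', hne, h2, h3⟩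
      refine ⟨(y, y'), ?_, ?_⟩
      · rw [hX, Finset.mem_filter, Finset.mem_product]
        exact ⟨⟨hy, hy'⟩, hne⟩
      · intro w hw
        rcases Finset.mem_union.mp hw with h | h
        · exact h2 w h
        · exact h3 w h
    · rintro ⟨⟨y, y'⟩, hp, h2⟩
      rw [hX, Finset.mem_filter, Finset.mem_product] at hp
      exact ⟨y, hp.1.1, y', hp.1.2, hp.2, fun w hw => h2 w (Finset.mem_union_left _ hw),
        fun w hw => h2 w (Finset.mem_union_right _ hw)⟩
  rw [h1]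
  have h2 : ∀ p ∈ X, (blkW M p.1 ∪ blkW M p.2).card = 2 * M := by
    intro p hp
    rw [hX, Finset.mem_filter, Finset.mem_product] at hp
    rw [Finset.card_union_of_disjoint (adr_disj hp.1.1 hp.1.2 hp.2), card_blkW, card_blkW]
    ring
  refine (block_le X (fun p => blkW M p.1 ∪ blkW M p.2) (2 * M) h2).trans ?_
  have h3 : X.card ≤ (2 ^ n * 2) * (2 ^ n * 2) := by
    refine (Finset.card_filter_le _ _).trans ?_
    rw [Finset.card_product, card_adr]
  have h4 : (X.card : ℝ) ≤ (2 ^ n * 2) * (2 ^ n * 2) := by exact_mod_cast h3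
  have h5 := pow_le_bt hn N
  have h6 : (0 : ℝ) ≤ (1 / 2 : ℝ) ^ ((num N).length + 1) := by positivity
  have h7 : ((2 : ℝ) ^ n * 2) * (2 ^ n * 2) * (1 / 2) ^ (2 * M) =
      4 * ((1 / 2 : ℝ) ^ ((num N).length + 1)) ^ 2 := by
    have h8 : (2 : ℝ) ^ n * (1 / 2) ^ n = 1 := by
      rw [← mul_pow]
      norm_num
    have h9 : (1 / 2 : ℝ) ^ (2 * M) =
        ((1 / 2 : ℝ) ^ n) ^ 2 * ((1 / 2 : ℝ) ^ ((num N).length + 1)) ^ 2 := by
      rw [hM, ← mul_pow, ← pow_add, ← pow_mul]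
      congr 1
      ring
    rw [h9]
    calc ((2 : ℝ) ^ n * 2) * (2 ^ n * 2) * (((1 / 2 : ℝ) ^ n) ^ 2 *
        ((1 / 2 : ℝ) ^ ((num N).length + 1)) ^ 2) =
        4 * ((2 : ℝ) ^ n * (1 / 2) ^ n) ^ 2 * ((1 / 2 : ℝ) ^ ((num N).length + 1)) ^ 2 := by ring
      _ = _ := by
        rw [h8]
        ring
  calc (X.card : ℝ) * (1 / 2) ^ (2 * M) ≤
      ((2 : ℝ) ^ n * 2) * (2 ^ n * 2) * (1 / 2) ^ (2 * M) :=
        mul_le_mul_of_nonneg_right h4 (by positivity)
    _ = 4 * ((1 / 2 : ℝ) ^ ((num N).length + 1)) ^ 2 := h7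
    _ ≤ 4 * (2 * bt true n N) ^ 2 := by
        have := pow_le_pow_left₀ h6 h5 2
        linarith
    _ = 16 * bt true n N ^ 2 := by ring

end Pool.Agent.Work.MP_0532f7_lc.PP
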