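import Mathlib
import Pool.Agent.Work.MP_0532f7_lc.PP.Sets
import Pool.Agent.Work.MP_0532f7_lc.PP.Two
import Pool.Agent.Work.MP_0532f7_lc.PP.MachC

/-!
Completeness gives a reduction that works at almost all levels, UP. (M)

By two_le and Borel-Cantelli (ae_eventually_notMem as in bc of OMain2.lean; 16 * bt^2 is summable) a.e. R has an i1 such that for all i >= i1 there are no two different
addresses in adr (ch i^2) 0 2 with zero blocks. For R in OptU: L = lev i1 (exists c, R in EH true .. c) is in UP (up_lev) and tally. Get h. For i >= max i1 i2: if R in some EH c then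
un (ch i) in L, so there is v with fs v = h.run A R (un (ch i)), accepted, |v| <= 2^(ch i) for i >= i2 (as in CmpN: run_length, FP.length hk, poly_pow_le'): R in Uac. If R is in no
EH c then un (ch i) notin L (mem_lev), so no v with this fs v is accepted: R notin Uac. So R notin FailU.
-/

namespace Pool.Agent.Work.MP_0532f7_lc.PP

open MeasureTheory

/-- two zero blocks at a level -/
private def Tw (n N : ℕ) : Set (List Bool → Bool) :=
  {R | ∃ y ∈ adr n 0 2, ∃ y' ∈ adr n 0 2, y ≠ y' ∧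
      (∀ w ∈ blkW (bM true n N) y, R w = false) ∧ ∀ w ∈ blkW (bM true n N) y', R w = false}

private theorem tw_bc (N : ℕ → ℕ) (hs : Summable (fun i => bt true (ch i * ch i) (N i) ^ 2)) :
    ∀ᵐ R ∂randomOracle, ∀ᶠ i in Filter.atTop, R ∉ Tw (ch i * ch i) (N i) := by
  apply ae_eventually_notMem
  have h1 : ∀ i, randomOracle (Tw (ch i * ch i) (N i)) ≤
      ENNReal.ofReal (16 * bt true (ch i * ch i) (N i) ^ 2) := by
    intro i
    rw [← ofReal_measureReal]
    refine ENNReal.ofReal_le_ofReal (two_le ?_ (N i))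
    have := ch_ge i
    exact Nat.mul_pos (by omega) (by omega)
  refine ne_top_of_le_ne_top ?_ (ENNReal.tsum_le_tsum h1)
  exact (hs.mul_left 16).tsum_ofReal_ne_top

theorem cmp_U {P : Mach} {k : List Bool → List Bool} (hk : FP k) (A : List Bool → Bool)
    {g : List Bool → List Bool} (hg : FP g) (N : ℕ → ℕ) (hN : ∀ i, N i ≤ i)
    (hgN : ∀ i, g (pr (un (ch i)) (tab A (ch i))) = un (N i))
    (hs : Summable (fun i => bt true (ch i * ch i) (N i) ^ 2)) :
    ∀ᵐ R ∂randomOracle, R ∈ OptU P k A → ∃ (h : {h : Mach // h.ok}) (i1 : ℕ), ∀ i, i1 ≤ i →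
      R ∉ FailU h.1 P A (ch i) (N i) := by
  obtain ⟨q, hq⟩ := hk.length
  filter_upwards [tw_bc N hs] with R hR hopt
  obtain ⟨i1, hi1⟩ := Filter.eventually_atTop.1 hR
  obtain ⟨-, h2⟩ := hopt
  obtain ⟨h, hok, ha, hb⟩ := h2 (lev i1 (fun i => ∃ c, R ∈ EH true (ch i * ch i) (N i) c))
    (tally_lev _ _) (up_lev hg A R N hN hgN i1 (fun i hi y hy y' hy' h3 h4 => by
      by_contra hne
      exact hi1 i hi ⟨y, hy, y', hy', hne, h3, h4⟩))
  obtain ⟨p, hp⟩ := run_length hok
  obtain ⟨m0, hm0⟩ := poly_pow_le' (2 * p + 1 + q.comp p)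
  refine ⟨⟨h, hok⟩, max i1 m0, fun i hi => ?_⟩
  have hi1' : i1 ≤ i := le_trans (le_max_left _ _) hi
  have hi2 : m0 ≤ ch i := by
    have h3 := ch_ge i
    have h4 := le_trans (le_max_right _ _) hi
    omega
  rintro (⟨h3, h4⟩ | ⟨h3, v, h4, h5, h6⟩)
  · obtain ⟨v, h5, h6, h7⟩ := ha (un (ch i)) (mem_lev.2 ⟨hi1', h3⟩)
    apply h4
    refine ⟨v, ?_, h5, h7⟩
    refine h6.trans (le_trans ?_ (hm0 _ hi2))
    have h8 : (fs v).length ≤ p.eval (ch i) := by
      rw [h5]
      have h9 := hp A R (un (ch i))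
      rwa [un_length] at h9
    have h10 : (k (fs v)).length ≤ q.eval (p.eval (ch i)) := (hq _).trans (pmono _ h8)
    simp only [Polynomial.eval_add, Polynomial.eval_mul, Polynomial.eval_ofNat,
      Polynomial.eval_one, Polynomial.eval_comp]
    omega
  · refine hb (un (ch i)) (fun h7 => ?_) v h5 h6
    obtain ⟨-, c, hc⟩ := mem_lev.1 h7
    exact h3 c hc

end Pool.Agent.Work.MP_0532f7_lc.PP
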