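import Mathlib
import Pool.Agent.Work.MP_0532f7_lc.PP.TabRun

/-!
The test for collisions on tables, UP. (M)

Argument z = pr (pr TA T) (pr k (un m)), k = un (EE m). The length tests |v| <= 2^m: (v.drop s.length).isEmpty with s = un (min (2^m) k.length)
(FP.pcI); 2^m <= k.length as 2^(2^m+1) <= EE m (see h2, h3 in p3_iff of OSearch.lean); all v with |v| <= 2^m are num j with j < k.length (val_lt). FP.orunI, FPb.exbI,
exb_iff, FPb.eq, FPb.and, FPb.not; similar to p1, exb_p1, p2 of OSearch.lean. The inner contexts are built with FP.pair from the outer context and v. By tabrun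
acceptance on the tables (orun .. = [true]) is acceptance relative to look T (tl m <= EE m).
ColU: exb over v of [|v| <= 2^m, P accepts v, exb over v' of [|v'| <= 2^m, fs v' = fs v, not (v' = v), P accepts v']].
-/

namespace Pool.Agent.Work.MP_0532f7_lc.PP

open MeasureTheory

/-- inner test; context `pr (pr TA T) (pr s v)`, argument `v'` -/
private def cu1 (Q C O : List Bool → List Bool) (z : List Bool) : Bool :=
  ((sn z).drop (fs (sn (fs z))).length).isEmpty &&
    (decide (fs (sn z) = fs (sn (sn (fs z)))) &&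
      ((!decide (sn z = sn (sn (fs z)))) &&
        decide (orun Q C O (fs (fs (fs z))) (sn (fs (fs z))) (sn z) = [true])))

private theorem cu1_fp {Q C O : List Bool → List Bool} (hQ : FP Q) (hC : FP C) (hO : FP O) :
    FPb (cu1 Q C O) :=
  (FPb.isNil.comp (FP.drop FP.fsI.snd.fst FP.snI)).and
    ((FPb.eq FP.snI.fst FP.fsI.snd.snd.fst).and
      ((FPb.eq FP.snI FP.fsI.snd.snd).not.and
        (FPb.eq (FP.orunI hQ hC hO FP.fsI.fst.fst FP.fsI.fst.snd FP.snI) (FP.const _))))

private theorem cu1_iff (Q C O : List Bool → List Bool) (TA T s v v' : List Bool) :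
    cu1 Q C O (pr (pr (pr TA T) (pr s v)) v') = true ↔
      v'.length ≤ s.length ∧ fs v' = fs v ∧ v' ≠ v ∧ orun Q C O TA T v' = [true] := by
  unfold cu1
  simp only [fs_pr, sn_pr, Bool.and_eq_true, List.isEmpty_iff, List.drop_eq_nil_iff,
    decide_eq_true_eq, Bool.not_eq_true', decide_eq_false_iff_not, ne_eq]

/-- outer test; context `pr (pr (pr TA T) k) s`, argument `v` -/
private def cu2 (Q C O : List Bool → List Bool) (z : List Bool) : Bool :=
  ((sn z).drop (sn (fs z)).length).isEmpty &&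
    (decide (orun Q C O (fs (fs (fs (fs z)))) (sn (fs (fs (fs z)))) (sn z) = [true]) &&
      exb (cu1 Q C O) (pr (fs (fs (fs z))) (pr (sn (fs z)) (sn z))) (sn (fs (fs z))).length)

private theorem cu2_fp {Q C O : List Bool → List Bool} (hQ : FP Q) (hC : FP C) (hO : FP O) :
    FPb (cu2 Q C O) :=
  (FPb.isNil.comp (FP.drop FP.fsI.snd FP.snI)).and
    ((FPb.eq (FP.orunI hQ hC hO FP.fsI.fst.fst.fst FP.fsI.fst.fst.snd FP.snI) (FP.const _)).and
      (FPb.exbI (cu1_fp hQ hC hO) (FP.pair FP.fsI.fst.fst (FP.pair FP.fsI.snd FP.snI))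
        FP.fsI.fst.snd))

/-- all words of bounded length -/
private theorem cu_ex (p : List Bool → Bool) (c : List Bool) (m K : ℕ)
    (hK : 2 ^ (2 ^ m + 1) ≤ K) (S : List Bool → Prop)
    (h : ∀ v, p (pr c v) = true ↔ v.length ≤ 2 ^ m ∧ S v) :
    exb p c K = true ↔ ∃ v : List Bool, v.length ≤ 2 ^ m ∧ S v := by
  rw [exb_iff]
  constructor
  · rintro ⟨i, _, h1⟩
    exact ⟨_, (h _).1 h1⟩
  · rintro ⟨v, h1, h2⟩
    refine ⟨val v, ?_, ?_⟩
    · have := val_lt h1
      omega
    · rw [num_val]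
      exact (h v).2 ⟨h1, h2⟩

/-- the test; argument `pr (pr TA T) (pr k m)` -/
private def cu (Q C O : List Bool → List Bool) (z : List Bool) : Bool :=
  exb (cu2 Q C O) (pr (pr (fs z) (fs (sn z)))
    (un (min (2 ^ (sn (sn z)).length) (fs (sn z)).length))) (fs (sn z)).length

theorem exists_colU {P : Mach} (hP : P.ok) :
    ∃ col : List Bool → Bool, FPb col ∧ ∀ (A : List Bool → Bool) (m : ℕ), 3 ≤ m →
      Good2 P m → ∀ T : List Bool,
      (col (pr (pr (tab A (EE m)) T) (pr (un (EE m)) (un m))) = true ↔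
        look T ∈ ColU P A m) := by
  obtain ⟨hQ, hC, hO⟩ := hP
  refine ⟨cu P.Q P.C P.O, ?_, ?_⟩
  · exact FPb.exbI (cu2_fp hQ hC hO) (FP.pair (FP.pair FP.fsI FP.snI.fst)
      (FP.pcI FP.snI.fst FP.snI.snd)) FP.snI.fst
  · intro A m hm hG T
    have h2 : 2 ^ (2 ^ m + 1) ≤ EE m := by
      apply Nat.pow_le_pow_right (by omega)
      have h3 : m ≤ 2 ^ (m * m) := by
        have : m ≤ m * m := Nat.le_mul_self m
        have : m * m < 2 ^ (m * m) := Nat.lt_two_pow_self
        omega
      have h4 : 2 ^ (m + 1) ≤ 2 ^ (2 ^ (m * m) + 1) := Nat.pow_le_pow_right (by omega) (by omega)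
      have h5 : 1 ≤ 2 ^ m := Nat.one_le_two_pow
      rw [pow_succ] at h4
      omega
    have h3 : 2 ^ m ≤ EE m := by
      have : 2 ^ m ≤ 2 ^ (2 ^ m + 1) := by
        apply Nat.pow_le_pow_right (by omega)
        have : m < 2 ^ m := Nat.lt_two_pow_self
        omega
      omega
    have htl : tl m ≤ EE m := by
      have h4 := tl_lt m
      have h5 : 2 ^ (2 ^ (m * m) + 1) < EE m := Nat.lt_two_pow_self
      omega
    have hrun : ∀ v : List Bool, v.length ≤ 2 ^ m →
        orun P.Q P.C P.O (tab A (EE m)) T v = P.run A (look T) v := fun v hv =>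
      tabrun hm hG A T htl hv
    unfold cu
    simp only [fs_pr, sn_pr, un_length]
    rw [min_eq_left h3]
    have key := cu_ex (cu2 P.Q P.C P.O) (pr (pr (pr (tab A (EE m)) T) (un (EE m))) (un (2 ^ m)))
      m (EE m) h2 (fun v => orun P.Q P.C P.O (tab A (EE m)) T v = [true] ∧
        ∃ v' : List Bool, v'.length ≤ 2 ^ m ∧ (fs v' = fs v ∧ v' ≠ v ∧
          orun P.Q P.C P.O (tab A (EE m)) T v' = [true])) (fun v => by
        unfold cu2
        simp only [fs_pr, sn_pr, un_length, Bool.and_eq_true, List.isEmpty_iff,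
          List.drop_eq_nil_iff, decide_eq_true_eq]
        rw [cu_ex (cu1 P.Q P.C P.O) _ m (EE m) h2 _ (fun v' => by
          rw [cu1_iff, un_length])])
    rw [key]
    constructor
    · rintro ⟨v, h4, h5, v', h6, h7, h8, h9⟩
      refine ⟨v, v', h4, h6, h7.symm, fun h => h8 h.symm, ?_, ?_⟩
      · rw [← hrun v h4]; exact h5
      · rw [← hrun v' h6]; exact h9
    · rintro ⟨v, v', h4, h6, h7, h8, h5, h9⟩
      refine ⟨v, h4, ?_, v', h6, h7.symm, fun h => h8 h.symm, ?_⟩
      · rw [hrun v h4]; exact h5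
      · rw [hrun v' h6]; exact h9

end Pool.Agent.Work.MP_0532f7_lc.PP
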