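import Mathlib
import Pool.Agent.Work.MP_0532f7_lc.PP.Ind
import Pool.Agent.Work.MP_0532f7_lc.PP.CovE
import Pool.Agent.Work.MP_0532f7_lc.PP.UacL
import Pool.Agent.Work.MP_0532f7_lc.PP.ShortC

/-!
UP: paths that touch a zero block of the half c and no zero block of the other half. (M)

TU h P A m N c: there is an accepted v (|v| <= 2^m, fs v = h(1^m)) such that the words asked in the computations h(1^m) and P(v) meet a zero block of
the half c but no zero block of the half !c.
tu_col: R in TU false and in TU true, with v and v'. If v = v' then the same set T of words meets a zero block of the half false (v) and does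
not meet any zero block of the half !true = false (v'): contradiction. So v /= v', fs v = h(1^m) = fs v', R in ColU.
ku1: W = Al inter E c inter TU c. covE_np for the half !c: for R in W with the witness v let T = h.qs A R (un m) union P.qs A R v, 4^m |T| <= 2*2^(m*m) (card_qs,
Good2). Let y be an address of the half !c with block B disjoint from T, R' = zeroOn B R. R' agrees with R on T, so run_congr: same values, same sets qs. The
zero blocks of the half c are the same for R and R' (the blocks of different halves are disjoint: adr_disj2), the zero blocks of the half !c for R' are those of R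
and B (the blocks are disjoint, adr_disj), and B does not meet T. So R' in TU c; R' in Al (Short.zero_iff), R' in E c (EH_zero). Measurability of TU: Short (short_TU:
it depends on words up to length 2^(m*m): qs_length, and the blocks: adr_length, lengths as in short_EH2).
So (b-del) P(W) <= P(W,E !c), and as in kn1 P(Al,E2,not TU c) <= b (del P(Al) + P(Al,E c,not TU c)).
-/

namespace Pool.Agent.Work.MP_0532f7_lc.PP

open MeasureTheory

/-- some accepted word whose computations touch a zero block of the half `c` and no zero block of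
the other half -/
def TU (h P : Mach) (A : List Bool → Bool) (m N : ℕ) (c : Bool) : Set (List Bool → Bool) :=
  {R | ∃ v : List Bool, v.length ≤ 2 ^ m ∧ fs v = h.run A R (un m) ∧ P.run A R v = [true] ∧
    (∃ y ∈ adr (m * m) (lo true N c) (hi true N c),
      (∀ w ∈ blkW (bM true (m * m) N) y, R w = false) ∧
      ¬ Disjoint (blkW (bM true (m * m) N) y) (h.qs A R (un m) ∪ P.qs A R v)) ∧
    ∀ y ∈ adr (m * m) (lo true N (!c)) (hi true N (!c)),
      (∀ w ∈ blkW (bM true (m * m) N) y, R w = false) →
      Disjoint (blkW (bM true (m * m) N) y) (h.qs A R (un m) ∪ P.qs A R v)}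

theorem tu_col {h P : Mach} {A : List Bool → Bool} {m N : ℕ} {R : List Bool → Bool}
    (h0 : R ∈ TU h P A m N false) (h1 : R ∈ TU h P A m N true) : R ∈ ColU P A m := by
  obtain ⟨v, hv, hfs, hr, ⟨y, hy, hz, hnd⟩, -⟩ := h0
  obtain ⟨v', hv', hfs', hr', -, hall⟩ := h1
  refine ⟨v, v', hv, hv', hfs.trans hfs'.symm, ?_, hr, hr'⟩
  rintro rfl
  exact hnd (hall y hy hz)

theorem short_TU {h P : Mach} (A : List Bool → Bool) {m N : ℕ} (hm : 3 ≤ m) (hN : N ≤ m)
    (hh : Good2 h m) (hP : Good2 P m) (c : Bool) :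
    Short (2 ^ (m * m)) (TU h P A m N c) := by
  intro R R' hag hR
  obtain ⟨v, hv, hfs, hr, ⟨y, hy, hz, hnd⟩, hall⟩ := hR
  have hum : (un m).length ≤ 2 ^ m := by
    have e4 : (un m).length = m := by simp [un]
    rw [e4]
    exact (Nat.lt_two_pow_self).le
  obtain ⟨c1, c2⟩ := run_congr h A R R' (un m)
    (fun w hw => hag w (qs_length hh A R hum w hw))
  obtain ⟨c3, c4⟩ := run_congr P A R R' v (fun w hw => hag w (qs_length hP A R hv w hw))
  have hb : ∀ (d : Bool), ∀ y ∈ adr (m * m) (lo true N d) (hi true N d),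
      ∀ w ∈ blkW (bM true (m * m) N) y, R w = R' w := by
    intro d y hy w hw
    refine hag w ?_
    have h1 := (adr_length hy hw).2
    have h2 : hi true N d ≤ 2 := by cases d <;> simp [hi, bl]
    have h3 : bM true (m * m) N = m * m + (num N).length + 1 := rfl
    have h4 := num_length N
    have h5 : 3 * m ≤ m * m := Nat.mul_le_mul_right m hm
    obtain ⟨n, hn⟩ : ∃ n, n = m * m := ⟨_, rfl⟩
    rw [← hn] at h1 h3 h5 ⊢
    have h6 : n - 4 < 2 ^ (n - 4) := Nat.lt_two_pow_self
    have h7 : 2 ^ n = 2 ^ (n - 4) * 16 := by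
      have : n = n - 4 + 4 := by omega
      conv_lhs => rw [this]
      rw [pow_add]
      norm_num
    omega
  refine ⟨v, hv, by rw [c1]; exact hfs, by rw [c3]; exact hr, ⟨y, hy, ?_, ?_⟩, ?_⟩
  · intro w hw
    rw [← hb c y hy w hw]
    exact hz w hw
  · rw [c2, c4]
    exact hnd
  · intro y' hy' hz'
    rw [c2, c4]
    refine hall y' hy' fun w hw => ?_
    rw [hb (!c) y' hy' w hw]
    exact hz' w hw

theorem ku1 {h P : Mach} (A : List Bool → Bool) {m N : ℕ} (hm : 3 ≤ m)
    (hN : N ≤ m) (hh : Good2 h m) (hP : Good2 P m) (c : Bool)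
    {Al : Set (List Bool → Bool)} (hAl : Short m Al) :
    randomOracle.real (Al ∩ E2 true (m * m) N ∩ (TU h P A m N c)ᶜ) ≤
      bt true (m * m) N * (2 * (1 / 4) ^ m * randomOracle.real Al +
        randomOracle.real (Al ∩ EH true (m * m) N c ∩ (TU h P A m N c)ᶜ)) := by
  have hn1 : 1 ≤ m * m := Nat.mul_pos (by omega) (by omega)
  have hmn : m ≤ m * m := Nat.le_mul_self m
  have hum : (un m).length ≤ 2 ^ m := by
    have e4 : (un m).length = m := by simp [un]
    rw [e4]
    exact (Nat.lt_two_pow_self).le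
  have hTm : MeasurableSet (TU h P A m N c) := (short_TU A hm hN hh hP c).meas
  have hEm : MeasurableSet (EH true (m * m) N c) := (short_EH2 true hm hN c).meas
  obtain ⟨W, hWd⟩ : ∃ W, W = Al ∩ EH true (m * m) N c ∩ TU h P A m N c := ⟨_, rfl⟩
  have hW : MeasurableSet W := by
    rw [hWd]
    exact (hAl.meas.inter hEm).inter hTm
  have hcov := covE_np (m * m) N m (!c) hW (fun R hR => by
    rw [hWd] at hR
    obtain ⟨⟨hRA, hRE⟩, v, hv, hfs, hr, ⟨y0, hy0, hz0, hnd0⟩, hall⟩ := hR
    refine ⟨h.qs A R (un m) ∪ P.qs A R v, ?_, fun y hy hd => ?_⟩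
    · have e1 := card_qs h A R (un m)
      have e2 := card_qs P A R v
      have e3 := (hh (un m) hum).1
      have e4 := (hP v hv).1
      have e5 := Finset.card_union_le (h.qs A R (un m)) (P.qs A R v)
      calc 4 ^ m * (h.qs A R (un m) ∪ P.qs A R v).card
          ≤ 4 ^ m * ((h.C (un m)).length + (P.C v).length) :=
            Nat.mul_le_mul_left _ (by omega)
        _ = 4 ^ m * (h.C (un m)).length + 4 ^ m * (P.C v).length := Nat.mul_add _ _ _
        _ ≤ 2 * 2 ^ (m * m) := by omega
    · have hagr : ∀ w ∈ h.qs A R (un m) ∪ P.qs A R v,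
          R w = zeroOn (blkW (bM true (m * m) N) y) R w := by
        intro w hw
        unfold zeroOn
        rw [if_neg (fun h1 => Finset.disjoint_left.mp hd h1 hw)]
      obtain ⟨c1, c2⟩ := run_congr h A R (zeroOn (blkW (bM true (m * m) N) y) R) (un m)
        (fun w hw => hagr w (Finset.mem_union_left _ hw))
      obtain ⟨c3, c4⟩ := run_congr P A R (zeroOn (blkW (bM true (m * m) N) y) R) v
        (fun w hw => hagr w (Finset.mem_union_right _ hw))
      rw [hWd]
      refine ⟨⟨(hAl.zero_iff hy hmn R).2 hRA, ?_⟩, v, hv, by rw [c1]; exact hfs,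
        by rw [c3]; exact hr, ⟨y0, hy0, ?_, ?_⟩, ?_⟩
      · have h1 := EH_zero true (m * m) N (bM true (m * m) N) (!c) hy R
        rw [Bool.not_not] at h1
        exact h1.2 hRE
      · intro w hw
        unfold zeroOn
        split_ifs
        · rfl
        · exact hz0 w hw
      · rw [c2, c4]
        exact hnd0
      · intro y' hy' hz'
        rw [c2, c4]
        by_cases hyy : y' = y
        · rw [hyy]
          exact hd
        · refine hall y' hy' fun w hw => ?_
          have h1 := hz' w hw
          unfold zeroOn at h1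
          rwa [if_neg (fun h2 => Finset.disjoint_left.mp (adr_disj hy' hy hyy) hw h2)] at h1)
  have hE2m : MeasurableSet (E2 true (m * m) N) := (short_E2 true hm hN).meas
  have i2 := ind2 true N hmn hAl
  have i1 := ind1 true N c hmn hAl
  have s1 := measureReal_inter_add_sdiff (μ := randomOracle) (s := Al ∩ EH true (m * m) N c) hTm
  have s2 := measureReal_inter_add_sdiff (μ := randomOracle) (s := Al ∩ E2 true (m * m) N) hTm
  rw [Set.sdiff_eq] at s1 s2
  have hWE : Al ∩ E2 true (m * m) N ∩ TU h P A m N c = W ∩ EH true (m * m) N (!c) := by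
    rw [hWd]
    ext R
    constructor
    · rintro ⟨⟨h1, h2, h3⟩, h4⟩
      cases c
      · exact ⟨⟨⟨h1, h2⟩, h4⟩, h3⟩
      · exact ⟨⟨⟨h1, h3⟩, h4⟩, h2⟩
    · rintro ⟨⟨⟨h1, h2⟩, h4⟩, h3⟩
      cases c
      · exact ⟨⟨h1, h2, h3⟩, h4⟩
      · exact ⟨⟨h1, h3, h2⟩, h4⟩
  rw [hWE] at s2
  rw [← hWd] at s1
  have hf0 : 0 ≤ randomOracle.real (Al ∩ EH true (m * m) N c ∩ (TU h P A m N c)ᶜ) :=
    measureReal_nonneg
  have hd0 : (0 : ℝ) ≤ 2 * (1 / 4) ^ m := by positivity
  obtain ⟨d, hdd⟩ : ∃ d : ℝ, d = 2 * (1 / 4) ^ m := ⟨_, rfl⟩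
  rw [← hdd] at hcov hd0 ⊢
  obtain ⟨b, hbd⟩ : ∃ b : ℝ, b = bt true (m * m) N := ⟨_, rfl⟩
  rw [← hbd] at hcov i1 i2 ⊢
  have h1 := mul_nonneg hd0 hf0
  have h2 : randomOracle.real W = b * randomOracle.real Al -
      randomOracle.real (Al ∩ EH true (m * m) N c ∩ (TU h P A m N c)ᶜ) := by linarith
  rw [h2] at hcov
  nlinarith

end Pool.Agent.Work.MP_0532f7_lc.PP
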