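import Mathlib
import Pool.Agent.Work.MP_0532f7_lc.PP.KU1
import Pool.Agent.Work.MP_0532f7_lc.PP.Beta

/-!
UP: accepted words that avoid a zero block are rare. (M)

b = bt true (m*m) N, M = bM, L = |num N|, n = m*m, E c = EH true n N c.
av: for an address y of the half c let Y = {R : there is v, |v| <= 2^m, fs v = h(1^m), P accepts v, block y disjoint from h.qs A R (un m) union P.qs A R v}. Y is not changed
by zeroing the block y (run_congr in both directions: if R' = zeroOn (block y) R is in Y with v, then R agrees with R' on the words asked by R', since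
these are not in the block). By plant (OMeasA) applied to Al inter Y: P(Al, Y, block y zero) = 2^-M P(zeroOn .. R in Al inter Y) = 2^-M P(Al,Y) <= 2^-M P(Al,Uac) (Y is
contained in Uac). The union over the 2^n addresses of the half (bl true N = 1, card_adr): 2^n 2^-M = 2^-(L+1): avoid.
ku2: R in Al, E c, not TU c. Either R notin Uac: then R in FailU (first part). Or there is v as in Uac; as v does not show R in TU c, either the words asked meet no
zero block of the half c: since R in E c there is a zero block y of the half c, disjoint from the words: R is in the set of avoid; or they meet a zero block of the half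
!c: R in E !c, R in E2. So P(Al,E c,not TU c) <= P(Al,FailU) + 2^-(L+1) P(Al,Uac) + P(Al,E2). P(Al,Uac) <= P(Al,FailU) + P(Al,E false) + P(Al,E true) =
P(Al,FailU) + 2 b P(Al) (if R in Uac and in no E c then R in FailU, second part), 2^-(L+1) <= 2 b (pow_le_bt) and 2b <= 1 (bt_le), P(Al,E2) = b^2 P(Al): total
<= 2 P(Al,FailU) + 5 b^2 P(Al).
-/

namespace Pool.Agent.Work.MP_0532f7_lc.PP

open MeasureTheory

/-- accepted words whose computations avoid the block -/
private def YY (h P : Mach) (A : List Bool → Bool) (m : ℕ) (B : Finset (List Bool)) :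
    Set (List Bool → Bool) :=
  {R | ∃ v : List Bool, v.length ≤ 2 ^ m ∧ fs v = h.run A R (un m) ∧ P.run A R v = [true] ∧
    Disjoint B (h.qs A R (un m) ∪ P.qs A R v)}

private theorem YY_congr {h P : Mach} {A : List Bool → Bool} {m : ℕ} {B : Finset (List Bool)}
    {R R' : List Bool → Bool} {v : List Bool}
    (hag : ∀ w ∈ h.qs A R (un m) ∪ P.qs A R v, R w = R' w)
    (hv : v.length ≤ 2 ^ m ∧ fs v = h.run A R (un m) ∧ P.run A R v = [true] ∧
      Disjoint B (h.qs A R (un m) ∪ P.qs A R v)) : R' ∈ YY h P A m B := by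
  obtain ⟨c1, c2⟩ := run_congr h A R R' (un m) (fun w hw => hag w (Finset.mem_union_left _ hw))
  obtain ⟨c3, c4⟩ := run_congr P A R R' v (fun w hw => hag w (Finset.mem_union_right _ hw))
  refine ⟨v, hv.1, ?_, ?_, ?_⟩
  · rw [c1]
    exact hv.2.1
  · rw [c3]
    exact hv.2.2.1
  · rw [c2, c4]
    exact hv.2.2.2

private theorem YY_off {h P : Mach} {A : List Bool → Bool} {m : ℕ} {B : Finset (List Bool)}
    {R R' : List Bool → Bool} (hag : ∀ w, w ∉ B → R w = R' w) (hR : R ∈ YY h P A m B) :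
    R' ∈ YY h P A m B := by
  obtain ⟨v, hv⟩ := hR
  exact YY_congr (fun w hw => hag w fun h1 => Finset.disjoint_left.mp hv.2.2.2 h1 hw) hv

private theorem YY_zero (h P : Mach) (A : List Bool → Bool) (m : ℕ) (B : Finset (List Bool))
    (R : List Bool → Bool) : zeroOn B R ∈ YY h P A m B ↔ R ∈ YY h P A m B := by
  have h1 : ∀ w, w ∉ B → zeroOn B R w = R w := by
    intro w hw
    unfold zeroOn
    rw [if_neg hw]
  exact ⟨YY_off h1, YY_off fun w hw => (h1 w hw).symm⟩

private theorem YY_short {h P : Mach} (A : List Bool → Bool) {m : ℕ} (hh : Good2 h m)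
    (hP : Good2 P m) (B : Finset (List Bool)) : Short (2 ^ (m * m)) (YY h P A m B) := by
  intro R R' hag hR
  obtain ⟨v, hv⟩ := hR
  have hum : (un m).length ≤ 2 ^ m := by
    have e4 : (un m).length = m := by simp [un]
    rw [e4]
    exact (Nat.lt_two_pow_self).le
  refine YY_congr (fun w hw => hag w ?_) hv
  rcases Finset.mem_union.1 hw with hw | hw
  · exact qs_length hh A R hum w hw
  · exact qs_length hP A R hv.1 w hw

theorem avoid {h P : Mach} (A : List Bool → Bool) {m N : ℕ} (hm : 3 ≤ m)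
    (hN : N ≤ m) (hh : Good2 h m) (hP : Good2 P m) (c : Bool)
    {Al : Set (List Bool → Bool)} (hAl : Short m Al) :
    randomOracle.real (Al ∩ {R | ∃ y ∈ adr (m * m) (lo true N c) (hi true N c),
      (∀ w ∈ blkW (bM true (m * m) N) y, R w = false) ∧ ∃ v : List Bool, v.length ≤ 2 ^ m ∧
        fs v = h.run A R (un m) ∧ P.run A R v = [true] ∧
        Disjoint (blkW (bM true (m * m) N) y) (h.qs A R (un m) ∪ P.qs A R v)}) ≤
      (1 / 2) ^ ((num N).length + 1) * randomOracle.real (Al ∩ Uac h P A m) := by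
  have hmn : m ≤ m * m := Nat.le_mul_self m
  obtain ⟨X, hX⟩ : ∃ X, X = adr (m * m) (lo true N c) (hi true N c) := ⟨_, rfl⟩
  obtain ⟨M, hM⟩ : ∃ M, M = bM true (m * m) N := ⟨_, rfl⟩
  rw [← hX, ← hM]
  have hsub : Al ∩ {R | ∃ y ∈ X, (∀ w ∈ blkW M y, R w = false) ∧ ∃ v : List Bool,
      v.length ≤ 2 ^ m ∧ fs v = h.run A R (un m) ∧ P.run A R v = [true] ∧
        Disjoint (blkW M y) (h.qs A R (un m) ∪ P.qs A R v)} ⊆
      ⋃ y ∈ X, ((Al ∩ YY h P A m (blkW M y)) ∩ {R | ∀ w ∈ blkW M y, R w = false}) := by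
    rintro R ⟨h1, y, hy, hz, v, hv⟩
    simp only [Set.mem_iUnion]
    exact ⟨y, hy, ⟨h1, v, hv⟩, hz⟩
  have e1 := measureReal_mono (μ := randomOracle) hsub (measure_ne_top _ _)
  have e2 := measureReal_biUnion_finset_le (μ := randomOracle) X
    (fun y => (Al ∩ YY h P A m (blkW M y)) ∩ {R | ∀ w ∈ blkW M y, R w = false})
  have e3 : ∀ y ∈ X, randomOracle.real
      ((Al ∩ YY h P A m (blkW M y)) ∩ {R | ∀ w ∈ blkW M y, R w = false}) ≤
      (1 / 2) ^ M * randomOracle.real (Al ∩ Uac h P A m) := by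
    intro y hy
    rw [plant (blkW M y) (Al ∩ YY h P A m (blkW M y))
      (hAl.meas.inter (YY_short A hh hP _).meas), card_blkW, mul_comm]
    refine mul_le_mul_of_nonneg_left ?_ (by positivity)
    refine measureReal_mono ?_ (measure_ne_top _ _)
    intro R hR
    have hR1 : zeroOn (blkW M y) R ∈ Al ∩ YY h P A m (blkW M y) := hR
    rw [hX] at hy
    have hR2 := (YY_zero h P A m (blkW M y) R).1 hR1.2
    refine ⟨(hAl.zero_iff hy hmn R).1 hR1.1, ?_⟩
    obtain ⟨v, hv⟩ := hR2
    exact ⟨v, hv.1, hv.2.1, hv.2.2.1⟩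
  have e4 := Finset.sum_le_sum e3
  rw [Finset.sum_const, nsmul_eq_mul] at e4
  have hcard : X.card = 2 ^ (m * m) := by
    rw [hX, card_adr]
    have : hi true N c - lo true N c = 1 := by cases c <;> simp [hi, lo, bl]
    rw [this, mul_one]
  have hMn : M = m * m + ((num N).length + 1) := by
    rw [hM]
    show m * m + (num N).length + 1 = _
    ring
  have e5 : (X.card : ℝ) * ((1 / 2) ^ M * randomOracle.real (Al ∩ Uac h P A m)) =
      (1 / 2) ^ ((num N).length + 1) * randomOracle.real (Al ∩ Uac h P A m) := by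
    rw [hcard, hMn, pow_add]
    push_cast
    have : (2 : ℝ) ^ (m * m) * (1 / 2) ^ (m * m) = 1 := by
      rw [← mul_pow]; norm_num
    calc (2 : ℝ) ^ (m * m) * ((1 / 2) ^ (m * m) * (1 / 2) ^ ((num N).length + 1) *
          randomOracle.real (Al ∩ Uac h P A m))
        = ((2 : ℝ) ^ (m * m) * (1 / 2) ^ (m * m)) * ((1 / 2) ^ ((num N).length + 1) *
          randomOracle.real (Al ∩ Uac h P A m)) := by ring
      _ = _ := by rw [this, one_mul]
  linarith

theorem ku2 {h P : Mach} (A : List Bool → Bool) {m N : ℕ} (hm : 3 ≤ m)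
    (hN : N ≤ m) (hh : Good2 h m) (hP : Good2 P m) (c : Bool)
    {Al : Set (List Bool → Bool)} (hAl : Short m Al) :
    randomOracle.real (Al ∩ EH true (m * m) N c ∩ (TU h P A m N c)ᶜ) ≤
      2 * randomOracle.real (Al ∩ FailU h P A m N) +
        5 * bt true (m * m) N ^ 2 * randomOracle.real Al := by
  have hmn : m ≤ m * m := Nat.le_mul_self m
  have hn1 : 1 ≤ m * m := Nat.mul_pos (by omega) (by omega)
  have hav := avoid A hm hN hh hP c hAl
  obtain ⟨V, hV⟩ : ∃ V, V = {R | ∃ y ∈ adr (m * m) (lo true N c) (hi true N c),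
      (∀ w ∈ blkW (bM true (m * m) N) y, R w = false) ∧ ∃ v : List Bool, v.length ≤ 2 ^ m ∧
        fs v = h.run A R (un m) ∧ P.run A R v = [true] ∧
        Disjoint (blkW (bM true (m * m) N) y) (h.qs A R (un m) ∪ P.qs A R v)} := ⟨_, rfl⟩
  rw [← hV] at hav
  have hsub : Al ∩ EH true (m * m) N c ∩ (TU h P A m N c)ᶜ ⊆
      (Al ∩ FailU h P A m N) ∪ ((Al ∩ V) ∪ (Al ∩ E2 true (m * m) N)) := by
    rintro R ⟨⟨h1, h2⟩, h3⟩
    by_cases hU : R ∈ Uac h P A m
    swap
    · exact Or.inl ⟨h1, Or.inl ⟨⟨c, h2⟩, hU⟩⟩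
    · by_cases hE : R ∈ EH true (m * m) N (!c)
      · refine Or.inr (Or.inr ⟨h1, ?_⟩)
        cases c
        · exact ⟨h2, hE⟩
        · exact ⟨hE, h2⟩
      · refine Or.inr (Or.inl ⟨h1, ?_⟩)
        obtain ⟨v, hv, hfs, hr⟩ := hU
        have h2' : R ∈ Zs (m * m) (bM true (m * m) N) (lo true N c) (hi true N c) := h2
        obtain ⟨y, hy, hz⟩ := h2'
        rw [hV]
        refine ⟨y, hy, hz, v, hv, hfs, hr, ?_⟩
        by_contra hnd
        apply h3
        refine ⟨v, hv, hfs, hr, ⟨y, hy, hz, hnd⟩, fun y' hy' hz' => ?_⟩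
        exfalso
        apply hE
        have h5 : R ∈ Zs (m * m) (bM true (m * m) N) (lo true N (!c)) (hi true N (!c)) :=
          ⟨y', hy', hz'⟩
        exact h5
  have hsub2 : Al ∩ Uac h P A m ⊆ (Al ∩ FailU h P A m N) ∪
      ((Al ∩ EH true (m * m) N false) ∪ (Al ∩ EH true (m * m) N true)) := by
    rintro R ⟨h1, h2⟩
    by_cases h3 : R ∈ EH true (m * m) N false
    · exact Or.inr (Or.inl ⟨h1, h3⟩)
    by_cases h4 : R ∈ EH true (m * m) N true
    · exact Or.inr (Or.inr ⟨h1, h4⟩)
    refine Or.inl ⟨h1, Or.inr ⟨fun d => ?_, h2⟩⟩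
    cases d
    · exact h3
    · exact h4
  have e1 := measureReal_mono (μ := randomOracle) hsub (measure_ne_top _ _)
  have e2 := measureReal_union_le (μ := randomOracle) (Al ∩ FailU h P A m N)
    ((Al ∩ V) ∪ (Al ∩ E2 true (m * m) N))
  have e3 := measureReal_union_le (μ := randomOracle) (Al ∩ V) (Al ∩ E2 true (m * m) N)
  have e4 := measureReal_mono (μ := randomOracle) hsub2 (measure_ne_top _ _)
  have e5 := measureReal_union_le (μ := randomOracle) (Al ∩ FailU h P A m N)
    ((Al ∩ EH true (m * m) N false) ∪ (Al ∩ EH true (m * m) N true))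
  have e6 := measureReal_union_le (μ := randomOracle) (Al ∩ EH true (m * m) N false)
    (Al ∩ EH true (m * m) N true)
  have i0 := ind1 true N false hmn hAl
  have i1 := ind1 true N true hmn hAl
  have i2 := ind2 true N hmn hAl
  have b1 := pow_le_bt hn1 N
  have b2 := bt_le true (m * m) N
  have b3 := bt_pos true hn1 N
  rw [i0, i1] at e6
  rw [i2] at e3
  have hA0 : 0 ≤ randomOracle.real Al := measureReal_nonneg
  have hF0 : 0 ≤ randomOracle.real (Al ∩ FailU h P A m N) := measureReal_nonneg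
  have hU0 : 0 ≤ randomOracle.real (Al ∩ Uac h P A m) := measureReal_nonneg
  obtain ⟨b, hbd⟩ : ∃ b : ℝ, b = bt true (m * m) N := ⟨_, rfl⟩
  rw [← hbd] at b1 b2 b3 e3 e6 ⊢
  have h1 : (1 / 2 : ℝ) ^ ((num N).length + 1) * randomOracle.real (Al ∩ Uac h P A m) ≤
      (2 * b) * randomOracle.real (Al ∩ Uac h P A m) := mul_le_mul_of_nonneg_right b1 hU0
  have h2 : randomOracle.real (Al ∩ Uac h P A m) ≤
      randomOracle.real (Al ∩ FailU h P A m N) + 2 * b * randomOracle.real Al := by linarith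
  have h3 : (2 * b) * randomOracle.real (Al ∩ Uac h P A m) ≤
      (2 * b) * (randomOracle.real (Al ∩ FailU h P A m N) + 2 * b * randomOracle.real Al) :=
    mul_le_mul_of_nonneg_left h2 (by linarith)
  have h4 : (2 * b) * randomOracle.real (Al ∩ FailU h P A m N) ≤
      1 * randomOracle.real (Al ∩ FailU h P A m N) :=
    mul_le_mul_of_nonneg_right (by linarith) hF0
  nlinarith

end Pool.Agent.Work.MP_0532f7_lc.PP
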