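import Mathlib
import Pool.Agent.Work.MP_0532f7_lc.PP.KU2
import Pool.Agent.Work.MP_0532f7_lc.PP.Del
import Pool.Agent.Work.MP_0532f7_lc.PP.Engine

/-!
Hypothesis (K) for UP. (S)

If R is in E2 and not in ColU then R is not in TU false or not in TU true (tu_col). So with b = bt, del = 2 (1/4)^m, by ku1 and ku2 for both c:
P(Al,E2,not ColU) <= 2 b (del P(Al) + 2 P(Al,FailU) + 5 b^2 P(Al)) = b (4 P(Al,FailU) + (2 del + 10 b^2) P(Al)). For i large 2 del <= (eta/2) b (del_le with eta/4),
and for N >= n0: b^2 <= (N+1)^(-7/5) (bt_sq_le), so 10 b <= eta/2, 10 b^2 <= (eta/2) b. (exists_good2 for h and P; m = ch i >= 3, N <= i <= ch i.)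
-/

namespace Pool.Agent.Work.MP_0532f7_lc.PP

open MeasureTheory

private theorem small_bt {η : ℝ} (hη : 0 < η) : ∃ n0 : ℕ, ∀ N, n0 ≤ N → ∀ n, 1 ≤ n →
    bt true n N ≤ η / 20 := by
  have h1 : Filter.Tendsto (fun N : ℕ => ((N : ℝ) + 1) ^ (-(7 / 5) : ℝ)) Filter.atTop (nhds 0) :=
    (tendsto_rpow_neg_atTop (by norm_num)).comp
      (Filter.tendsto_atTop_add_const_right _ _ tendsto_natCast_atTop_atTop)
  have h2 : ∀ᶠ N : ℕ in Filter.atTop, ((N : ℝ) + 1) ^ (-(7 / 5) : ℝ) < (η / 20) ^ 2 :=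
    h1.eventually (gt_mem_nhds (by positivity))
  obtain ⟨n0, hn0⟩ := Filter.eventually_atTop.1 h2
  refine ⟨n0, fun N hN n hn => ?_⟩
  have h3 := (bt_sq_le true hn N).trans (hn0 N hN).le
  exact le_of_sq_le_sq h3 (by positivity)

theorem ku {h P : Mach} (hh : h.ok) (hP : P.ok) (A : List Bool → Bool) (η : ℝ) (hη : 0 < η) :
    ∃ i0 n0 : ℕ, ∀ i, i0 ≤ i → ∀ N, n0 ≤ N → N ≤ i →
      ∀ Al : Set (List Bool → Bool), Short (ch i) Al →
        randomOracle.real (Al ∩ E2 true (ch i * ch i) N ∩ (ColU P A (ch i))ᶜ) ≤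
          bt true (ch i * ch i) N * (4 * randomOracle.real (Al ∩ FailU h P A (ch i) N) +
            η * bt true (ch i * ch i) N * randomOracle.real Al) := by
  obtain ⟨m1, hm1⟩ := exists_good2 hh
  obtain ⟨m2, hm2⟩ := exists_good2 hP
  obtain ⟨i1, hi1⟩ := del_le true (show (0 : ℝ) < η / 4 by positivity)
  obtain ⟨n0, hn0⟩ := small_bt hη
  refine ⟨m1 + m2 + i1, n0, fun i hi N hn0N hNi Al hAl => ?_⟩
  have hchi : i + 3 ≤ ch i := ch_ge i
  obtain ⟨m, hmd⟩ : ∃ m, m = ch i := ⟨_, rfl⟩
  have hdel := hi1 i (by omega) N hNi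
  rw [← hmd] at hAl hchi hdel ⊢
  have hm : 3 ≤ m := by omega
  have hN : N ≤ m := by omega
  have hG : Good2 h m := hm1 m (by omega)
  have hGP : Good2 P m := hm2 m (by omega)
  have hn1 : 1 ≤ m * m := Nat.mul_pos (by omega) (by omega)
  have hb := bt_pos true hn1 N
  have hsm := hn0 N hn0N (m * m) hn1
  have hsub : Al ∩ E2 true (m * m) N ∩ (ColU P A m)ᶜ ⊆
      (Al ∩ E2 true (m * m) N ∩ (TU h P A m N false)ᶜ) ∪
        (Al ∩ E2 true (m * m) N ∩ (TU h P A m N true)ᶜ) := by
    rintro R ⟨h1, h2⟩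
    by_cases hc : R ∈ TU h P A m N false
    · right
      exact ⟨h1, fun h3 => h2 (tu_col hc h3)⟩
    · left
      exact ⟨h1, hc⟩
  have e1 := measureReal_mono (μ := randomOracle) hsub (measure_ne_top _ _)
  have e2 := measureReal_union_le (μ := randomOracle)
    (Al ∩ E2 true (m * m) N ∩ (TU h P A m N false)ᶜ)
    (Al ∩ E2 true (m * m) N ∩ (TU h P A m N true)ᶜ)
  have key : ∀ c, randomOracle.real (Al ∩ E2 true (m * m) N ∩ (TU h P A m N c)ᶜ) ≤
      bt true (m * m) N * (2 * randomOracle.real (Al ∩ FailU h P A m N) +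
        η / 2 * bt true (m * m) N * randomOracle.real Al) := by
    intro c
    have e3 := ku1 A hm hN hG hGP c hAl
    have e4 := ku2 A hm hN hG hGP c hAl
    refine e3.trans (mul_le_mul_of_nonneg_left ?_ hb.le)
    have hA0 : 0 ≤ randomOracle.real Al := measureReal_nonneg
    have e5 : 2 * (1 / 4 : ℝ) ^ m * randomOracle.real Al ≤
        η / 4 * bt true (m * m) N * randomOracle.real Al :=
      mul_le_mul_of_nonneg_right hdel hA0
    have e6 : 5 * bt true (m * m) N ^ 2 ≤ η / 4 * bt true (m * m) N := by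
      have e7 : bt true (m * m) N * bt true (m * m) N ≤ η / 20 * bt true (m * m) N :=
        mul_le_mul_of_nonneg_right hsm hb.le
      nlinarith
    have e8 : 5 * bt true (m * m) N ^ 2 * randomOracle.real Al ≤
        η / 4 * bt true (m * m) N * randomOracle.real Al :=
      mul_le_mul_of_nonneg_right e6 hA0
    have e9 : η / 2 * bt true (m * m) N * randomOracle.real Al =
        η / 4 * bt true (m * m) N * randomOracle.real Al +
          η / 4 * bt true (m * m) N * randomOracle.real Al := by ring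
    linarith
  have k1 := key false
  have k2 := key true
  have e10 : bt true (m * m) N * (4 * randomOracle.real (Al ∩ FailU h P A m N) +
      η * bt true (m * m) N * randomOracle.real Al) =
      bt true (m * m) N * (2 * randomOracle.real (Al ∩ FailU h P A m N) +
        η / 2 * bt true (m * m) N * randomOracle.real Al) +
      bt true (m * m) N * (2 * randomOracle.real (Al ∩ FailU h P A m N) +
        η / 2 * bt true (m * m) N * randomOracle.real Al) := by ring
  linarith

end Pool.Agent.Work.MP_0532f7_lc.PP
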