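import Mathlib
import Pool.Agent.Work.MP_0532f7_lc.PP.Gen
import Pool.Agent.Work.MP_0532f7_lc.PP.Nf
import Pool.Agent.Work.MP_0532f7_lc.PP.ColUT
import Pool.Agent.Work.MP_0532f7_lc.PP.KU
import Pool.Agent.Work.MP_0532f7_lc.PP.CmpU
import Pool.Agent.Work.MP_0532f7_lc.PP.MachC

/-!
No complete set for UP: the exceptional set is null. (S-M, assembly)

As NullN with s = true, exists_colU, short_ColU, short_FailU, ku, cmp_U. hCo: first clause of OptU.
-/

namespace Pool.Agent.Work.MP_0532f7_lc.PP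

open MeasureTheory

theorem null_U {P : Mach} (hP : P.ok) {k : List Bool → List Bool} (hk : FP k)
    (A : List Bool → Bool) : randomOracle (OptU P k A) = 0 := by
  classical
  have := countable_mach
  obtain ⟨col, hcol, hcs⟩ := exists_colU hP
  obtain ⟨m0, hm0⟩ := exists_good2 hP
  have hch : ∀ i, i + 3 ≤ ch i := ch_ge
  have hEE : ∀ i, 2 ^ (ch i * ch i) ≤ ch (i + 1) := fun i => by
    have h1 := (lev_bound (ch i) 0 (by have := hch i; omega) (by omega)).1
    exact h1
  have hl : ∃ i0, ∀ i, i0 ≤ i → Short (2 ^ (ch i * ch i)) (ColU P A (ch i)) :=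
    ⟨m0, fun i hi => short_ColU A (hm0 _ (by have := hch i; omega))⟩
  obtain ⟨Nf, hN, hg, hN1⟩ := exists_Nf true A hcol (fun i => ColU P A (ch i)) hl
    ⟨m0, fun i hi T _ => hcs A (ch i) (by have := hch i; omega)
      (hm0 _ (by have := hch i; omega)) T⟩
  refine null_of (H := {h : Mach // h.ok}) true Nf (fun i => ColU P A (ch i)) (OptU P k A)
    (fun h i N => FailU h.1 P A (ch i) N) hN hN1 ?_ ?_ ?_ ?_ ?_
  · exact ⟨m0, fun i hi => (short_ColU A (hm0 _ (by have := hch i; omega))).mono (hEE i)⟩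
  · refine ⟨0, fun i _ R hR hc => ?_⟩
    obtain ⟨v, v', _, _, h1, h2, h3, h4⟩ := hc
    exact h2 (hR.1 v v' h1 h3 h4)
  · intro h
    obtain ⟨m1, hm1⟩ := exists_good2 h.2
    refine ⟨m0 + m1, fun i hi N hNi => (short_FailU A (by have := hch i; omega)
      (by have := hch i; omega) (hm1 _ (by have := hch i; omega))
      (hm0 _ (by have := hch i; omega))).mono (hEE i)⟩
  · intro h η hη
    exact ku h.2 hP A η hη
  · intro σ hs
    obtain ⟨g, hg1, hg2⟩ := hg σ
    exact cmp_U hk A hg1 (Nf σ) (hN σ) hg2 hs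

end Pool.Agent.Work.MP_0532f7_lc.PP
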