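import Mathlib
import Pool.Agent.Work.MP_0532f7_lc.PP.NullU

/-!
No complete set for UP relative to a random oracle. (S-M)

As MainN with one machine: U in UP with (V,p); P accepts w iff w = pr (fs w) (sn w) and |sn w| <= p(|fs w|) and V w = [true] (the test w = pr (fs w) (sn w) makes the
accepted words with the same fs equal when their witnesses sn are equal: first clause of OptU). z in U iff some v with fs v = z is accepted, v = pr z y, |v| = 2|z|+1+|y| <= 2|z|+1+|k z|, |k z| =
p(|z|). If all tally sets L in UP satisfied SetRed X L U then the second clause holds: R in OptU.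
-/

namespace Pool.Agent.Work.MP_0532f7_lc.PP

open MeasureTheory

private theorem mainU_key {A R : List Bool → Bool} {V : List Bool → List Bool}
    (hV : PolyTimeRel (ojoin A R) V) (p : Polynomial ℕ) :
    ∃ P : Mach, P.ok ∧ ∀ v, P.run A R v = [true] ↔
      v = pr (fs v) (sn v) ∧ (sn v).length ≤ p.eval (fs v).length ∧ V v = [true] := by
  obtain ⟨kk, hkk, hl⟩ := FP.clock p
  have ht : FP (fun v => [((sn v).drop (kk (fs v)).length).isEmpty &&
      decide (v = pr (fs v) (sn v))]) :=
    (FPb.isNil.comp (FP.drop (hkk.comp FP.fsI) FP.snI)).and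
      (FPb.eq FP.id (FP.pair FP.fsI FP.snI))
  have h1 := PolyTimeRel.ite (PolyTimeRel.of_fp ht (ojoin A R))
    hV (PolyTimeRel.of_fp (FP.const []) (ojoin A R))
  obtain ⟨P, hP, hP2⟩ := exists_mach h1
  refine ⟨P, hP, fun v => ?_⟩
  rw [hP2]
  by_cases h2 : (sn v).length ≤ p.eval (fs v).length ∧ v = pr (fs v) (sn v)
  · have h3 : ((sn v).drop (kk (fs v)).length) = [] := by
      rw [List.drop_eq_nil_iff, hl]; exact h2.1
    rw [if_pos (by rw [h3, decide_eq_true h2.2]; rfl)]
    exact ⟨fun h => ⟨h2.2, h2.1, h⟩, fun h => h.2.2⟩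
  · rw [if_neg (by
      intro h4
      apply h2
      have h5 := (List.cons.inj h4).1
      rw [Bool.and_eq_true, List.isEmpty_iff, List.drop_eq_nil_iff, hl,
        decide_eq_true_eq] at h5
      exact h5)]
    constructor
    · intro h; exact absurd h (by simp)
    · intro h; exact absurd ⟨h.2.1, h.1⟩ h2

theorem main_U (A : List Bool → Bool) : ∀ᵐ R ∂randomOracle, ∀ U : Set (List Bool),
    UPRel (ojoin A R) U → ∃ L : Set (List Bool), Tally L ∧ UPRel (ojoin A R) L ∧
      ¬ SetRed (ojoin A R) L U := by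
  classical
  have hcm := countable_mach
  have hck : Countable {k : List Bool → List Bool // FP k} := countable_fp.to_subtype
  have hall : ∀ᵐ R ∂randomOracle, ∀ t : {P : Mach // P.ok} ×
      {k : List Bool → List Bool // FP k}, R ∉ OptU t.1.1 t.2.1 A := by
    rw [ae_all_iff]
    intro t
    exact measure_eq_zero_iff_ae_notMem.mp (null_U t.1.2 t.2.2 A)
  filter_upwards [hall] with R hR U hU
  obtain ⟨V, hV, p, hu, h0⟩ := hU
  obtain ⟨P, hP, hr⟩ := mainU_key hV p
  obtain ⟨k, hk, hkl⟩ := FP.clock p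
  by_contra hcon
  push Not at hcon
  refine hR ⟨⟨P, hP⟩, ⟨k, hk⟩⟩ ⟨?_, ?_⟩
  · intro v v' hv h2 h3
    rw [hr] at h2 h3
    have h4 : sn v = sn v' := by
      refine hu (fs v) (sn v) (sn v') h2.2.1 (by rw [hv]; exact h3.2.1) ?_ ?_
      · rw [← h2.1]; exact h2.2.2
      · rw [hv, ← h3.1]; exact h3.2.2
    rw [h2.1, h3.1, hv, h4]
  · intro L hT hL
    obtain ⟨h, hh, hc⟩ := hcon L hT hL
    obtain ⟨H, hH, hH2⟩ := exists_mach hh
    refine ⟨H, hH, fun w hw => ?_, fun w hw v hv h3 => ?_⟩
    · obtain ⟨y, hy1, hy2⟩ := (h0 _).mp ((hc w).mp hw)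
      refine ⟨pr (h w) y, by rw [fs_pr, hH2], ?_, ?_⟩
      · rw [pr_length, fs_pr, hkl]
        omega
      · rw [hr, fs_pr, sn_pr]
        exact ⟨rfl, hy1, hy2⟩
    · rw [hr] at h3
      apply hw
      rw [hc w, h0]
      refine ⟨sn v, ?_, ?_⟩
      · have := h3.2.1
        rwa [hv, hH2] at this
      · have h4 := h3.2.2
        rw [h3.1, hv, hH2] at h4
        exact h4

end Pool.Agent.Work.MP_0532f7_lc.PP
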