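import Mathlib
import Pool.Agent.Work.MP_0532f7_lc.PP.Opt

/-!
The tally exception (definitions). Level i: n = (ch i)^2, blocks of length n + 1 (bM true n 0 = n + 1) at the addresses adr n 0 1; EH true n 0 false = some block is zero.
-/

namespace Pool.Agent.Work.MP_0532f7_lc.PP

open MeasureTheory

/-- the tally set: the levels without a zero block -/
def TL (R : List Bool → Bool) : Set (List Bool) :=
  lev 0 (fun i => R ∉ EH true (ch i * ch i) 0 false)

/-- `g` has a short proof of the word of level `i` -/
def ShP (g : Mach) (K : ℕ) (A : List Bool → Bool) (i : ℕ) : Set (List Bool → Bool) :=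
  {R | ∃ v : List Bool, v.length ^ K ≤ 2 ^ (ch i * ch i) ∧ g.run A R v = un (ch i)}

/-- computations on words whose `K`-th power of the length is at most `2 ^ (m * m)` are short -/
def Good3 (P : Mach) (K m : ℕ) : Prop :=
  ∀ v : List Bool, v.length ^ K ≤ 2 ^ (m * m) → 8 * (P.C v).length ≤ 2 ^ (m * m) ∧
    ∀ a : List Bool, a.length ≤ (P.C v).length → (P.Q (pr v a)).length ≤ 2 ^ (m * m)

end Pool.Agent.Work.MP_0532f7_lc.PP
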