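import Mathlib
import Pool.Agent.Work.MP_0532f7_lc.PP.TE0
import Pool.Agent.Work.MP_0532f7_lc.PP.Ora

/-!
Exponents. (S-M)

exists_good3: |P.C v| <= p(|v|) and |P.Q (pr v a)| <= q(2|v|+1+|a|) for polynomials; so both quantities are bounded by j (|v|+1)^j (poly_le, j >= 1) for one j. K = 2j, m large: if |v|^(2j) <=
2^(m*m) then ((|v|+1)^j)^2 <= (2^j |v|^j)^2 = 4^j |v|^(2j) <= 4^j 2^(m*m) for v /= [] (|v|+1 <= 2|v|), so (8 j (|v|+1)^j)^2 <= 64 j^2 4^j 2^(m*m) <= 2^(m*m) 2^(m*m) for m large, i.e.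
8 j (|v|+1)^j <= 2^(m*m) (Nat.pow_le_pow_iff_left / abs_le_of_sq_le; Nat: a^2 <= b^2 implies a <= b). v = []: constant.
short_ShP: as short_Uac: run_congr, the asked words have length <= 2^(m*m), m = ch i.
cert_ShP: T = g.qs A R v, 8 |T| <= 2^(m*m).
-/

namespace Pool.Agent.Work.MP_0532f7_lc.PP

open MeasureTheory

theorem exists_good3 {P : Mach} (hP : P.ok) : ∃ K m0 : ℕ, 1 ≤ K ∧ ∀ m, m0 ≤ m → Good3 P K m := by
  obtain ⟨p, hp⟩ := hP.2.1.length
  obtain ⟨q, hq⟩ := hP.1.length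
  obtain ⟨j, hj⟩ := poly_le (p + q.comp (2 * Polynomial.X + 1 + p))
  refine ⟨2 * (j + 1), 64 * (j + 1) ^ 2 * 4 ^ (j + 1), by omega, fun m hm v hv => ?_⟩
  have h1 : ∀ x : ℕ, p.eval x + q.eval (2 * x + 1 + p.eval x) ≤ (j + 1) * (x + 1) ^ (j + 1) := by
    intro x
    have h2 := hj x
    simp only [Polynomial.eval_add, Polynomial.eval_mul, Polynomial.eval_ofNat,
      Polynomial.eval_one, Polynomial.eval_comp, Polynomial.eval_X] at h2
    refine h2.trans (Nat.mul_le_mul (by omega) (Nat.pow_le_pow_right (by omega) (by omega)))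
  have h2 : (v.length + 1) ^ (2 * (j + 1)) ≤ 4 ^ (j + 1) * 2 ^ (m * m) := by
    rcases Nat.eq_zero_or_pos v.length with h0 | h0
    · rw [h0, Nat.zero_add, Nat.one_pow]
      exact Nat.one_le_iff_ne_zero.2 (by positivity)
    · calc (v.length + 1) ^ (2 * (j + 1)) ≤ (2 * v.length) ^ (2 * (j + 1)) :=
            Nat.pow_le_pow_left (by omega) _
        _ = 4 ^ (j + 1) * v.length ^ (2 * (j + 1)) := by
            rw [Nat.mul_pow, Nat.pow_mul]
        _ ≤ _ := Nat.mul_le_mul_left _ hv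
  have h3 : 8 * ((j + 1) * (v.length + 1) ^ (j + 1)) ≤ 2 ^ (m * m) := by
    apply Nat.mul_self_le_mul_self_iff.1
    have h4 : 64 * (j + 1) ^ 2 * 4 ^ (j + 1) ≤ 2 ^ (m * m) := by
      have e1 : m ≤ m * m := Nat.le_mul_self m
      have e2 : m * m < 2 ^ (m * m) := Nat.lt_two_pow_self
      omega
    calc 8 * ((j + 1) * (v.length + 1) ^ (j + 1)) * (8 * ((j + 1) * (v.length + 1) ^ (j + 1)))
        = 64 * (j + 1) ^ 2 * (v.length + 1) ^ (2 * (j + 1)) := by
          rw [two_mul (j + 1), pow_add]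
          ring
      _ ≤ 64 * (j + 1) ^ 2 * (4 ^ (j + 1) * 2 ^ (m * m)) := Nat.mul_le_mul_left _ h2
      _ = (64 * (j + 1) ^ 2 * 4 ^ (j + 1)) * 2 ^ (m * m) := by ring
      _ ≤ 2 ^ (m * m) * 2 ^ (m * m) := Nat.mul_le_mul_right _ h4
  have h4 := h1 v.length
  have h5 := hp v
  refine ⟨?_, fun a ha => ?_⟩
  · generalize (j + 1) * (v.length + 1) ^ (j + 1) = B at h3 h4
    omega
  · have h6 : (P.Q (pr v a)).length ≤ q.eval (2 * v.length + 1 + p.eval v.length) := by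
      refine (hq _).trans (pmono _ ?_)
      rw [pr_length]
      omega
    generalize (j + 1) * (v.length + 1) ^ (j + 1) = B at h3 h4
    omega

private theorem te1_len {g : Mach} {K m : ℕ} (h : Good3 g K m) (A R : List Bool → Bool)
    {v : List Bool} (hv : v.length ^ K ≤ 2 ^ (m * m)) :
    ∀ w ∈ g.qs A R v, w.length ≤ 2 ^ (m * m) := by
  intro w hw
  unfold Mach.qs at hw
  rw [Finset.mem_image] at hw
  obtain ⟨k, hk, rfl⟩ := hw
  rw [Finset.mem_range] at hk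
  have h1 := (h v hv).2 (answers g.Q (ojoin A R) v k) (by rw [answers_length]; omega)
  rw [List.length_tail]
  omega

theorem short_ShP {g : Mach} {K : ℕ} (A : List Bool → Bool) {i : ℕ} (h : Good3 g K (ch i)) :
    Short (2 ^ (ch i * ch i)) (ShP g K A i) := by
  rintro R R' hR ⟨v, hv, h1⟩
  refine ⟨v, hv, ?_⟩
  rw [(run_congr g A R R' v (fun w hw => hR w (te1_len h A R hv w hw))).1, h1]

theorem cert_ShP {g : Mach} {K : ℕ} {A R : List Bool → Bool} {i : ℕ} (h : Good3 g K (ch i))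
    (hR : R ∈ ShP g K A i) : ∃ T : Finset (List Bool), 8 * T.card ≤ 2 ^ (ch i * ch i) ∧
      ∀ R' : List Bool → Bool, (∀ w ∈ T, R w = R' w) → R' ∈ ShP g K A i := by
  obtain ⟨v, hv, h1⟩ := hR
  refine ⟨g.qs A R v, ?_, fun R' hR' => ⟨v, hv, ?_⟩⟩
  · have h2 := card_qs g A R v
    have h3 := (h v hv).1
    omega
  · rw [(run_congr g A R R' v hR').1, h1]

end Pool.Agent.Work.MP_0532f7_lc.PP
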