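import Mathlib
import Pool.Agent.Work.MP_0532f7_lc.PP.TE1
import Pool.Agent.Work.MP_0532f7_lc.PP.Cov
import Pool.Agent.Work.MP_0532f7_lc.PP.AdrZ
import Pool.Agent.Work.MP_0532f7_lc.PP.Beta
import Pool.Agent.Work.MP_0532f7_lc.PP.First
import Pool.Agent.Work.MP_0532f7_lc.PP.Sets

/-!
A system that is sound for the tally set has short proofs only at finitely many levels. (M)

te_cov: W Short (ch i). W' = W inter ShP g K A i. cov (Cov.lean) with X = adr n 0 1, B = blkW (n+1), M = n+1, q = 2^n / 8 (n = (ch i)^2, card_adr = 2^n): for R in W' take T from cert_ShP; zeroing a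
block disjoint from T keeps ShP, and keeps W (Short.zero_iff). So P(W', no zero block) <= ((1-2^-(n+1))^(2^n) + 2^n/8 * 2^-(n+1)) P(W') = (1 - bt true n 0 + 1/16) P(W'), bt >= 1/4 (bt_ge, N = 0):
P(W', EH true n 0 false) >= (3/16) P(W') (num 0 = [], bM true n 0 = n + 1, lo = 0, hi = 1).
te_fin: Bad = {R : for all v: g.run A R v in TL R} inter {R in ShP g K A i for infinitely many i}. Suppose P(Bad) /= 0; odensity with 1/16: σ, kappa. i0 large: |σ| <= ch i0, Good3 for i >= i0. a_i =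
P(S inter NoV V i0 i inter V i), S = ocyl σ, V = ShP g K A. Bad inter S is contained in the union of these (disjoint, measurable) sets and disjoint from U = the union of the sets
S inter NoV V i0 i inter V i inter EH true (ch i^2) 0 false: if g.run A R v = un (ch i) in TL R then R notin EH at i (mem_lev). te_cov (W = S inter NoV V i0 i is Short (ch i)) gives P(U) >= (3/16) sum a_i >=
(3/16) P(Bad inter S) and P(Bad inter S) <= P(S) - P(U) (U measurable, in S): with x = P(Bad inter S) >= (15/16) kappa: x <= kappa - (3/16) x, x <= (16/19) kappa < (15/16) kappa. Contradiction. (Countable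
union: measure_iUnion for disjoint measurable sets, or finite unions and monotone limit.)
-/

namespace Pool.Agent.Work.MP_0532f7_lc.PP

open MeasureTheory

local instance te2_instProb : IsProbabilityMeasure randomOracle := by
  unfold randomOracle; infer_instance

private theorem EH_eq (n : ℕ) : EH true n 0 false =
    {R | ∃ x ∈ adr n 0 1, ∀ y ∈ blkW (n + 1) x, R y = false} := rfl

theorem te_cov {g : Mach} {K : ℕ} (A : List Bool → Bool) {i : ℕ} (h : Good3 g K (ch i))
    {W : Set (List Bool → Bool)} (hW : Short (ch i) W) :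
    3 / 16 * randomOracle.real (W ∩ ShP g K A i) ≤
      randomOracle.real (W ∩ ShP g K A i ∩ EH true (ch i * ch i) 0 false) := by
  classical
  have hm3 : 3 ≤ ch i := by have := ch_ge i; omega
  set n := ch i * ch i with hn
  have hmn : ch i ≤ n := Nat.le_mul_self _
  have hn1 : 1 ≤ n := by omega
  have hn2 : n < 2 ^ n := Nat.lt_two_pow_self
  have hWm : MeasurableSet (W ∩ ShP g K A i) :=
    ((hW.mono (by omega : ch i ≤ 2 ^ n)).inter (short_ShP A h)).meas
  have hEm : MeasurableSet (EH true n 0 false) := (short_EH true n 0 false).meas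
  have hc := cov (adr n 0 1) (fun y => blkW (n + 1) y) (n + 1) (2 ^ n / 8)
    (fun x _ => card_blkW _ _) (fun x hx x' hx' hne => adr_disj hx hx' hne)
    (W ∩ ShP g K A i) hWm (by
      rintro R ⟨hR1, hR2⟩
      obtain ⟨T, hT, hT2⟩ := cert_ShP h hR2
      refine ⟨T, ?_, fun x hx hd => ⟨(hW.zero_iff hx hmn R).mpr hR1, hT2 _ fun w hw => ?_⟩⟩
      · rw [Nat.le_div_iff_mul_le (by norm_num), mul_comm]
        exact hT
      · have hwx : w ∉ blkW (n + 1) x := fun h2 => Finset.disjoint_left.mp hd h2 hw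
        unfold zeroOn
        rw [if_neg hwx])
  rw [← EH_eq n, card_adr] at hc
  have hbt := bt_ge true hn1 0
  have hbt2 : bt true n 0 = 1 - (1 - (1 / 2 : ℝ) ^ (n + 1)) ^ (2 ^ n * (1 - 0)) := rfl
  have h1 : (1 - (1 / 2 : ℝ) ^ (n + 1)) ^ (2 ^ n * (1 - 0)) ≤ 3 / 4 := by
    rw [hbt2] at hbt
    norm_num at hbt ⊢
    linarith
  have h2 : ((2 ^ n / 8 : ℕ) : ℝ) * (1 / 2 : ℝ) ^ (n + 1) ≤ 1 / 16 := by
    have h3 : ((2 ^ n / 8 : ℕ) : ℝ) ≤ (2 : ℝ) ^ n / 8 := by
      have := @Nat.cast_div_le ℝ _ _ _ (2 ^ n) 8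
      push_cast at this
      exact this
    have h4 : (0 : ℝ) < (1 / 2 : ℝ) ^ (n + 1) := by positivity
    calc ((2 ^ n / 8 : ℕ) : ℝ) * (1 / 2 : ℝ) ^ (n + 1) ≤ (2 : ℝ) ^ n / 8 * (1 / 2 : ℝ) ^ (n + 1) :=
          mul_le_mul_of_nonneg_right h3 h4.le
      _ = ((2 : ℝ) * (1 / 2)) ^ n / 16 := by rw [pow_succ, mul_pow]; ring
      _ = 1 / 16 := by norm_num
  have hP0 : 0 ≤ randomOracle.real (W ∩ ShP g K A i) := measureReal_nonneg
  have h5 : ((1 - (1 / 2 : ℝ) ^ (n + 1)) ^ (2 ^ n * (1 - 0)) +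
      ((2 ^ n / 8 : ℕ) : ℝ) * (1 / 2 : ℝ) ^ (n + 1)) * randomOracle.real (W ∩ ShP g K A i) ≤
      13 / 16 * randomOracle.real (W ∩ ShP g K A i) :=
    mul_le_mul_of_nonneg_right (by linarith) hP0
  have h6 := hc.trans h5
  have h7 := measureReal_inter_add_sdiff (μ := randomOracle) (s := W ∩ ShP g K A i) hEm
  rw [Set.sdiff_eq] at h7
  linarith

theorem te_fin {g : Mach} (A : List Bool → Bool) {K m0 : ℕ}
    (h : ∀ m, m0 ≤ m → Good3 g K m) : ∀ᵐ R ∂randomOracle,
      (∀ v, g.run A R v ∈ TL R) → ∃ i0, ∀ i, i0 ≤ i → R ∉ ShP g K A i := by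
  classical
  rw [ae_iff]
  by_contra hne
  obtain ⟨σ, hσ⟩ := odensity _ hne (1 / 16) (by norm_num)
  set Bad : Set (List Bool → Bool) := {R | ¬ ((∀ v, g.run A R v ∈ TL R) →
    ∃ i0, ∀ i, i0 ≤ i → R ∉ ShP g K A i)} with hBad
  have hκ : 0 < (1 / 2 : ℝ) ^ σ.length := by positivity
  set i0 := max σ.length m0 with hi0
  set V : ℕ → Set (List Bool → Bool) := fun i => ShP g K A i with hV
  have hG : ∀ i, i0 ≤ i → Good3 g K (ch i) := fun i hi => h _ (by
    have h1 := ch_ge i
    have h2 := le_max_right σ.length m0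
    omega)
  have hσi : ∀ i, i0 ≤ i → σ.length ≤ ch i := fun i hi => by
    have h1 := ch_ge i
    have h2 := le_max_left σ.length m0
    omega
  have hVs : ∀ i, i0 ≤ i → Short (2 ^ (ch i * ch i)) (V i) := fun i hi => short_ShP A (hG i hi)
  have hVs' : ∀ j i, i0 ≤ j → j < i → Short (ch i) (V j) := by
    intro j i hj hji
    refine (hVs j hj).mono ?_
    have h1 : ch (j + 1) ≤ ch i := ch_strictMono.monotone hji
    have h2 : 2 ^ (ch j * ch j) ≤ ch (j + 1) := by
      show 2 ^ (ch j * ch j) ≤ EE (ch j)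
      unfold EE
      have h3 : 2 ^ (ch j * ch j) + 1 < 2 ^ (2 ^ (ch j * ch j) + 1) := Nat.lt_two_pow_self
      have h4 : 2 ^ (2 ^ (ch j * ch j) + 1) < 2 ^ (2 ^ (2 ^ (ch j * ch j) + 1)) :=
        Nat.lt_two_pow_self
      omega
    exact h2.trans h1
  have hWs : ∀ i, i0 ≤ i → Short (ch i) (ocyl σ ∩ NoV V i0 i) := fun i hi =>
    (short_ocyl σ (hσi i hi)).inter (short_NoV i0 i fun j hj hji => hVs' j i hj hji)
  set F : ℕ → Set (List Bool → Bool) := fun i => ocyl σ ∩ NoV V i0 i ∩ V i with hF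
  set E : ℕ → Set (List Bool → Bool) := fun i => EH true (ch i * ch i) 0 false with hE
  have hFE : ∀ i, i0 ≤ i → randomOracle.real (F i \ E i) ≤ 13 / 16 * randomOracle.real (F i) := by
    intro i hi
    have h1 := te_cov A (hG i hi) (hWs i hi)
    have h2 := measureReal_inter_add_sdiff (μ := randomOracle) (s := F i)
      (short_EH true (ch i * ch i) 0 false).meas
    have h3 : 3 / 16 * randomOracle.real (F i) ≤ randomOracle.real (F i ∩ E i) := h1
    have h4 : randomOracle.real (F i ∩ E i) + randomOracle.real (F i \ E i) =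
      randomOracle.real (F i) := h2
    linarith
  have hsub : Bad ∩ ocyl σ ⊆ ⋃ i : ℕ, F (i0 + i) \ E (i0 + i) := by
    rintro R ⟨hR, hRσ⟩
    rw [hBad] at hR
    simp only [Set.mem_ofPred_eq, Classical.not_imp, not_exists, not_forall, not_not] at hR
    obtain ⟨hR1, hR2⟩ := hR
    obtain ⟨i, hi, hRi⟩ := hR2 i0
    have hex : ∃ i, i0 ≤ i ∧ R ∈ V i := ⟨i, hi, hRi⟩
    obtain ⟨h1, h2⟩ := Nat.find_spec hex
    set j := Nat.find hex with hj
    refine Set.mem_iUnion.mpr ⟨j - i0, ?_⟩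
    have h3 : i0 + (j - i0) = j := by omega
    rw [h3]
    refine ⟨⟨⟨hRσ, fun l hl hlj hRl => Nat.find_min hex hlj ⟨hl, hRl⟩⟩, h2⟩, ?_⟩
    obtain ⟨v, -, hv⟩ := h2
    have h4 := hR1 v
    rw [hv] at h4
    exact (mem_lev.mp h4).2
  have hle : randomOracle (Bad ∩ ocyl σ) ≤ ENNReal.ofReal (13 / 16 * (1 / 2 : ℝ) ^ σ.length) := by
    refine (measure_mono hsub).trans ((measure_iUnion_le _).trans ?_)
    refine ENNReal.tsum_le_of_sum_range_le fun N => ?_
    have h1 : ∀ k, randomOracle (F (i0 + k) \ E (i0 + k)) =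
        ENNReal.ofReal (randomOracle.real (F (i0 + k) \ E (i0 + k))) := fun k =>
      (ofReal_measureReal (measure_ne_top _ _)).symm
    simp only [h1]
    rw [← ENNReal.ofReal_sum_of_nonneg fun _ _ => measureReal_nonneg]
    refine ENNReal.ofReal_le_ofReal ?_
    have h2 := first_sum (ocyl σ) V i0 (meas_ocyl σ) (fun i hi => (hVs i hi).meas)
      (Finset.Ico i0 (i0 + N)) (fun i hi => (Finset.mem_Ico.mp hi).1)
    rw [ocyl_real, Finset.sum_Ico_eq_sum_range, Nat.add_sub_cancel_left] at h2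
    calc ∑ k ∈ Finset.range N, randomOracle.real (F (i0 + k) \ E (i0 + k)) ≤
          ∑ k ∈ Finset.range N, 13 / 16 * randomOracle.real (F (i0 + k)) :=
          Finset.sum_le_sum fun k _ => hFE _ (Nat.le_add_right _ _)
      _ = 13 / 16 * ∑ k ∈ Finset.range N, randomOracle.real (F (i0 + k)) := by
          rw [Finset.mul_sum]
      _ ≤ 13 / 16 * (1 / 2 : ℝ) ^ σ.length := mul_le_mul_of_nonneg_left h2 (by norm_num)
  have h5 := hσ.trans_le hle
  have h6 := (ENNReal.ofReal_lt_ofReal_iff_of_nonneg (by positivity)).mp h5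
  linarith

end Pool.Agent.Work.MP_0532f7_lc.PP
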