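import Mathlib
import Pool.Agent.Work.MP_0532f7_lc.PP.TE0
import Pool.Agent.Work.MP_0532f7_lc.PP.Ind
import Pool.Agent.Work.MP_0532f7_lc.PP.Beta

/-!
The tally set is infinite. (S-M)

P(for all j with a <= j < a + k: R in EH true (ch j^2) 0 false) <= (1/2)^k by induction on k: the event for k is Short (ch (a+k)) (each EH at level j is Short (2^(ch j^2)) (short_EH2, N = 0), and
2^(m*m) <= EE m = ch (j+1): lev_bound of OMain2.lean needs import; or prove it directly), ind1 and bt_le. So P(for all j >= a: R in EH) = 0 for every a; countable union.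
-/

namespace Pool.Agent.Work.MP_0532f7_lc.PP

open MeasureTheory

private theorem te3_step (a : ℕ) : ∀ k : ℕ,
    Short (ch (a + k)) {R : List Bool → Bool | ∀ j, a ≤ j → j < a + k →
      R ∈ EH true (ch j * ch j) 0 false} ∧
    randomOracle.real {R : List Bool → Bool | ∀ j, a ≤ j → j < a + k →
      R ∈ EH true (ch j * ch j) 0 false} ≤ (1 / 2) ^ k := by
  intro k
  induction k with
  | zero =>
    constructor
    · intro R R' _ _ j h1 h2
      omega
    · rw [pow_zero]
      exact measureReal_le_one
  | succ k ih =>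
    have e : {R : List Bool → Bool | ∀ j, a ≤ j → j < a + (k + 1) →
        R ∈ EH true (ch j * ch j) 0 false} =
        {R : List Bool → Bool | ∀ j, a ≤ j → j < a + k →
          R ∈ EH true (ch j * ch j) 0 false} ∩ EH true (ch (a + k) * ch (a + k)) 0 false := by
      ext R
      constructor
      · intro h
        exact ⟨fun j h1 h2 => h j h1 (by omega), h (a + k) (by omega) (by omega)⟩
      · rintro ⟨h1, h2⟩ j h3 h4
        rcases Nat.lt_or_ge j (a + k) with h5 | h5
        · exact h1 j h3 h5
        · have : j = a + k := by omega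
          rw [this]
          exact h2
    have h3 : 3 ≤ ch (a + k) := by
      have := ch_ge (a + k)
      omega
    rw [e]
    constructor
    · have h4 : ch (a + k) ≤ ch (a + (k + 1)) := (ch_lt (a + k)).le
      refine (ih.1.mono h4).inter ((short_EH2 true h3 (Nat.zero_le _) false).mono ?_)
      show _ ≤ EE (ch (a + k))
      unfold EE
      apply Nat.pow_le_pow_right (by omega)
      have h5 : ch (a + k) * ch (a + k) < 2 ^ (ch (a + k) * ch (a + k)) := Nat.lt_two_pow_self
      have h6 : 2 ^ (ch (a + k) * ch (a + k)) + 1 <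
        2 ^ (2 ^ (ch (a + k) * ch (a + k)) + 1) := Nat.lt_two_pow_self
      omega
    · rw [ind1 true 0 false (Nat.le_mul_self _) ih.1, pow_succ']
      exact mul_le_mul (bt_le true _ 0) ih.2 measureReal_nonneg (by norm_num)

theorem te_inf : ∀ᵐ R ∂randomOracle, ∀ a, ∃ i, a ≤ i ∧ R ∉ EH true (ch i * ch i) 0 false := by
  rw [ae_all_iff]
  intro a
  rw [ae_iff]
  have h1 : randomOracle.real {R | ¬ ∃ i, a ≤ i ∧ R ∉ EH true (ch i * ch i) 0 false} ≤ 0 := by
    have h2 : Filter.Tendsto (fun k : ℕ => (1 / 2 : ℝ) ^ k) Filter.atTop (nhds 0) :=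
      tendsto_pow_atTop_nhds_zero_of_lt_one (by norm_num) (by norm_num)
    refine ge_of_tendsto' h2 (fun k => ?_)
    refine (measureReal_mono ?_).trans (te3_step a k).2
    intro R hR j h3 _
    by_contra h4
    exact hR ⟨j, h3, h4⟩
  have h3 := le_antisymm h1 measureReal_nonneg
  rwa [measureReal_eq_zero_iff] at h3

end Pool.Agent.Work.MP_0532f7_lc.PP
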