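import Mathlib
import Pool.Agent.Work.MP_0532f7_lc.PP.TE0
import Pool.Agent.Work.MP_0532f7_lc.PP.Ver
import Pool.Agent.Work.MP_0532f7_lc.PP.Adr
import Pool.Agent.Work.MP_0532f7_lc.PP.AdrZ

/-!
The tally set is in coNP, and the brute force system. (M)

te_co: V from exists_wit true with g = fun _ => [] (un 0 = []), a = 0, b = 1 (constants), N i = 0, i1 = 0; relation V' (pr w y) = [true] iff l w (exists_lv 0) and not V (pr w y) = [true]; as co_lev in
Sets.lean; |y| <= |w|^2 + 1 for addresses (adr_len; hi true 0 false = 1, bl true 0 = 1).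
te_bf: f u: z = run (ojoin A R) u (PolyTimeRel.run), k = un (8 |u|^2 + 8) and the table T of the values R (num j), j < 8|u|^2+8 (PolyTimeRel.table, queries true :: num j). If l z (so z = un (ch i)), and
2^n <= |u| (n = |z|^2; test by un (min (2^n) (|u|+1)) (FP.pcI) not longer than u), then the block words have length <= 2n+2, number < 2^(2n+3) <= 8 |u|^2, so look T = R on them (look_tab), and a
zero block in adr n 0 1 with blocks of length n+1 is found by the brute force test on tables with the budget k (exb over y, lst over the block, exactly as in ZT.lean; AdrT.lean for the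
addresses). f u = z if there is none, w0 otherwise. PolyTimeRel.ite / post / pair.
-/

namespace Pool.Agent.Work.MP_0532f7_lc.PP

open MeasureTheory

private theorem ch_inj {i j : ℕ} (h : un (ch i) = un (ch j)) : i = j :=
  ch_strictMono.injective (un_inj h)

private theorem eh_eq (n : ℕ) : EH true n 0 false = Zs n (bM true n 0) 0 1 := rfl

private theorem bm_eq (n : ℕ) : bM true n 0 = n + 1 := rfl

theorem te_co (A R : List Bool → Bool) : CoNPRel (ojoin A R) (TL R) := by
  obtain ⟨V, hV, hV2⟩ := exists_wit true (g := fun _ => []) (FP.const []) (a := fun _ => 0)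
    (b := fun _ => 1) (FP.const (un 0)) (FP.const (un 1)) A R (fun _ => 0)
    (fun i => Nat.zero_le i) (fun i => rfl) 0
  obtain ⟨l, hl, hl2⟩ := exists_lv 0
  have hl3 : FP (fun z => [l (fs z)]) := FPb.comp hl FP.fsI
  refine ⟨_, PolyTimeRel.ite (PolyTimeRel.of_fp hl3 (ojoin A R))
    (PolyTimeRel.ite hV (PolyTimeRel.of_fp (FP.const []) _)
      (PolyTimeRel.of_fp (FP.const [true]) _)) (PolyTimeRel.of_fp (FP.const []) _),
    Polynomial.X * Polynomial.X + 1, fun z => ?_⟩
  constructor
  · rintro ⟨i, h1, rfl, h2⟩ y hy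
    rw [eh_eq] at h2
    have h3 : l (un (ch i)) = true := (hl2 _).mpr ⟨i, h1, rfl⟩
    have h4 : V (pr (un (ch i)) y) ≠ [true] := by
      intro h5
      obtain ⟨j, h6, h7, h8, h9⟩ := (hV2 _ _).mp h5
      have h10 := ch_inj h7
      subst h10
      exact h2 ⟨y, h8, h9⟩
    rw [fs_pr, h3, if_pos rfl, if_neg h4]
  · intro h
    have h1 : l z = true := by
      have h2 := h [] (by simp)
      rw [fs_pr] at h2
      by_contra h3
      rw [Bool.not_eq_true] at h3
      rw [h3, if_neg (by simp)] at h2
      exact absurd h2 (by simp)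
    obtain ⟨i, h2, rfl⟩ := (hl2 _).mp h1
    refine ⟨i, h2, rfl, ?_⟩
    show R ∉ EH true (ch i * ch i) 0 false
    rw [eh_eq]
    rintro ⟨y, hy, h3⟩
    have h4 := h y (by
      have h5 := (adr_len hy).2
      rw [un_length]
      simp only [Polynomial.eval_add, Polynomial.eval_mul, Polynomial.eval_X,
        Polynomial.eval_one]
      exact h5)
    rw [fs_pr, h1, if_pos rfl, if_pos ((hV2 _ _).mpr ⟨i, h2, rfl, hy, h3⟩)] at h4
    exact absurd h4 (by simp)

/-- test of a letter of the block -/
private def te4Q (z : List Bool) : Bool := look (fs (fs z)) (sn (fs z) ++ sn z)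

private theorem te4QI : FPb te4Q := FPb.lookI FP.fsI.fst (FP.fsI.snd.app FP.snI)

private theorem te4_lst (q : List Bool → Bool) (c : List Bool) (K : ℕ) :
    lst q c K = K ↔ ∀ j < K, q (pr c (un j)) = false := by
  obtain ⟨h1, h2, h3⟩ := lst_spec q c K
  constructor
  · intro h j hj
    exact h2 j (by omega)
  · intro h
    by_contra h4
    have h5 : lst q c K < K := by omega
    have h6 := h3 h5
    rw [h _ h5] at h6
    exact absurd h6 (by decide)

/-- the argument is `pr (pr T (pr par mm)) y` -/
private def te4P (t : List Bool → Bool) (w : List Bool) : Bool :=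
  t (pr (fs (sn (fs w))) (sn w)) &&
    decide (un (lst te4Q (pr (fs (fs w)) (sn w)) (sn (sn (fs w))).length) =
      un (sn (sn (fs w))).length)

private theorem te4PI {t : List Bool → Bool} (ht : FPb t) : FPb (te4P t) :=
  (ht.comp (FP.pair FP.fsI.snd.fst FP.snI)).and
    (FPb.eq (FP.lstI te4QI (FP.pair FP.fsI.fst FP.snI) FP.fsI.snd.snd)
      (FP.unL FP.fsI.snd.snd))

private theorem te4P_iff {t : List Bool → Bool}
    (ht : ∀ (n a b : ℕ) (y : List Bool),
      t (pr (pr (un n) (pr (un a) (un b))) y) = true ↔ y ∈ adr n a b)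
    (T y : List Bool) (n a b M : ℕ) :
    te4P t (pr (pr T (pr (pr (un n) (pr (un a) (un b))) (un M))) y) = true ↔
      y ∈ adr n a b ∧ ∀ w ∈ blkW M y, look T w = false := by
  unfold te4P
  simp only [fs_pr, sn_pr, Bool.and_eq_true, decide_eq_true_eq, un_length]
  rw [ht, un_eq_iff, te4_lst]
  refine and_congr Iff.rfl ⟨fun h w hw => ?_, fun h j hj => ?_⟩
  · obtain ⟨j, hj, rfl⟩ := mem_blkW.mp hw
    have := h j hj
    unfold te4Q at this
    simp only [fs_pr, sn_pr] at this
    exact this
  · unfold te4Q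
    simp only [fs_pr, sn_pr]
    exact h _ (mem_blkW.mpr ⟨j, hj, rfl⟩)

private theorem te4_exb {t : List Bool → Bool}
    (ht : ∀ (n a b : ℕ) (y : List Bool),
      t (pr (pr (un n) (pr (un a) (un b))) y) = true ↔ y ∈ adr n a b)
    (T : List Bool) (n a b M K : ℕ) (hK : 2 ^ (n + b + 1) ≤ K) :
    exb (te4P t) (pr T (pr (pr (un n) (pr (un a) (un b))) (un M))) K = true ↔
      look T ∈ Zs n M a b := by
  rw [exb_iff]
  constructor
  · rintro ⟨i, _, h⟩
    rw [te4P_iff ht] at h
    exact ⟨_, h.1, h.2⟩
  · rintro ⟨y, hy, h⟩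
    refine ⟨val y, ?_, ?_⟩
    · have := val_lt (adr_len hy).2
      omega
    · rw [num_val, te4P_iff ht]
      exact ⟨hy, h⟩

private theorem te4_zs (R : List Bool → Bool) (n K : ℕ) (hK : 2 ^ (2 * n + 2) ≤ K) :
    look (tab R K) ∈ Zs n (n + 1) 0 1 ↔ R ∈ Zs n (n + 1) 0 1 := by
  have h1 : ∀ y ∈ adr n 0 1, ∀ w ∈ blkW (n + 1) y, look (tab R K) w = R w := by
    intro y hy w hw
    apply look_tab
    have h2 := (adr_length hy hw).2
    have h3 : val w + 1 < 2 ^ (2 * n + 2) := val_lt (n := 2 * n + 1) (b := w) (by omega)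
    exact lt_of_lt_of_le (by omega) hK
  constructor
  · rintro ⟨y, hy, h⟩
    exact ⟨y, hy, fun w hw => by rw [← h1 y hy w hw]; exact h w hw⟩
  · rintro ⟨y, hy, h⟩
    exact ⟨y, hy, fun w hw => by rw [h1 y hy w hw]; exact h w hw⟩

/-- the context of the search; the argument is `pr u (pr z T)` -/
private def te4C (w : List Bool) : List Bool :=
  pr (sn (sn w)) (pr (pr (un ((fs (sn w)).length * (fs (sn w)).length)) (pr (un 0) (un 1)))
    (true :: un ((fs (sn w)).length * (fs (sn w)).length)))

private theorem te4CI : FP te4C :=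
  FP.pair FP.snI.snd (FP.pair (FP.pair (FP.mulU FP.snI.fst FP.snI.fst) (FP.const _))
    ((FP.cons true).comp (FP.mulU FP.snI.fst FP.snI.fst)))

/-- the final test -/
private def te4D (l t : List Bool → Bool) (w : List Bool) : Bool :=
  l (fs (sn w)) &&
    (((un (min (2 ^ (un ((fs (sn w)).length * (fs (sn w)).length)).length)
      (true :: fs w).length)).drop (fs w).length).isEmpty &&
      !exb (te4P t) (te4C w) (sn (sn w)).length)

private theorem te4DI {l t : List Bool → Bool} (hl : FPb l) (ht : FPb t) : FPb (te4D l t) :=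
  (hl.comp FP.snI.fst).and
    ((FPb.isNil.comp (FP.drop FP.fsI (FP.pcI ((FP.cons true).comp FP.fsI)
      (FP.mulU FP.snI.fst FP.snI.fst)))).and (FPb.exbI (te4PI ht) te4CI FP.snI.snd).not)

private theorem te4D_iff {l t : List Bool → Bool}
    (hl : ∀ w : List Bool, l w = true ↔ ∃ i, 0 ≤ i ∧ w = un (ch i))
    (ht : ∀ (n a b : ℕ) (y : List Bool),
      t (pr (pr (un n) (pr (un a) (un b))) y) = true ↔ y ∈ adr n a b)
    (R : List Bool → Bool) (u z : List Bool) (K : ℕ) (hK : 4 * (u.length * u.length) + 1 ≤ K) :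
    te4D l t (pr u (pr z (tab R K))) = true ↔ ∃ i, z = un (ch i) ∧
      2 ^ (ch i * ch i) ≤ u.length ∧ R ∉ EH true (ch i * ch i) 0 false := by
  unfold te4D te4C
  simp only [fs_pr, sn_pr, Bool.and_eq_true, un_length, List.length_cons, omb_tab_length]
  rw [hl, List.isEmpty_iff, List.drop_eq_nil_iff, un_length, Bool.not_eq_true']
  have key : ∀ n, 2 ^ n ≤ u.length →
      (exb (te4P t) (pr (tab R K) (pr (pr (un n) (pr (un 0) (un 1))) (true :: un n))) K = true ↔
        R ∈ EH true n 0 false) := by
    intro n hn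
    have h1 : (2 : ℕ) ^ (2 * n + 2) = 4 * (2 ^ n * 2 ^ n) := by
      rw [pow_add, two_mul, pow_add]
      ring
    have h2 : 2 ^ n * 2 ^ n ≤ u.length * u.length := Nat.mul_le_mul hn hn
    have h3 : (2 : ℕ) ^ (n + 1 + 1) ≤ 2 ^ (2 * n + 2) :=
      Nat.pow_le_pow_right (by norm_num) (by omega)
    rw [← un_succ, te4_exb ht (tab R K) n 0 1 (n + 1) K (by omega), te4_zs R n K (by omega),
      eh_eq, bm_eq]
  constructor
  · rintro ⟨⟨i, -, rfl⟩, h1, h2⟩
    rw [un_length] at h1 h2
    have h3 : 2 ^ (ch i * ch i) ≤ u.length := by omega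
    refine ⟨i, rfl, h3, fun h4 => ?_⟩
    rw [(key _ h3).mpr h4] at h2
    exact absurd h2 (by decide)
  · rintro ⟨i, rfl, h1, h2⟩
    rw [un_length]
    refine ⟨⟨i, Nat.zero_le _, rfl⟩, by omega, ?_⟩
    by_contra h3
    rw [Bool.not_eq_false] at h3
    exact h2 ((key _ h1).mp h3)

open Classical in
theorem te_bf (A R : List Bool → Bool) (w0 : List Bool) : ∃ f : List Bool → List Bool,
    PolyTimeRel (ojoin A R) f ∧ ∀ u, f u =
      if (∃ i, run (ojoin A R) u = un (ch i) ∧ 2 ^ (ch i * ch i) ≤ u.length ∧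
        R ∉ EH true (ch i * ch i) 0 false) then run (ojoin A R) u else w0 := by
  obtain ⟨l, hl, hl2⟩ := exists_lv 0
  obtain ⟨t, ht, ht2⟩ := exists_adt
  have hq : FP (fun v : List Bool => true :: num (sn v).length) :=
    (FP.cons true).comp (FP.numI FP.snI)
  have h4 : FP (fun u : List Bool => un (u.length * u.length)) := FP.mulU FP.id FP.id
  have hc : FP (fun u : List Bool => (un (u.length * u.length) ++ un (u.length * u.length)) ++
      ((un (u.length * u.length) ++ un (u.length * u.length)) ++ [true])) :=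
    (h4.app h4).app ((h4.app h4).app (FP.const [true]))
  have h1 := (PolyTimeRel.of_fp FP.id (ojoin A R)).pair
    ((PolyTimeRel.run (ojoin A R)).pair (PolyTimeRel.table (ojoin A R) hq hc))
  have h2 : FP (fun w => if te4D l t w then fs (sn w) else w0) :=
    FP.ite (te4DI hl ht) FP.snI.fst (FP.const w0)
  refine ⟨_, h1.post h2, fun u => ?_⟩
  have h3 : ((List.range ((un (u.length * u.length) ++ un (u.length * u.length)) ++
      ((un (u.length * u.length) ++ un (u.length * u.length)) ++ [true])).length).map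
      (fun j => ojoin A R (true :: num (sn (pr u (un j))).length))) =
      tab R (4 * (u.length * u.length) + 1) := by
    simp only [List.length_append, un_length, List.length_singleton, sn_pr]
    have e : u.length * u.length + u.length * u.length +
        (u.length * u.length + u.length * u.length + 1) = 4 * (u.length * u.length) + 1 := by omega
    rw [e]
    rfl
  rw [h3]
  have h5 := te4D_iff hl2 ht2 R u (run (ojoin A R) u) (4 * (u.length * u.length) + 1) le_rfl
  by_cases h6 : te4D l t (pr u (pr (run (ojoin A R) u)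
      (tab R (4 * (u.length * u.length) + 1)))) = true
  · rw [if_pos h6, if_pos (h5.mp h6), sn_pr, fs_pr]
  · rw [if_neg h6, if_neg (fun h7 => h6 (h5.mpr h7))]

end Pool.Agent.Work.MP_0532f7_lc.PP
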