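import Mathlib
import Pool.Agent.Work.MP_0532f7_lc.PP.TE2
import Pool.Agent.Work.MP_0532f7_lc.PP.TE3
import Pool.Agent.Work.MP_0532f7_lc.PP.TE4
import Pool.Agent.Work.MP_0532f7_lc.PP.MachC
import Pool.Agent.Work.MP_0532f7_lc.PP.Sets
import Pool.Agent.Work.MP_0532f7_lc.SlUp

/-!
A tally set in coNP minus NP with a p-optimal proof system. (M)

a.e. R: te_inf, and te_fin for all machines g that are ok (countable_mach; exists_good3 gives K, m0 for each). L = TL R (tally_lev, te_co). w0 in L by te_inf. f from te_bf.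
range f = L: every value is un (ch i) with R notin EH (in L by mem_lev) or w0. Conversely for un (ch i) in L: run_code for the identity (PolyTimeRel.of_fp FP.id): run X (pr c (pr x t)) = x for
|t| >= P(|x|): take x = un (ch i), |t| >= 2^(ch i^2) too.
p-optimal: g with range L, a machine G for g (exists_mach), K, i0 from te_fin; c, P from run_code for g. For v with g v = un (ch i): if i >= i0 then 2^(ch i^2) < |v|^K (not in ShP); if i < i0 then
2^(ch i^2) <= B = 2^(ch i0^2). h v = pr c (pr v t), |t| = P(|v|) + |v|^K + B (FP.clock): run X (h v) = g v = un (ch i), 2^(ch i^2) <= |t| <= |h v|, R notin EH as g v in L: f (h v) = g v. h is PolyTime.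
not NP: if V, p define L, let g w = fs w if |sn w| <= p(|fs w|) and V (pr (fs w) (sn w)) = [true], w0 otherwise: PolyTimeRel, all values in L. te_fin: i0, K. For i >= i0 in L (infinitely many) there is y,
|y| <= p(ch i), so v = pr (un (ch i)) y is a g-proof of un (ch i) with |v|^K <= (2 ch i + 1 + p(ch i))^K <= 2^(ch i) <= 2^(ch i^2) for i large (poly_pow_le' of OMain3.lean): contradiction.
-/

namespace Pool.Agent.Work.MP_0532f7_lc.PP

open MeasureTheory

private theorem te5_fin (A : List Bool → Bool) : ∀ᵐ R ∂randomOracle,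
    ∀ g : {P : Mach // P.ok}, (∀ v, g.1.run A R v ∈ TL R) →
      ∃ K i0 : ℕ, ∀ i, i0 ≤ i → R ∉ ShP g.1 K A i := by
  have := countable_mach
  rw [ae_all_iff]
  intro g
  obtain ⟨K, m0, -, h⟩ := exists_good3 g.2
  filter_upwards [te_fin A h] with R hR hv
  obtain ⟨i0, h0⟩ := hR hv
  exact ⟨K, i0, h0⟩

private theorem te5_mem {R : List Bool → Bool} {w : List Bool} :
    w ∈ TL R ↔ ∃ i, w = un (ch i) ∧ R ∉ EH true (ch i * ch i) 0 false := by
  constructor
  · rintro ⟨i, -, h1, h2⟩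
    exact ⟨i, h1, h2⟩
  · rintro ⟨i, h1, h2⟩
    exact ⟨i, Nat.zero_le _, h1, h2⟩

private theorem te5_np {A R : List Bool → Bool}
    (hinf : ∀ a, ∃ i, a ≤ i ∧ R ∉ EH true (ch i * ch i) 0 false)
    (hfin : ∀ g : {P : Mach // P.ok}, (∀ v, g.1.run A R v ∈ TL R) →
      ∃ K i0 : ℕ, ∀ i, i0 ≤ i → R ∉ ShP g.1 K A i)
    {w0 : List Bool} (hw0 : w0 ∈ TL R) : ¬ NPRel (ojoin A R) (TL R) := by
  rintro ⟨V, hV, p, hp⟩
  obtain ⟨kp, hkp, hkpl⟩ := FP.clock p
  obtain ⟨g, hgdef⟩ : ∃ g : List Bool → List Bool, g = fun z =>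
      if decide ((sn z).length + ([] : List Bool).length ≤ (kp (fs z)).length) = true then
        (if V (pr (fs z) (sn z)) = [true] then fs z else w0) else w0 := ⟨_, rfl⟩
  have hg : PolyTimeRel (ojoin A R) g := by
    rw [hgdef]
    exact PolyTimeRel.iteb
      (PolyTimeRel.of_fp (FPb.leI FP.snI FP.nil (hkp.comp FP.fsI)) _)
      ((hV.pre (FP.fsI.pair FP.snI)).ite (PolyTimeRel.of_fp FP.fsI _)
        (PolyTimeRel.of_fp (FP.const w0) _))
      (PolyTimeRel.of_fp (FP.const w0) _)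
  have hgL : ∀ v, g v ∈ TL R := by
    intro v
    rw [hgdef]
    dsimp only
    split_ifs with h1 h2
    · rw [hp]
      refine ⟨sn v, ?_, h2⟩
      rw [decide_eq_true_eq, List.length_nil, Nat.add_zero, hkpl] at h1
      exact h1
    · exact hw0
    · exact hw0
  obtain ⟨G, hG, hGv⟩ := exists_mach hg
  obtain ⟨K, i0, h0⟩ := hfin ⟨G, hG⟩ (fun v => by
    show G.run A R v ∈ TL R
    rw [hGv]
    exact hgL v)
  obtain ⟨m0, hm0⟩ := poly_pow_le' ((2 * Polynomial.X + 1 + p) ^ K)
  obtain ⟨i, hi, hiE⟩ := hinf (max i0 m0)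
  have hmem : un (ch i) ∈ TL R := te5_mem.2 ⟨i, rfl, hiE⟩
  obtain ⟨y, hy1, hy2⟩ := (hp _).1 hmem
  rw [un_length] at hy1
  refine h0 i ((le_max_left _ _).trans hi) ⟨pr (un (ch i)) y, ?_, ?_⟩
  · have h3 : m0 ≤ ch i := ((le_max_right _ _).trans hi).trans
      ((Nat.le_add_right i 3).trans (ch_ge i))
    have h4 := hm0 (ch i) h3
    have h5 : (pr (un (ch i)) y).length ≤ 2 * ch i + 1 + p.eval (ch i) := by
      rw [pr_length, un_length]
      omega
    calc (pr (un (ch i)) y).length ^ K ≤ (2 * ch i + 1 + p.eval (ch i)) ^ K :=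
          Nat.pow_le_pow_left h5 K
      _ = ((2 * Polynomial.X + 1 + p) ^ K).eval (ch i) := by simp
      _ ≤ 2 ^ ch i := h4
      _ ≤ 2 ^ (ch i * ch i) := by
          refine Nat.pow_le_pow_right (by norm_num) ?_
          have := ch_ge i
          nlinarith
  · show G.run A R _ = _
    rw [hGv, hgdef]
    dsimp only
    rw [fs_pr, sn_pr, if_pos, if_pos hy2]
    rw [decide_eq_true_eq, List.length_nil, Nat.add_zero, hkpl, un_length]
    exact hy1

private theorem te5_opt {A R : List Bool → Bool}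
    (hfin : ∀ g : {P : Mach // P.ok}, (∀ v, g.1.run A R v ∈ TL R) →
      ∃ K i0 : ℕ, ∀ i, i0 ≤ i → R ∉ ShP g.1 K A i)
    {w0 : List Bool} (hw0 : w0 ∈ TL R) : ∃ f, POptimalForRel (ojoin A R) (TL R) f := by
  classical
  obtain ⟨f, hf, hfv⟩ := te_bf A R w0
  have key : ∀ (u : List Bool) (i : ℕ), run (ojoin A R) u = un (ch i) →
      2 ^ (ch i * ch i) ≤ u.length → R ∉ EH true (ch i * ch i) 0 false →
      f u = run (ojoin A R) u := by
    intro u i h1 h2 h3
    rw [hfv, if_pos ⟨i, h1, h2, h3⟩]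
  refine ⟨f, ⟨hf, ?_⟩, ?_⟩
  · apply Set.Subset.antisymm
    · rintro _ ⟨u, rfl⟩
      rw [hfv]
      split_ifs with h
      · obtain ⟨i, h1, -, h3⟩ := h
        rw [h1]
        exact te5_mem.2 ⟨i, rfl, h3⟩
      · exact hw0
    · intro w hw
      obtain ⟨i, rfl, hi⟩ := te5_mem.1 hw
      obtain ⟨c, P, hc⟩ := run_code (Y := ojoin A R) (g := fun x => x)
        (PolyTimeRel.of_fp FP.id _)
      have h1 : run (ojoin A R) (pr c (pr (un (ch i)) (un (P.eval (ch i) +
          2 ^ (ch i * ch i))))) = un (ch i) := by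
        refine hc (un (ch i)) _ ?_
        rw [un_length, un_length]
        exact Nat.le_add_right _ _
      refine ⟨pr c (pr (un (ch i)) (un (P.eval (ch i) + 2 ^ (ch i * ch i)))), ?_⟩
      rw [key _ i h1 ?_ hi, h1]
      rw [pr_length, pr_length, un_length, un_length]
      omega
  · intro g hg hgr
    obtain ⟨G, hG, hGv⟩ := exists_mach hg
    obtain ⟨K, i0, h0⟩ := hfin ⟨G, hG⟩ (fun v => by
      show G.run A R v ∈ TL R
      rw [hGv, ← hgr]
      exact Set.mem_range_self v)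
    obtain ⟨c, P, hc⟩ := run_code hg
    obtain ⟨k, hk, hkl⟩ := FP.clock (P + Polynomial.X ^ K + Polynomial.C (2 ^ (ch i0 * ch i0)))
    have hkl' : ∀ v, (k v).length = P.eval v.length + v.length ^ K + 2 ^ (ch i0 * ch i0) := by
      intro v
      rw [hkl]
      simp
    refine ⟨fun v => pr c (pr v (k v)), ((FP.const c).pair (FP.id.pair hk)).polyTime,
      fun v => ?_⟩
    have h1 : run (ojoin A R) (pr c (pr v (k v))) = g v := by
      refine hc v _ ?_
      rw [hkl', Nat.add_assoc]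
      exact Nat.le_add_right _ _
    have h2 : g v ∈ TL R := by
      rw [← hgr]
      exact Set.mem_range_self v
    obtain ⟨i, hi1, hi2⟩ := te5_mem.1 h2
    rw [key _ i (h1.trans hi1) ?_ hi2, h1]
    have h3 : 2 ^ (ch i * ch i) ≤ (k v).length := by
      rw [hkl']
      rcases le_or_gt i0 i with h4 | h4
      · have h5 := h0 i h4
        have h6 : ¬ v.length ^ K ≤ 2 ^ (ch i * ch i) := fun h7 =>
          h5 ⟨v, h7, (hGv v).trans hi1⟩
        have h8 : 0 < 2 ^ (ch i0 * ch i0) := by positivity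
        omega
      · have h5 : ch i ≤ ch i0 := (ch_strictMono h4).le
        have h6 : 2 ^ (ch i * ch i) ≤ 2 ^ (ch i0 * ch i0) :=
          Nat.pow_le_pow_right (by norm_num) (Nat.mul_le_mul h5 h5)
        omega
    rw [pr_length, pr_length]
    omega

theorem tally_exc (A : List Bool → Bool) : ∀ᵐ R ∂randomOracle, ∃ L : Set (List Bool),
    Tally L ∧ CoNPRel (ojoin A R) L ∧ ¬ NPRel (ojoin A R) L ∧
      ∃ f, POptimalForRel (ojoin A R) L f := by
  filter_upwards [te_inf, te5_fin A] with R hinf hfin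
  obtain ⟨i, -, hi⟩ := hinf 0
  have hw0 : un (ch i) ∈ TL R := te5_mem.2 ⟨i, rfl, hi⟩
  exact ⟨TL R, tally_lev _ _, te_co A R, te5_np hinf hfin hw0, te5_opt hfin hw0⟩

end Pool.Agent.Work.MP_0532f7_lc.PP
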