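import Mathlib
import Pool.Agent.Work.MP_0532f7_lc.PP.Defs
import Pool.Agent.Work.MP_0532f7_lc.SlClo

/-!
If there is no complete disjoint coNP pair then there is no complete TFNP problem (any oracle X). (M)

Let T in TFNPRel X, with V2, p2. Suppose every S in TFNPRel X is reducible to T. Define on words u = pr z' (pr c (pr x t)) the sets
  C = {u | for all y' in T z': run X (pr c (pr (pr x y') t)) has head true}, D = the same with (head = false or empty), i.e. not head true.
Both are in coNP (the quantifier over |y'| <= p2(|u|) (monotone bound, pmono), relation: V2 (pr z' y') = [true] implies the condition; PolyTimeRel.run,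
PolyTimeRel.comp/pre/post/ite/pair), and disjoint because T z' is nonempty. By hypothesis h there are disjoint E, F in coNP (V_E,p_E; V_F,p_F) with (E,F) not reducible to (C,D). Let S z =
{true :: y | |y| <= p_E(|z|), V_E (pr z y) /= [true]} union {false :: y | |y| <= p_F(|z|), V_F (pr z y) /= [true]} (true: refutation of z in E). S is in TFNPRel X: total because E and F are
disjoint. By assumption there are h', g with g (pr z y') in S z for y' in T (h' z). Code c and polynomial P of g from run_code: run X (pr c (pr x t)) = g x when P(|x|) <= |t|.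
Reduction of (E,F) to (D,C): w maps to pr (h' w) (pr c (pr w t)), |t| >= P(2|w|+1+|y'|) for all y' in T (h' w) (|y'| <= p2(|h' w|), PolyTimeRel.length for h', FP.clock). For w in E no element
true :: y is in S w, so for all y' in T (h' w), g (pr w y') = false :: y: the image is in D. For w in F it is in C. So apply the hypothesis h to the pair (D, C) instead of (C, D). Here
pr w y' = pr x y' with x = w. PolyTimeRel of the reduction: PolyTimeRel.pair, comp. (ite needs = [true] conditions; post with FP functions for heads.)
-/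

namespace Pool.Agent.Work.MP_0532f7_lc.PP

open Polynomial

/-- the run on the pair of `x` and `y` -/
private def ru (X : List Bool → Bool) (u y : List Bool) : List Bool :=
  run X (pr (fs (sn u)) (pr (pr (fs (sn (sn u))) y) (sn (sn (sn u)))))

private theorem ru_pt (X : List Bool → Bool) : PolyTimeRel X (fun v => ru X (fs v) (sn v)) := by
  have hK : FP (fun v => pr (fs (sn (fs v))) (pr (pr (fs (sn (sn (fs v)))) (sn v))
      (sn (sn (sn (fs v)))))) :=
    FP.pair FP.fsI.snd.fst (FP.pair (FP.pair FP.fsI.snd.snd.fst FP.snI) FP.fsI.snd.snd.snd)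
  exact (PolyTimeRel.run X).pre hK

/-- the set of the words on which the run has value `b` at the head for all solutions -/
private def hS (X : List Bool → Bool) (T : List Bool → Set (List Bool)) (b : Bool) :
    Set (List Bool) :=
  {u | ∀ y ∈ T (fs u), (ru X u y).head?.getD false = b}

private theorem hS_co {X : List Bool → Bool} {T : List Bool → Set (List Bool)}
    (hT : TFNPRel X T) (b : Bool) : CoNPRel X (hS X T b) := by
  obtain ⟨⟨V, hV, hV'⟩, ⟨p, hp⟩, -⟩ := hT
  have hb : FP (fun z : List Bool => [decide (z.head?.getD false = b)]) := by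
    cases b
    · refine (FPb.hd.not).congr (fun x => ?_)
      cases h : x.head?.getD false <;> simp
    · refine FPb.hd.congr (fun x => ?_)
      cases h : x.head?.getD false <;> simp
  refine ⟨fun v => if V (pr (fs (fs v)) (sn v)) = [true] then
      [decide ((ru X (fs v) (sn v)).head?.getD false = b)] else [true], ?_, p, fun u => ?_⟩
  · exact PolyTimeRel.ite (hV.pre (FP.pair FP.fsI.fst FP.snI)) ((ru_pt X).post hb)
      (PolyTimeRel.of_fp (FP.const [true]) X)
  · constructor
    · intro hu y _
      dsimp only
      rw [fs_pr, sn_pr]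
      split_ifs with h1
      · rw [← hV'] at h1
        simp [hu y h1]
      · rfl
    · intro hu y hy
      have h1 := hu y ((hp _ y hy).trans (pmono p (by
        have := fs_sn_length u
        omega)))
      dsimp only at h1
      rw [fs_pr, sn_pr, if_pos ((hV' _ _).mp hy)] at h1
      simpa using h1

private theorem hS_disj {X : List Bool → Bool} {T : List Bool → Set (List Bool)}
    (hT : TFNPRel X T) : Disjoint (hS X T false) (hS X T true) := by
  rw [Set.disjoint_left]
  intro u h1 h2
  obtain ⟨y, hy⟩ := hT.2.2 (fs u)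
  have h3 := h1 y hy
  rw [h2 y hy] at h3
  cases h3

/-- refutations of the membership in the two sets -/
private def rS (VE VF : List Bool → List Bool) (pE pF : Polynomial ℕ) (z : List Bool) :
    Set (List Bool) :=
  {s | (∃ y, s = true :: y ∧ y.length ≤ pE.eval z.length ∧ VE (pr z y) ≠ [true]) ∨
    ∃ y, s = false :: y ∧ y.length ≤ pF.eval z.length ∧ VF (pr z y) ≠ [true]}

private theorem rS_tf {X : List Bool → Bool} {VE VF : List Bool → List Bool}
    {pE pF : Polynomial ℕ} (hE : PolyTimeRel X VE) (hF : PolyTimeRel X VF)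
    (hd : ∀ z, (∃ y : List Bool, y.length ≤ pE.eval z.length ∧ VE (pr z y) ≠ [true]) ∨
      ∃ y : List Bool, y.length ≤ pF.eval z.length ∧ VF (pr z y) ≠ [true]) :
    TFNPRel X (rS VE VF pE pF) := by
  obtain ⟨kE, hkE, hkE'⟩ := FP.clock pE
  obtain ⟨kF, hkF, hkF'⟩ := FP.clock pF
  refine ⟨?_, ⟨pE + pF + 1, ?_⟩, ?_⟩
  · have c1 : FP (fun v => [(sn v).head?.getD false &&
        ((sn v).tail.drop (kE (fs v)).length).isEmpty]) :=
      (FPb.hd.comp FP.snI).and (FPb.isNil.comp (FP.drop (hkE.comp FP.fsI)
        (FP.tail.comp FP.snI)))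
    have c2 : FP (fun v => [(!(sn v).isEmpty && !(sn v).head?.getD false) &&
        ((sn v).tail.drop (kF (fs v)).length).isEmpty]) :=
      (((FPb.isNil.comp FP.snI).not).and (FPb.hd.comp FP.snI).not).and
        (FPb.isNil.comp (FP.drop (hkF.comp FP.fsI) (FP.tail.comp FP.snI)))
    have hpt : FP (fun v => pr (fs v) (sn v).tail) := FP.pair FP.fsI (FP.tail.comp FP.snI)
    have cn := PolyTimeRel.of_fp FP.nil X
    have ct := PolyTimeRel.of_fp (FP.const [true]) X
    refine ⟨_, PolyTimeRel.ite (PolyTimeRel.of_fp c1 X)
      (PolyTimeRel.ite (hE.pre hpt) cn ct)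
      (PolyTimeRel.ite (PolyTimeRel.of_fp c2 X) (PolyTimeRel.ite (hF.pre hpt) cn ct) cn), ?_⟩
    intro z s
    simp only [fs_pr, sn_pr, hkE', hkF']
    unfold rS
    rw [Set.mem_ofPred_eq]
    rcases s with _ | ⟨b, y⟩
    · simp
    · cases b
      · simp only [List.head?_cons, Option.getD_some, Bool.false_and, List.tail_cons,
          List.isEmpty_cons, Bool.not_false, Bool.true_and, List.isEmpty_iff,
          List.drop_eq_nil_iff, List.cons.injEq, Bool.false_eq_true, false_and, and_false,
          if_false, decide_eq_true_eq, reduceCtorEq]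
        by_cases h1 : y.length ≤ pF.eval z.length
        · have h2 : (List.drop (pF.eval z.length) y).isEmpty = true := by
            rw [List.isEmpty_iff, List.drop_eq_nil_iff]
            exact h1
          simp [h2, h1]
        · have h2 : (List.drop (pF.eval z.length) y).isEmpty = false := by
            rw [Bool.eq_false_iff, Ne, List.isEmpty_iff, List.drop_eq_nil_iff]
            exact h1
          simp [h2, h1]
      · simp only [List.head?_cons, Option.getD_some, Bool.true_and, List.tail_cons]
        by_cases h1 : y.length ≤ pE.eval z.length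
        · have h2 : (List.drop (pE.eval z.length) y).isEmpty = true := by
            rw [List.isEmpty_iff, List.drop_eq_nil_iff]
            exact h1
          simp [h2, h1]
        · have h2 : (List.drop (pE.eval z.length) y).isEmpty = false := by
            rw [Bool.eq_false_iff, Ne, List.isEmpty_iff, List.drop_eq_nil_iff]
            exact h1
          simp [h2, h1]
  · rintro z s (⟨y, rfl, h1, -⟩ | ⟨y, rfl, h1, -⟩)
    · rw [List.length_cons, Polynomial.eval_add, Polynomial.eval_add, Polynomial.eval_one]
      omega
    · rw [List.length_cons, Polynomial.eval_add, Polynomial.eval_add, Polynomial.eval_one]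
      omega
  · intro z
    rcases hd z with ⟨y, h1, h2⟩ | ⟨y, h1, h2⟩
    · exact ⟨true :: y, Or.inl ⟨y, rfl, h1, h2⟩⟩
    · exact ⟨false :: y, Or.inr ⟨y, rfl, h1, h2⟩⟩

theorem tf_of_pairs (X : List Bool → Bool)
    (h : ∀ C D : Set (List Bool), CoNPRel X C → CoNPRel X D → Disjoint C D →
      ∃ E F : Set (List Bool), CoNPRel X E ∧ CoNPRel X F ∧ Disjoint E F ∧
        ¬ PairRed X E F C D) :
    ∀ T : List Bool → Set (List Bool), TFNPRel X T →
      ∃ S : List Bool → Set (List Bool), TFNPRel X S ∧ ¬ SearchRed X S T := by
  intro T hT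
  obtain ⟨E, F, hE, hF, hdEF, hno⟩ := h (hS X T false) (hS X T true) (hS_co hT false)
    (hS_co hT true) (hS_disj hT)
  obtain ⟨VE, hVE, pE, hpE⟩ := hE
  obtain ⟨VF, hVF, pF, hpF⟩ := hF
  refine ⟨rS VE VF pE pF, rS_tf hVE hVF ?_, ?_⟩
  · intro z
    by_contra h1
    push Not at h1
    exact Set.disjoint_left.mp hdEF ((hpE z).mpr h1.1) ((hpF z).mpr h1.2)
  · rintro ⟨h', g, hh', hg, hred⟩
    apply hno
    obtain ⟨c, P, hc⟩ := run_code hg
    obtain ⟨Ph, hPh⟩ := hh'.length
    obtain ⟨-, ⟨p2, hp2⟩, -⟩ := hT
    obtain ⟨k, hk, hk'⟩ := FP.clock (P.comp (2 * Polynomial.X + 1 + p2.comp Ph))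
    have key : ∀ w, ∀ y ∈ T (h' w), ru X (pr (h' w) (pr c (pr w (k w)))) y = g (pr w y) := by
      intro w y hy
      unfold ru
      simp only [sn_pr, fs_pr]
      refine hc _ _ ?_
      rw [hk']
      simp only [eval_add, eval_mul, eval_ofNat, eval_one, eval_X, eval_comp]
      apply pmono
      rw [pr_length]
      have h1 := (hp2 _ y hy).trans (pmono p2 (hPh w))
      omega
    refine ⟨fun w => pr (h' w) (pr c (pr w (k w))), hh'.pair (PolyTimeRel.of_fp
      (FP.pair (FP.const c) (FP.pair FP.id hk)) X), ?_, ?_⟩
    · intro w hw y hy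
      rw [fs_pr] at hy
      rw [key w y hy]
      rcases hred w y hy with ⟨y', h1, h2, h3⟩ | ⟨y', h1, -, -⟩
      · exact absurd ((hpE w).mp hw y' h2) h3
      · rw [h1]
        rfl
    · intro w hw y hy
      rw [fs_pr] at hy
      rw [key w y hy]
      rcases hred w y hy with ⟨y', h1, -, -⟩ | ⟨y', h1, h2, h3⟩
      · rw [h1]
        rfl
      · exact absurd ((hpF w).mp hw y' h2) h3

end Pool.Agent.Work.MP_0532f7_lc.PP
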