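import Mathlib
import Pool.Agent.Work.MP_0532f7_lc.PP.MainN
import Pool.Agent.Work.MP_0532f7_lc.PP.MainC
import Pool.Agent.Work.MP_0532f7_lc.PP.MainU
import Pool.Agent.Work.MP_0532f7_lc.PP.TF
import Pool.Agent.Work.MP_0532f7_lc.PP.TE5
import Pool.Agent.Work.MP_0532f7_lc.OMain3

/-!
Pudlak's programme relative to a random oracle (assembly of the statements).
-/

namespace Pool.Agent.Work.MP_0532f7_lc.PP

open MeasureTheory

theorem main (A : List Bool → Bool) : ∀ᵐ R ∂randomOracle,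
    (¬ ∃ f, OptimalRel (ojoin A R) f) ∧
    (∀ f, PolyTimeRel (ojoin A R) f → Set.range f ⊆ OTAUT (ojoin A R) →
      ∃ g, PolyTimeRel A g ∧ Set.range g ⊆ OTAUT (ojoin A R) ∧
        ∀ m₀, ∃ m, m₀ ≤ m ∧ ∀ w, f w = g (List.replicate m true) → 2 ^ m < w.length) ∧
    (∀ C D, NPRel (ojoin A R) C → NPRel (ojoin A R) D → Disjoint C D →
      ∃ E F, Tally (E ∪ F) ∧ NPRel (ojoin A R) E ∧ NPRel (ojoin A R) F ∧ Disjoint E F ∧
        ¬ PairRed (ojoin A R) E F C D) ∧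
    (∀ C D, CoNPRel (ojoin A R) C → CoNPRel (ojoin A R) D → Disjoint C D →
      ∃ E F, Tally (E ∪ F) ∧ CoNPRel (ojoin A R) E ∧ CoNPRel (ojoin A R) F ∧ Disjoint E F ∧
        ¬ PairRed (ojoin A R) E F C D) ∧
    (∀ T, TFNPRel (ojoin A R) T → ∃ S, TFNPRel (ojoin A R) S ∧ ¬ SearchRed (ojoin A R) S T) ∧
    (∀ U, UPRel (ojoin A R) U → ∃ L, Tally L ∧ UPRel (ojoin A R) L ∧
      ¬ SetRed (ojoin A R) L U) ∧
    ∃ L, Tally L ∧ CoNPRel (ojoin A R) L ∧ ¬ NPRel (ojoin A R) L ∧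
      ∃ f, POptimalForRel (ojoin A R) L f := by
  filter_upwards [ae_all A, main_N A, main_C A, main_U A, tally_exc A] with R hR hN hC hU hT
  refine ⟨fun ⟨f, hf⟩ => not_optimal A R hR f hf, fun f hf hs => hard_of A R hR f hf hs,
    hN, hC, tf_of_pairs _ (fun C D h1 h2 h3 => ?_), hU, hT⟩
  obtain ⟨E, F, _, h4, h5, h6, h7⟩ := hC C D h1 h2 h3
  exact ⟨E, F, h4, h5, h6, h7⟩

end Pool.Agent.Work.MP_0532f7_lc.PP
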